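import Pool.Agent.CTO.Stmts2

/-!
# Close maps into a compact ANR are homotopic by small homotopies
-/

set_option autoImplicit false

namespace CTO

open Set Topology

namespace HOM

/-- the uniform neighbourhood -/
lemma unif {X Y : Type} [MetricSpace X] [CompactSpace X] [MetricSpace Y] (e : X → Y)
    (he : Isometry e) (Ω : Set Y) (r : Y → X) (hΩ : IsOpen Ω) (hsub : range e ⊆ Ω)
    (hr : ContinuousOn r Ω) (hre : ∀ x, r (e x) = x) {η : ℝ} (hη : 0 < η) :
    ∃ δ : ℝ, 0 < δ ∧ ∀ x ∈ (univ : Set X), ∀ u, dist u (e x) < δ → u ∈ Ω ∧ dist (r u) x < η := by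
  refine isCompact_univ.induction_on
    (p := fun s : Set X => ∃ δ : ℝ, 0 < δ ∧ ∀ x ∈ s, ∀ u, dist u (e x) < δ →
      u ∈ Ω ∧ dist (r u) x < η) ?_ ?_ ?_ ?_
  · exact ⟨1, one_pos, fun x hx => absurd hx (Set.notMem_empty x)⟩
  · rintro s t hst ⟨δ, hδ, h⟩
    exact ⟨δ, hδ, fun x hx => h x (hst hx)⟩
  · rintro s t ⟨δ, hδ, h⟩ ⟨δ', hδ', h'⟩
    refine ⟨min δ δ', lt_min hδ hδ', ?_⟩
    rintro x (hx | hx) u hu
    · exact h x hx u (lt_of_lt_of_le hu (min_le_left _ _))
    · exact h' x hx u (lt_of_lt_of_le hu (min_le_right _ _))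
  · intro x _
    have hex : e x ∈ Ω := hsub ⟨x, rfl⟩
    have hc : ContinuousAt r (e x) := hr.continuousAt (hΩ.mem_nhds hex)
    obtain ⟨δ1, hδ1, h1⟩ := Metric.continuousAt_iff.mp hc (η / 2) (by positivity)
    obtain ⟨δ2, hδ2, h2⟩ := Metric.isOpen_iff.mp hΩ (e x) hex
    have hδ : 0 < min (min δ1 δ2 / 2) (η / 2) := by positivity
    refine ⟨Metric.ball x (min (min δ1 δ2 / 2) (η / 2)),
      mem_nhdsWithin_of_mem_nhds (Metric.ball_mem_nhds x hδ),
      min (min δ1 δ2 / 2) (η / 2), hδ, ?_⟩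
    intro y hy u hu
    have hy' : dist y x < min (min δ1 δ2 / 2) (η / 2) := hy
    have a1 : dist (e y) (e x) = dist y x := he.dist_eq y x
    have a2 : dist u (e x) < min δ1 δ2 := by
      have b1 := dist_triangle u (e y) (e x)
      have b2 : min (min δ1 δ2 / 2) (η / 2) ≤ min δ1 δ2 / 2 := min_le_left _ _
      linarith
    refine ⟨h2 (lt_of_lt_of_le a2 (min_le_right _ _)), ?_⟩
    have a3 := h1 (lt_of_lt_of_le a2 (min_le_left _ _))
    rw [hre] at a3
    have b1 := dist_triangle (r u) x y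
    have b2 : min (min δ1 δ2 / 2) (η / 2) ≤ η / 2 := min_le_right _ _
    rw [dist_comm x y] at b1
    linarith

end HOM

theorem t_HOM : S_HOM := by
  intro X _ _ hX η hη
  have he : Isometry (kuratowskiEmbedding X) := kuratowskiEmbedding.isometry X
  obtain ⟨Ω, r, hΩ, hsub, hr, hre⟩ := hX _ (kuratowskiEmbedding X) he.isClosedEmbedding
  obtain ⟨δ, hδ, h1⟩ := HOM.unif (kuratowskiEmbedding X) he Ω r hΩ hsub hr hre hη
  refine ⟨δ, hδ, ?_⟩
  intro h hh hd
  have key : ∀ x : X, ∀ t ∈ Icc (0 : ℝ) 1,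
      dist ((1 - t) • kuratowskiEmbedding X x + t • kuratowskiEmbedding X (h x))
        (kuratowskiEmbedding X x) < δ := by
    intro x t ht
    have e1 : (1 - t) • kuratowskiEmbedding X x + t • kuratowskiEmbedding X (h x) -
        kuratowskiEmbedding X x =
        t • (kuratowskiEmbedding X (h x) - kuratowskiEmbedding X x) := by
      module
    rw [dist_eq_norm, e1, norm_smul, ← dist_eq_norm, he.dist_eq, Real.norm_of_nonneg ht.1]
    have h2 := hd x
    have h3 : (0 : ℝ) ≤ dist (h x) x := dist_nonneg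
    nlinarith [ht.2, ht.1]
  refine ⟨fun p => r ((1 - p.2) • kuratowskiEmbedding X p.1 +
    p.2 • kuratowskiEmbedding X (h p.1)), ?_, ?_, ?_, ?_⟩
  · apply ContinuousOn.comp (t := Ω) hr
    · apply Continuous.continuousOn
      have c1 : Continuous fun p : X × ℝ => kuratowskiEmbedding X p.1 :=
        he.continuous.comp continuous_fst
      have c2 : Continuous fun p : X × ℝ => kuratowskiEmbedding X (h p.1) :=
        he.continuous.comp (hh.comp continuous_fst)
      exact ((continuous_const.sub continuous_snd).smul c1).add (continuous_snd.smul c2)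
    · rintro ⟨x, t⟩ ⟨_, ht⟩
      exact (h1 x (mem_univ x) _ (key x t ht)).1
  · intro x
    show r ((1 - (0 : ℝ)) • kuratowskiEmbedding X x + (0 : ℝ) • kuratowskiEmbedding X (h x)) = x
    rw [sub_zero, one_smul, zero_smul, add_zero, hre]
  · intro x
    show r ((1 - (1 : ℝ)) • kuratowskiEmbedding X x + (1 : ℝ) • kuratowskiEmbedding X (h x)) =
      h x
    rw [sub_self, one_smul, zero_smul, zero_add, hre]
  · intro x t ht
    exact (h1 x (mem_univ x) _ (key x t ht)).2

end CTO
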