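import Pool.Agent.CTO.Stmts2

/-!
MP_6eac38_gt, module APX4: maps into 4-space can be approximated by maps without zeros.
-/

set_option autoImplicit false

namespace CTO

open Set Topology

theorem t_APX4 : M_APX4 := by
  intro hGP X _ _ hShr f hf ε hε
  classical
  -- a finite cover
  have hU : ∀ x : X, IsOpen (f ⁻¹' Metric.ball (f x) (ε / 2)) := fun x =>
    Metric.isOpen_ball.preimage hf
  obtain ⟨t, ht⟩ := isCompact_univ.elim_finite_subcover
    (fun x : X => f ⁻¹' Metric.ball (f x) (ε / 2)) hU (fun x _ => by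
      rw [mem_iUnion]
      exact ⟨x, Metric.mem_ball_self (half_pos hε)⟩)
  let c : Fin t.card → X := fun i => (t.equivFin.symm i : X)
  have hcov : (⋃ i, f ⁻¹' Metric.ball (f (c i)) (ε / 2)) = univ := by
    rw [eq_univ_iff_forall]
    intro x
    have hx := ht (mem_univ x)
    rw [mem_iUnion₂] at hx
    obtain ⟨y, hy, hxy⟩ := hx
    rw [mem_iUnion]
    refine ⟨t.equivFin ⟨y, hy⟩, ?_⟩
    have : c (t.equivFin ⟨y, hy⟩) = y := by simp [c]
    rw [this]
    exact hxy
  obtain ⟨V, hVo, hVU, hVc, hVn⟩ := hShr t.card (fun i => f ⁻¹' Metric.ball (f (c i)) (ε / 2))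
    (fun i => hU (c i)) hcov
  obtain ⟨φ, hφ⟩ := PartitionOfUnity.exists_isSubordinate isClosed_univ V hVo hVc.ge
  obtain ⟨v, hv1, hv2⟩ := hGP t.card (fun i => f (c i)) (ε / 2) (half_pos hε)
  have hmem : ∀ x i, φ i x ≠ 0 → x ∈ V i := fun x i h => hφ i (subset_tsupport _ h)
  have hsum1 : ∀ x, ∑ i, φ i x = 1 := by
    intro x
    have := φ.sum_eq_one (mem_univ x)
    rwa [finsum_eq_sum_of_fintype] at this
  have hsum2 : ∀ x, ∑ i ∈ Finset.univ.filter (fun i => φ i x ≠ 0), φ i x = 1 := by
    intro x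
    rw [Finset.sum_filter_ne_zero]
    exact hsum1 x
  have hsum3 : ∀ x, ∑ i, φ i x • v i =
      ∑ i ∈ Finset.univ.filter (fun i => φ i x ≠ 0), φ i x • v i := by
    intro x
    symm
    apply Finset.sum_subset (Finset.subset_univ _)
    intro i _ hi
    have : φ i x = 0 := by
      by_contra h
      exact hi (Finset.mem_filter.2 ⟨Finset.mem_univ _, h⟩)
    rw [this, zero_smul]
  refine ⟨fun x => ∑ i, φ i x • v i, ?_, ?_, ?_⟩
  · exact continuous_finsetSum _ fun i _ => (φ i).continuous.smul continuous_const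
  · intro x hx
    have hx' : ∑ i, φ i x • v i = 0 := hx
    rw [hsum3 x] at hx'
    have hcard : (Finset.univ.filter (fun i => φ i x ≠ 0)).card ≤ 4 := by
      refine le_trans ?_ (hVn x)
      rw [← Set.ncard_coe_finset]
      apply Set.ncard_le_ncard _ (Set.toFinite _)
      intro i hi
      have hi' : i ∈ Finset.univ.filter (fun i => φ i x ≠ 0) := hi
      exact hmem x i (Finset.mem_filter.1 hi').2
    have hli := hv2 _ hcard
    rw [Fintype.linearIndependent_iff] at hli
    have h0 := hli (fun i => φ i.1 x) (by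
      rw [← Finset.sum_coe_sort] at hx'
      exact hx')
    have h1 := hsum2 x
    rw [Finset.sum_eq_zero] at h1
    · exact zero_ne_one h1
    · intro i hi
      exact h0 ⟨i, hi⟩
  · intro x
    have h1 : (∑ i, φ i x • v i) ∈ Metric.ball (f x) ε := by
      rw [hsum3 x]
      refine (convex_ball (f x) ε).sum_mem (fun i _ => φ.nonneg i x) (hsum2 x) ?_
      intro i hi
      have h2 : x ∈ V i := hmem x i (Finset.mem_filter.1 hi).2
      have h3 : dist (f x) (f (c i)) < ε / 2 := hVU i h2
      rw [Metric.mem_ball]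
      calc dist (v i) (f x) ≤ dist (v i) (f (c i)) + dist (f (c i)) (f x) := dist_triangle _ _ _
        _ < ε / 2 + ε / 2 := add_lt_add (hv1 i) (by rw [dist_comm]; exact h3)
        _ = ε := add_halves ε
    exact h1

end CTO
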