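import Pool.Agent.CTO.Stmts2

/-!
# MP_6eac38_gt, module EXT4: maps into 4-space without zeros extend from closed subsets
-/

set_option autoImplicit false

namespace CTO

open Set Topology

namespace EXT4

/-- homotopy extension for a linear homotopy, in 4-space -/
theorem hep {P : Type} [MetricSpace P] [CompactSpace P] {Q : Set P} {f0 f1 F1 : P → R4}
    (hQ : IsClosed Q) (h0 : ContinuousOn f0 Q) (h1 : ContinuousOn f1 Q)
    (hseg : ∀ x ∈ Q, ∀ t : ℝ, 0 ≤ t → t ≤ 1 → (1 - t) • f0 x + t • f1 x ≠ 0)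
    (hF1 : Continuous F1) (hF1n : ∀ x, F1 x ≠ 0) (heq : EqOn F1 f1 Q) :
    ∃ F0 : P → R4, Continuous F0 ∧ (∀ x, F0 x ≠ 0) ∧ EqOn F0 f0 Q := by
  let φ : C(Q, R4) := ⟨fun x => f0 x - f1 x,
    (continuousOn_iff_continuous_domRestrict.1 h0).sub (continuousOn_iff_continuous_domRestrict.1 h1)⟩
  obtain ⟨D, hD⟩ := φ.exists_restrict_eq hQ
  have hD' : ∀ x ∈ Q, D x = f0 x - f1 x := by
    intro x hx
    exact congrArg (fun g : C(Q, R4) => g ⟨x, hx⟩) hD
  let T : Set (ℝ × P) := (Icc (0 : ℝ) 1 ×ˢ univ) ∩ {z | F1 z.2 + z.1 • D z.2 = 0}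
  have hTc : IsCompact T := by
    apply (isCompact_Icc.prod isCompact_univ).inter_right
    exact isClosed_eq (by fun_prop) continuous_const
  let B : Set P := Prod.snd '' T
  have hB : IsClosed B := (hTc.image continuous_snd).isClosed
  have hBQ : Disjoint B Q := by
    rw [Set.disjoint_left]
    rintro x ⟨⟨s, y⟩, ⟨⟨hs, _⟩, hz⟩, rfl⟩ hx
    have hz' : F1 y + s • D y = 0 := hz
    rw [heq hx, hD' y hx] at hz'
    apply hseg y hx (1 - s) (by linarith [hs.2]) (by linarith [hs.1])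
    rw [← hz']
    module
  obtain ⟨l, hl0, hl1, hl⟩ := exists_continuous_zero_one_of_isClosed hB hQ hBQ
  refine ⟨fun x => F1 x + l x • D x, by fun_prop, ?_, ?_⟩
  · intro x hx
    have hxB : x ∈ B := ⟨(l x, x), ⟨⟨hl x, mem_univ _⟩, hx⟩, rfl⟩
    have h2 : l x = 0 := hl0 hxB
    have hx' : F1 x + l x • D x = 0 := hx
    rw [h2, zero_smul, add_zero] at hx'
    exact hF1n x hx'
  · intro x hx
    have h2 : l x = 1 := hl1 hx
    show F1 x + l x • D x = f0 x
    rw [h2, one_smul, heq hx, hD' x hx]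
    abel

theorem lower {X : Type} [MetricSpace X] [CompactSpace X] {C : Set X} {f : X → R4}
    (hC : IsClosed C) (hf : ContinuousOn f C) (h0 : ∀ x ∈ C, f x ≠ 0) :
    ∃ η : ℝ, 0 < η ∧ ∀ x ∈ C, η ≤ ‖f x‖ := by
  rcases C.eq_empty_or_nonempty with rfl | hne
  · exact ⟨1, one_pos, fun x hx => absurd hx (Set.notMem_empty x)⟩
  · obtain ⟨x, hx, hmin⟩ := hC.isCompact.exists_isMinOn hne hf.norm
    exact ⟨‖f x‖, norm_pos_iff.2 (h0 x hx), fun y hy => hmin hy⟩

end EXT4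

open EXT4 in
theorem t_EXT4 : M_EXT4 := by
  intro hapx X _ _ hX C f hC hf h0
  obtain ⟨η, hη, hle⟩ := lower hC hf h0
  let φ : C(C, R4) := ⟨fun x => f x, continuousOn_iff_continuous_domRestrict.1 hf⟩
  obtain ⟨f', hf'⟩ := φ.exists_restrict_eq hC
  have hf'' : ∀ x ∈ C, f' x = f x := by
    intro x hx
    exact congrArg (fun g : C(C, R4) => g ⟨x, hx⟩) hf'
  obtain ⟨p, hp, hp0, hpf⟩ := hapx X hX f' f'.continuous η hη
  refine hep (F1 := p) (f1 := p) hC hf hp.continuousOn ?_ hp hp0 (fun _ _ => rfl)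
  intro x hx t ht0 ht1 hz
  have h1 : ‖p x - f x‖ < η := by
    rw [← dist_eq_norm, ← hf'' x hx]
    exact hpf x
  have h2 : f x = -(t • (p x - f x)) := by
    have h3 : f x = ((1 - t) • f x + t • p x) - t • (p x - f x) := by module
    rw [hz, zero_sub] at h3
    exact h3
  have h4 : ‖f x‖ ≤ ‖p x - f x‖ := by
    calc ‖f x‖ = ‖-(t • (p x - f x))‖ := by rw [← h2]
      _ = |t| * ‖p x - f x‖ := by rw [norm_neg, norm_smul, Real.norm_eq_abs]
      _ ≤ 1 * ‖p x - f x‖ :=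
        mul_le_mul_of_nonneg_right (by rw [abs_of_nonneg ht0]; exact ht1) (norm_nonneg _)
      _ = ‖p x - f x‖ := one_mul _
  linarith [hle x hx]

end CTO
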