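import Pool.Agent.CTO.Stmts2

/-!
# CTO, module GP: general position in 4-space
-/

set_option autoImplicit false

namespace CTO

open Set Topology

namespace GP

/-- a proper subspace of a finite-dimensional space has dense complement -/
lemma dense_compl (p : Submodule ℝ R4) (hp : p ≠ ⊤) : Dense ((p : Set R4)ᶜ) := by
  rw [← interior_eq_empty_iff_dense_compl]
  by_contra h
  exact hp (p.eq_top_of_nonempty_interior' (nonempty_iff_ne_empty.2 h))

lemma span_ne_top {n : ℕ} (v : Fin n → R4) (t : Finset (Fin n)) (ht : t.card ≤ 3) :
    Submodule.span ℝ (v '' (t : Set (Fin n))) ≠ ⊤ := by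
  intro h
  have h1 : Module.finrank ℝ (Submodule.span ℝ (v '' (t : Set (Fin n)))) ≤ t.card := by
    classical
    have h2 := finrank_span_finset_le_card (R := ℝ) (t.image v)
    rw [Finset.coe_image] at h2
    exact h2.trans Finset.card_image_le
  rw [h, finrank_top, Module.finrank_fin_fun] at h1
  omega

end GP

theorem t_GP : S_GP := by
  intro n
  induction n with
  | zero =>
    intro y ε _
    refine ⟨y, fun i => i.elim0, fun s _ => ?_⟩
    have : IsEmpty s := ⟨fun i => i.1.elim0⟩
    exact linearIndependent_empty_type
  | succ n ih =>
    intro y ε hε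
    obtain ⟨v, hv1, hv2⟩ := ih (fun i => y i.castSucc) ε hε
    have hd : Dense (⋂ t : {t : Finset (Fin n) // t.card ≤ 3},
        ((Submodule.span ℝ (v '' (t.1 : Set (Fin n))) : Set R4)ᶜ)) := by
      apply dense_iInter_of_isOpen
      · intro t
        exact (Submodule.closed_of_finiteDimensional _).isOpen_compl
      · intro t
        exact GP.dense_compl _ (GP.span_ne_top v t.1 t.2)
    obtain ⟨w, hw1, hw2⟩ := hd.exists_dist_lt (y (Fin.last n)) hε
    refine ⟨Fin.snoc v w, ?_, ?_⟩
    · intro i
      refine Fin.lastCases ?_ (fun j => ?_) i
      · rw [Fin.snoc_last, dist_comm]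
        exact hw2
      · rw [Fin.snoc_castSucc]
        exact hv1 j
    · intro s hs
      classical
      have hcomp : (Fin.snoc v w : Fin (n + 1) → R4) ∘ Fin.castSucc = v := by
        funext j
        exact Fin.snoc_castSucc _ _ _
      let t : Finset (Fin n) := Finset.univ.filter fun j => j.castSucc ∈ s
      have ht : (s.erase (Fin.last n) : Set (Fin (n + 1))) = Fin.castSucc '' (t : Set (Fin n)) := by
        ext i
        refine Fin.lastCases ?_ (fun j => ?_) i
        · simp [t, Fin.castSucc_ne_last]
        · simp [t, Fin.castSucc_ne_last]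
      have hcard : t.card = (s.erase (Fin.last n)).card := by
        have h1 : (s.erase (Fin.last n)) = t.image Fin.castSucc := by
          rw [← Finset.coe_inj, ht, Finset.coe_image]
        rw [h1, Finset.card_image_of_injective _ (Fin.castSucc_injective n)]
      have hind : t.card ≤ 4 → LinearIndepOn ℝ (Fin.snoc v w : Fin (n + 1) → R4)
          (s.erase (Fin.last n) : Set (Fin (n + 1))) := by
        intro h4
        rw [ht]
        apply LinearIndepOn.image_of_comp
        rw [hcomp]
        exact hv2 t h4
      show LinearIndepOn ℝ (Fin.snoc v w : Fin (n + 1) → R4) (s : Set (Fin (n + 1)))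
      by_cases hl : Fin.last n ∈ s
      · have hc3 : t.card ≤ 3 := by
          rw [hcard, Finset.card_erase_of_mem hl]
          omega
        have e : (s : Set (Fin (n + 1))) =
            insert (Fin.last n) (s.erase (Fin.last n) : Set (Fin (n + 1))) := by
          rw [← Finset.coe_insert, Finset.insert_erase hl]
        rw [e, linearIndepOn_insert (by simp)]
        refine ⟨hind (by omega), ?_⟩
        rw [ht, ← image_comp, hcomp, Fin.snoc_last]
        exact mem_iInter.1 hw1 ⟨t, hc3⟩
      · have e : s.erase (Fin.last n) = s := Finset.erase_eq_of_notMem hl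
        rw [e] at hind hcard
        exact hind (by omega)

end CTO
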