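import Pool.Agent.CTO.Stmts

/-!
# MP_6eac38_gt: module SHR (covers and shrinkings)
-/

set_option autoImplicit false

namespace CTO

open Set Topology

namespace SHR

theorem to_shr {X : Type} [TopologicalSpace X] {n : ℕ} (h : CovDimLE X n) : ShrLE X n := by
  intro k U hU hcov
  obtain ⟨V, hVf, hVo, hVc, hVr, hVn⟩ := h (range U) (finite_range U)
    (by rintro _ ⟨i, rfl⟩; exact hU i) (by rw [sUnion_range]; exact hcov)
  have h1 : ∀ v : V, ∃ i, (v : Set X) ⊆ U i := by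
    rintro ⟨v, hv⟩
    obtain ⟨u, ⟨i, rfl⟩, hu⟩ := hVr v hv
    exact ⟨i, hu⟩
  choose idx hidx using h1
  refine ⟨fun i => ⋃ v : V, ⋃ _ : idx v = i, (v : Set X), ?_, ?_, ?_, ?_⟩
  · intro i
    exact isOpen_iUnion fun v => isOpen_iUnion fun _ => hVo v v.2
  · intro i x hx
    obtain ⟨v, hv⟩ := mem_iUnion.1 hx
    obtain ⟨hvi, hxv⟩ := mem_iUnion.1 hv
    rw [← hvi]
    exact hidx v hxv
  · apply eq_univ_of_forall
    intro x
    have hx : x ∈ ⋃₀ V := by rw [hVc]; exact mem_univ x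
    obtain ⟨v, hv, hxv⟩ := mem_sUnion.1 hx
    exact mem_iUnion.2 ⟨idx ⟨v, hv⟩, mem_iUnion.2 ⟨⟨v, hv⟩, mem_iUnion.2 ⟨rfl, hxv⟩⟩⟩
  · intro x
    have hfin : {v | v ∈ V ∧ x ∈ v}.Finite := hVf.subset fun v hv => hv.1
    have him : (Subtype.val '' {v : V | x ∈ (v : Set X)}) = {v | v ∈ V ∧ x ∈ v} := by
      ext v
      constructor
      · rintro ⟨w, hw, rfl⟩
        exact ⟨w.2, hw⟩
      · rintro ⟨hv, hxv⟩
        exact ⟨⟨v, hv⟩, hxv, rfl⟩
    have hfin' : {v : V | x ∈ (v : Set X)}.Finite := by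
      apply Set.Finite.of_finite_image _ Subtype.val_injective.injOn
      rw [him]; exact hfin
    calc {i | x ∈ ⋃ v : V, ⋃ _ : idx v = i, (v : Set X)}.ncard
        ≤ (idx '' {v : V | x ∈ (v : Set X)}).ncard := by
          apply Set.ncard_le_ncard _ (hfin'.image idx)
          intro i hi
          obtain ⟨v, hv⟩ := mem_iUnion.1 hi
          obtain ⟨hvi, hxv⟩ := mem_iUnion.1 hv
          exact ⟨v, hxv, hvi⟩
      _ ≤ {v : V | x ∈ (v : Set X)}.ncard := Set.ncard_image_le hfin'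
      _ = {v | v ∈ V ∧ x ∈ v}.ncard := by
          rw [← him, Set.ncard_image_of_injective _ Subtype.val_injective]
      _ ≤ n + 1 := hVn x

theorem of_shr {X : Type} [TopologicalSpace X] {n : ℕ} (h : ShrLE X n) : CovDimLE X n := by
  intro U hUf hUo hUc
  obtain ⟨k, f, -, hf⟩ := hUf.fin_param
  obtain ⟨V, hVo, hVU, hVc, hVn⟩ := h k f
    (fun i => hUo _ (by rw [← hf]; exact mem_range_self i))
    (by rw [← sUnion_range, hf]; exact hUc)
  refine ⟨range V, finite_range V, ?_, ?_, ?_, ?_⟩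
  · rintro _ ⟨i, rfl⟩; exact hVo i
  · rw [sUnion_range]; exact hVc
  · rintro _ ⟨i, rfl⟩
    exact ⟨f i, by rw [← hf]; exact mem_range_self i, hVU i⟩
  · intro x
    have hfin : {i | x ∈ V i}.Finite := toFinite _
    calc {v | v ∈ range V ∧ x ∈ v}.ncard ≤ (V '' {i | x ∈ V i}).ncard := by
          apply Set.ncard_le_ncard _ (hfin.image V)
          rintro _ ⟨⟨i, rfl⟩, hx⟩
          exact ⟨i, hx, rfl⟩
      _ ≤ {i | x ∈ V i}.ncard := Set.ncard_image_le hfin
      _ ≤ n + 1 := hVn x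

end SHR

theorem t_SHR : S_SHR := fun _ _ _ => ⟨SHR.to_shr, SHR.of_shr⟩

end CTO
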