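import Pool.Agent.CTO.Stmts

/-!
# MP_6eac38_gt: second part, compact ANRs and 3-cells. Definitions and statements

Same conventions as in `Stmts.lean`. `Icc (-1) 1` is the cube in `Fin n → ℝ` (sup norm).
-/

set_option autoImplicit false

namespace CTO

open Set Topology

/-- absolute neighbourhood retract: for every closed embedding into a metric space some open
neighbourhood of the image retracts onto the image -/
def IsANR (X : Type) [TopologicalSpace X] : Prop :=
  ∀ (Y : Type) [MetricSpace Y] (e : X → Y), IsClosedEmbedding e →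
    ∃ (Ω : Set Y) (r : Y → X), IsOpen Ω ∧ range e ⊆ Ω ∧ ContinuousOn r Ω ∧ ∀ x, r (e x) = x

/-- `K` contains a 3-cell: a continuous injective image of the cube -/
def ContainsCell (K : Type) [TopologicalSpace K] : Prop :=
  ∃ e : (Fin 3 → ℝ) → K, ContinuousOn e (Icc (-1) 1) ∧ InjOn e (Icc (-1) 1)

/-- the second main theorem -/
def MainStmt2 : Prop :=
  (∀ (K : Type) [MetricSpace K] [CompactSpace K], CovDimLE K 3 → ¬ CovDimLE K 2 →
    (∃ g : K → R3, Continuous g ∧ ∀ z, (g ⁻¹' {z}).Countable) → ContainsCell K) ∧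
  ∀ (X : Type) [MetricSpace X] [CompactSpace X], IsANR X → Homog X → CovDimLE X 3 →
    ¬ CovDimLE X 2 → (IsMfd3 X ↔ ∃ K : Set X, IsClosed K ∧ ¬ CovDimLE K 2 ∧
      ∃ g : K → R3, Continuous g ∧ ∀ z, (g ⁻¹' {z}).Countable)

/-- 4-space -/
abbrev R4 : Type := Fin 4 → ℝ

/-- the south pole -/
def south : R4 := ![0, 0, 0, -1]

/-- the map that collapses the complement of the open cube of radius `ρ` to the south pole:
`v ↦ (max (0, 1 - a) v / ρ, max (-1, 1 - 2 a))` with `a = ‖v‖ / ρ` -/
noncomputable def col (ρ : ℝ) (v : Fin 3 → ℝ) : R4 :=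
  ![max 0 (1 - ‖v‖ / ρ) * v 0 / ρ, max 0 (1 - ‖v‖ / ρ) * v 1 / ρ, max 0 (1 - ‖v‖ / ρ) * v 2 / ρ,
    max (-1) (1 - 2 * (‖v‖ / ρ))]

/-- SUBD. Closed subspaces. For an open cover `U : Fin k → Set K` of `K` write `U i = K ∩ O i` with `O i` open in `X`; the sets
`O i ∪ Kᶜ` cover `X` if `k > 0` (if `k = 0` then `K` is empty and everything is trivial); intersect a shrinking with `K`. -/
def S_SUBD : Prop := ∀ (X : Type) [TopologicalSpace X] (n : ℕ) (K : Set X), IsClosed K →
  ShrLE X n → ShrLE K n

/-- SUM. Finite sum theorem. By induction on the number of closed sets it is enough: if `A` is closed in `X`, `ShrLE A n`, and `U : Fin k → Set X` is an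
open cover, then there is an open shrinking `V` of `U` that covers `X` with `{i | x ∈ V i}.ncard ≤ n + 1` for `x ∈ A`: let `G i` be
a shrinking in `A` of `A ∩ U i` and `V i = U i \ (A \ G i)` (`A \ G i` is closed in `A`, so closed in `X`). Repeat for `A = F 0, F 1, …`; the
estimate on the former sets is not destroyed by further shrinking. -/
def S_SUM : Prop := ∀ (X : Type) [TopologicalSpace X] (n m : ℕ) (F : Fin m → Set X),
  (∀ j, IsClosed (F j)) → (⋃ j, F j) = univ → (∀ j, ShrLE (F j) n) → ShrLE X n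

/-- MIN. The minimal `K'` in the proof of `Pool/Agent/CTO/OBS1.lean` (COPY that file): all points of `K' \ L` are obstruction points of the
space `K'` (the subtype: take `L' = Subtype.val ⁻¹' L`, `K'' = univ`, `f ∘ Subtype.val`; `Ext` in the subtype and `Ext` in `X` with
the same sets are equivalent, extend by any value outside `K'`). The set `V` is `Subtype.val ⁻¹' Lᶜ`. -/
def S_MIN : Prop := ∀ (X : Type) [MetricSpace X] [CompactSpace X],
  (∃ (L K : Set X) (f : X → R3), IsClosed L ∧ IsClosed K ∧ L ⊆ K ∧ ContinuousOn f L ∧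
    (∀ y ∈ L, f y ≠ 0) ∧ ¬ Ext L K f) →
  ∃ (K : Set X) (V : Set K), IsClosed K ∧ IsOpen V ∧ V.Nonempty ∧ ∀ x ∈ V, ObsAt K x

/-- CELLG. From a generically injective open map to a 3-cell. `g` is injective on `V` (if `x ≠ y` have the same image take disjoint
closed balls in `V` around them; the images of the open balls are open and contain the point, against `GenInj`). `g '' V` is open; let
`z0 = g x0`, `r > 0` such that all `z0 + r • v`, `v` in the cube, are in `g '' V`; `e v` = the point of `V` with `g (e v) = z0 + r • v`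
(coordinates). It is continuous as `g` is open on `V` and injective. -/
def S_CELLG : Prop := ∀ (X : Type) [MetricSpace X] [CompactSpace X] (V : Set X) (g : X → R3),
  IsOpen V → V.Nonempty → ContinuousOn g V → GenInj V g →
  (∀ G ⊆ V, IsOpen G → IsOpen (g '' G)) → ContainsCell X

/-- GP. General position. Induction on `n`: choose the new vector `v n` near `y n` outside of the finitely many proper subspaces spanned by
at most 3 of the former vectors (a finite union of proper closed subspaces has empty interior). -/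
def S_GP : Prop := ∀ (n : ℕ) (y : Fin n → R4) (ε : ℝ), 0 < ε → ∃ v : Fin n → R4,
  (∀ i, dist (v i) (y i) < ε) ∧
  ∀ s : Finset (Fin n), s.card ≤ 4 → LinearIndependent ℝ (fun i : s => v i)

/-- APX4. Maps into 4-space can be approximated by maps without zeros. Let `U` be a finite open cover of `X` by nonempty sets on which `f`
varies by less than `ε / 2`, `V` a shrinking with at most 4 sets at each point (`ShrLE X 3`), `φ` a partition of unity
subordinate to `V`; `y i = f x i` for some `x i ∈ U i` and `v` from S_GP with `ε / 2`; `p x = ∑ φ i x • v i`: at most four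
coefficients are nonzero, not all are zero, so `p x ≠ 0` by linear independence. -/
def S_APX4 : Prop := ∀ (X : Type) [MetricSpace X] [CompactSpace X], ShrLE X 3 →
  ∀ f : X → R4, Continuous f → ∀ ε : ℝ, 0 < ε →
  ∃ p : X → R4, Continuous p ∧ (∀ x, p x ≠ 0) ∧ ∀ x, dist (p x) (f x) < ε

def M_APX4 : Prop := S_GP → S_APX4

/-- EXT4. Maps from closed subsets into 4-space without zeros extend. Tietze: a continuous extension `f'` of `f`; `η` a lower bound of `‖f x‖` on `C`
(compact); `p` from S_APX4 for `f'`, `η / 2`; then as in S_HEP (COPY `Pool/Agent/CTO/HEP.lean` with `R4` instead of `R3`; there `F1 = p`,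
`f0 = f`, `f1 = p`): the segment from `f x` to `p x` does not contain 0 for `x ∈ C`. -/
def S_EXT4 : Prop := ∀ (X : Type) [MetricSpace X] [CompactSpace X], ShrLE X 3 →
  ∀ (C : Set X) (f : X → R4), IsClosed C → ContinuousOn f C → (∀ x ∈ C, f x ≠ 0) →
  ∃ F : X → R4, Continuous F ∧ (∀ x, F x ≠ 0) ∧ EqOn F f C

def M_EXT4 : Prop := S_APX4 → S_EXT4

/-- HOM. Close maps into an ANR are homotopic by small homotopies. Embed `X` isometrically into a normed space
(`kuratowskiEmbedding X : X → ℓ^∞(ℕ)`, isometry, closed as `X` is compact; or `X → C(X, ℝ)`, `x ↦ dist x ·`); let `Ω`, `r` be as in `IsANR`. By compactness of the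
image there is `δ > 0` such that `dist u (e x) < δ` implies `u ∈ Ω` and `dist (r u) x < η` (otherwise a
sequence; or Lebesgue number). Let `ε = δ`: `H (x, t) = r ((1 - t) • e x + t • e (h x))`. -/
def S_HOM : Prop := ∀ (X : Type) [MetricSpace X] [CompactSpace X], IsANR X →
  ∀ η : ℝ, 0 < η → ∃ ε : ℝ, 0 < ε ∧ ∀ h : X → X, Continuous h → (∀ x, dist (h x) x < ε) →
  ∃ H : X × ℝ → X, ContinuousOn H (univ ×ˢ Icc 0 1) ∧ (∀ x, H (x, 0) = x) ∧
    (∀ x, H (x, 1) = h x) ∧ ∀ x, ∀ t ∈ Icc (0 : ℝ) 1, dist (H (x, t)) x < η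

/-- EFF. Weak Effros theorem. Write `N ε` for the set of the homeomorphisms `h` with `dist (h x) x < ε` for all `x`. The space `C(X, X)` is
second countable, so there are countably many homeomorphisms `g n` such that for every `g` there is `n` with
`dist (g.symm x) ((g n).symm x) < ε / 2` for all `x`; then `(g n).symm ∘ g ∈ N (ε / 2)` (put `x = g y`). By homogeneity
`X = ⋃ n, g n '' {h p | h ∈ N (ε / 2)}`; by Baire's theorem the closure of some of these sets has nonempty interior, hence (apply `(g n).symm`) the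
closure of `{h p | h ∈ N (ε / 2)}` has nonempty interior; it contains some `h0 p`, `h0 ∈ N (ε / 2)`; apply `h0.symm`:
`h0.symm ∘ h ∈ N ε`. -/
def S_EFF : Prop := ∀ (X : Type) [MetricSpace X] [CompactSpace X], Homog X →
  ∀ (p : X) (ε : ℝ), 0 < ε →
  p ∈ interior (closure {y | ∃ h : X ≃ₜ X, (∀ x, dist (h x) x < ε) ∧ h p = y})

/-- BRO. Consequence of Brouwer's theorem. Use `Pool.Agent.LIX.K.t_EXT` (file `Pool/Agent/LIX/K_EXT.lean`, import it) for `n = 4`: there is `x` in the cube with
some `|x i| = 1` and `G x = -(c • x)`, `c > 0`. If `x 3 = 1`: with `v = (x 0, x 1, x 2)` the first three coordinates of `col ρ v` are a nonnegative multiple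
of `v`, so `v = 0`, and the last coordinate `1 = -c`: contradiction. If `x 3 = -1`: `-1 = c`. If `|x i| = 1` with
`i < 3`: `0 = -c x i`. -/
def S_BRO : Prop := ∀ ρ : ℝ, 0 < ρ → ¬ ∃ G : (Fin 4 → ℝ) → R4,
  ContinuousOn G (Icc (-1) 1) ∧ (∀ x ∈ Icc (-1 : Fin 4 → ℝ) 1, G x ≠ 0) ∧
  (∀ x ∈ Icc (-1 : Fin 4 → ℝ) 1, x 3 = 1 → G x = col ρ ![x 0, x 1, x 2]) ∧
  (∀ x ∈ Icc (-1 : Fin 4 → ℝ) 1, x 3 = -1 → G x = south) ∧
  ∀ x ∈ Icc (-1 : Fin 4 → ℝ) 1, (|x 0| = 1 ∨ |x 1| = 1 ∨ |x 2| = 1) → G x = south

/-- CELL1. The centre of a 3-cell stays in the image of the cell under maps near the identity. Let `B` be the cube, `S` its boundary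
(`‖v‖ = 1`), `p = e 0`, `η = ` the distance of `p` to the compact set `e '' S` (positive); `ε` from S_HOM for `η`. Let `h` be given with
`p ∉ h '' (e '' B)`; `H` from S_HOM. The set `Y = H '' (e '' S ×ˢ Icc 0 1) ∪ h '' (e '' B)` is compact and does not contain
`p` (for `v ∈ S`: `dist (H (e v, t)) (e v) < η ≤ dist p (e v)`). Choose `0 < ρ < 1` such that `e v ∉ Y` for `‖v‖ ≤ ρ`. On the closed set
`C = e '' B ∪ Y` put `f (e v) = col ρ v` and `f = south` on `Y` (consistent: `col ρ v = south` if `‖v‖ ≥ ρ`): continuous on `C`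
and without zeros. `F` from S_EXT4. `G x = F (H (e (x 0, x 1, x 2), (1 - x 3) / 2))` contradicts S_BRO. -/
def S_CELL1 : Prop := ∀ (X : Type) [MetricSpace X] [CompactSpace X], IsANR X → ShrLE X 3 →
  ∀ e : (Fin 3 → ℝ) → X, ContinuousOn e (Icc (-1) 1) → InjOn e (Icc (-1) 1) →
  ∃ ε : ℝ, 0 < ε ∧ ∀ h : X → X, Continuous h → (∀ x, dist (h x) x < ε) →
    e 0 ∈ h '' (e '' Icc (-1) 1)

def M_CELL1 : Prop := S_EXT4 → S_HOM → S_BRO → S_CELL1

/-- CELL2. With `ε` from S_CELL1: for a homeomorphism `h` with `dist (h x) x < ε` for all `x`, `h.symm` has the same property, so `e 0 ∈ h.symm '' (e '' B)`, i.e.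
`h (e 0) ∈ e '' B`. The set `e '' B` is closed, so by S_EFF it is a neighbourhood of `e 0`. -/
def S_CELL2 : Prop := ∀ (X : Type) [MetricSpace X] [CompactSpace X], IsANR X → Homog X →
  ShrLE X 3 → ∀ e : (Fin 3 → ℝ) → X, ContinuousOn e (Icc (-1) 1) → InjOn e (Icc (-1) 1) →
  e 0 ∈ interior (e '' Icc (-1) 1)

def M_CELL2 : Prop := S_EFF → S_CELL1 → S_CELL2

/-- MAN2. The restriction of `e` to the cube is a homeomorphism onto its (compact) image; the set `O = interior (e '' B) \ e '' S` is open in `X`, contains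
`e 0` (injectivity), and is homeomorphic to an open subset of the open cube, so `e 0` has an open neighbourhood homeomorphic to an open ball, hence
to `R3` (see `Pool/Agent/CTO/MAN.lean` for this and the rest: COPY). Homogeneity. -/
def S_MAN2 : Prop := ∀ (X : Type) [MetricSpace X] [CompactSpace X], Homog X →
  ∀ e : (Fin 3 → ℝ) → X, ContinuousOn e (Icc (-1) 1) → InjOn e (Icc (-1) 1) →
  e 0 ∈ interior (e '' Icc (-1) 1) → IsMfd3 X

/-- EASY2. `X` is the union of finitely many closed sets `F j` contained in charts (see `Pool/Agent/CTO/EASY.lean`); by S_SUM some `F j` does not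
satisfy `ShrLE (F j) 2`; the chart is injective on it. -/
def S_EASY2 : Prop := ∀ (X : Type) [MetricSpace X] [CompactSpace X], IsMfd3 X → ¬ ShrLE X 2 →
  ∃ K : Set X, IsClosed K ∧ ¬ ShrLE K 2 ∧
    ∃ g : K → R3, Continuous g ∧ ∀ z, (g ⁻¹' {z}).Countable

def M_EASY2 : Prop := S_SUM → S_EASY2

/-- CELLS. The first part. S_SHR, S_OBS0, S_MIN give a closed `K' ⊆ K` and `V` open in `K'`; the map `g` on `K'` has countable fibres; S_BAI2
gives an open nonempty `V' ⊆ V` with `GenInj V' g`; `OPEN.step` of `Pool/Agent/CTO/OPEN.lean` (needs `ObsAt` only at the point)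
shows that `g` is open on `V'`; S_CELLG gives a cell in `K'`, hence in `K`. Done by helper26. -/
def S_CELLS : Prop := ∀ (K : Type) [MetricSpace K] [CompactSpace K], ShrLE K 3 → ¬ ShrLE K 2 →
  (∃ g : K → R3, Continuous g ∧ ∀ z, (g ⁻¹' {z}).Countable) → ContainsCell K

def M_CELLS : Prop := S_OBS0 → S_MIN → S_BAI2 → S_ED → S_RAD → S_LEMX → S_SEP → S_CELLG →
  S_CELLS

/-- MAIN2. Done by helper26. -/
def M_MAIN2 : Prop := S_SHR → S_SUBD → S_CELLS → S_CELL2 → S_MAN2 → S_EASY2 → MainStmt2

end CTO
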