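import Pool.Agent.CTO.Defs

/-!
# MP_6eac38_gt: statements of the modules

Module `A` proves `theorem t_A : M_A` (or `t_A : S_A` if there is no `M_A`) in the file
`Pool/Agent/CTO/A.lean`. The complete paper proof is note 2233 (topic zero-campaign).
Maps into `ℝ³ \ {0}` are written as maps into `R3` without zeros (on a closed set).
-/

set_option autoImplicit false

namespace CTO

open Set Topology

/-- SHR. Reindexing. From left to right: apply the definition to `range U`, choose for each `v ∈ V` an index `i v`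
with `v ⊆ U (i v)`; `V' i = ⋃ {v ∈ V | i v = i}`; the set `{i | x ∈ V' i}` is contained in the image of
`{v ∈ V | x ∈ v}` (`Set.ncard_le_ncard`, `Set.ncard_image_le`, everything is finite). From right to left: enumerate `U` (a
finite set) by `Fin k`, the refinement is `range V`. -/
def S_SHR : Prop := ∀ (X : Type) [TopologicalSpace X] (n : ℕ), CovDimLE X n ↔ ShrLE X n

/-- OBS0. Dimension 3 gives a map that cannot be extended. Let `U : Fin k → Set X` be a cover without a shrinking as in
`ShrLE X 2`, `V` a shrinking of it with `{i | x ∈ V i}.ncard ≤ 4`, `φ` a partition of unity subordinate to `V` (functions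
`φ i ≥ 0` with sum 1, `φ i x ≠ 0 → x ∈ V i`). Suppose that all maps extend. For every `s : Finset (Fin k)` with 4 elements let
`K s = {x | ∀ i ∉ s, φ i x = 0}`, `L s = {x ∈ K s | ∃ i ∈ s, φ i x = 0}` (closed). Let `a, b, c, d` be the elements of `s`,
`f = (φ a - 1/4, φ b - 1/4, φ c - 1/4)` on `L s`: it has no zero (otherwise `φ d = 1/4` as well). An extension `F` to `K s`
without zeros, with `F4 = - F1 - F2 - F3` and `M = max (-F1) (-F2) (-F3) (-F4) > 0`, gives `ψ j = 1/4 + F j / (4 M)`, `j = a, b, c, d`:
continuous on `K s`, `≥ 0`, with sum 1, one of them is zero at every point, and on `L s` it is `φ j` (there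
`M = 1/4`, as the minimum of the `φ j` is 0). Define `φ' = ψ` on `K s`, `φ' = φ` on
`X3 = {x | {i | φ i x ≠ 0}.ncard ≤ 3}` (closed); these finitely many closed sets cover `X`, and on the
intersections (contained in `L s`) the definitions agree, so `φ'` is continuous; `{x | φ' i x > 0} ⊆ V i` is a shrinking with
at most 3 sets at each point: contradiction. -/
def S_OBS0 : Prop := ∀ (X : Type) [MetricSpace X] [CompactSpace X], ShrLE X 3 → ¬ ShrLE X 2 →
  ∃ (L K : Set X) (f : X → R3), IsClosed L ∧ IsClosed K ∧ L ⊆ K ∧ ContinuousOn f L ∧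
    (∀ y ∈ L, f y ≠ 0) ∧ ¬ Ext L K f

/-- OBS1. A minimal `K`. Zorn (`zorn_superset` or similar) for the closed sets `K' ⊆ K` with `L ⊆ K'`, `¬ Ext L K' f`. The intersection `K'`
of a nonempty chain: if `F` is an extension of `f` to `K'` without zeros, extend `F` by Tietze's theorem from the closed set `K'` to a
continuous map `F' : X → R3`; `{F' ≠ 0}` is open and contains `K'`, so (compactness, the chain is directed) it contains a member of
the chain: contradiction. Let `K'` be minimal. `K' ≠ L` as `f` itself extends to `L`; let `x ∈ K' \ L`. For `W` open with `x ∈ W` the set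
`(K' \ W) ∪ L` is closed and a proper subset of `K'`. -/
def S_OBS1 : Prop := ∀ (X : Type) [MetricSpace X] [CompactSpace X],
  (∃ (L K : Set X) (f : X → R3), IsClosed L ∧ IsClosed K ∧ L ⊆ K ∧ ContinuousOn f L ∧
    (∀ y ∈ L, f y ≠ 0) ∧ ¬ Ext L K f) → ∃ x, ObsAt X x

/-- OBSH. Transport by the homeomorphism `h` with `h x = y`: images of `L`, `K` and `f ∘ h.symm`. -/
def S_OBSH : Prop := ∀ (X : Type) [TopologicalSpace X], Homog X → ∀ x, ObsAt X x →
  ∀ y, ObsAt X y

/-- BAI1. Let `B i` be a countable base of the topology, only those members with `closure (B i) ⊆ U` are used. Let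
`T i = {z | there are two different points of closure (B i) in g ⁻¹' {z}}` and `D i = (g '' closure (B i))ᶜ ∪ interior (T i)`:
open (`g '' closure (B i)` is compact). It is dense: let `O` be open and nonempty. If `O` is not contained in `g '' closure (B i)`, fine.
Otherwise the open set `V = B i ∩ g ⁻¹' O` is nonempty (a point of `closure (B i)` over `O` has a neighbourhood in `U` that
is mapped to `O`, it meets `B i`). As `¬ GenInj V g` there are disjoint compact `C0, C1 ⊆ V` and a nonempty open
set `O' ⊆ g '' C0 ∩ g '' C1 ⊆ O`, and `O' ⊆ T i`. If `z` is in all `D i`, the fibre `U ∩ g ⁻¹' {z}` has no isolated point `x`: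
take `i` with `x ∈ B i`, `closure (B i) ⊆ W ∩ U`; then `z ∈ g '' closure (B i)`, so `z ∈ T i`, a contradiction. So `Iso U g` is
contained in the meager set `⋃ (D i)ᶜ`. (If `U` is empty everything is trivial.) -/
def S_BAI1 : Prop := ∀ (X : Type) [MetricSpace X] [CompactSpace X] (U : Set X) (g : X → R3),
  IsOpen U → ContinuousOn g U →
  (∀ V ⊆ U, IsOpen V → V.Nonempty → ¬ GenInj V g) → IsMeagre (Iso U g)

/-- BAI2. If no `V` exists, `Iso U g` is meager (S_BAI1). Every nonempty fibre `Φ = U ∩ g ⁻¹' {z}` is countable and has an isolated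
point: `Φ` is closed in the locally compact space `U`, so it is a Baire space, and the countably many closed subsets `{x}`, `x ∈ Φ`, cover
it, so one of them is open in `Φ`. So `g '' U ⊆ Iso U g` is meager. Let `N ⊆ U` be a closed ball with nonempty
interior `V` (open ball); `g '' N` is compact and meager, so it has empty interior (Baire in `R3`) and `GenInj V g` is trivial. -/
def S_BAI2 : Prop := ∀ (X : Type) [MetricSpace X] [CompactSpace X] (U : Set X) (g : X → R3),
  IsOpen U → U.Nonempty → ContinuousOn g U → (∀ z, (U ∩ g ⁻¹' {z}).Countable) →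
  ∃ V ⊆ U, IsOpen V ∧ V.Nonempty ∧ GenInj V g

def M_BAI2 : Prop := S_BAI1 → S_BAI2

/-- ED. Large fibres. Closed: the set is the image of the compact set of pairs `(a, b) ∈ N × N` with `g a = g b`,
`δ ≤ dist a b`. Cover `N` by finitely many compact sets `B 1, …, B m ⊆ N` of diameter `< δ / 3`; the set is contained in the
finite union of the sets `g '' B i ∩ g '' B j` with `B i`, `B j` disjoint; each is closed with empty interior by
`GenInj`; a finite union of such sets has empty interior. -/
def S_ED : Prop := ∀ (X : Type) [MetricSpace X] (V N : Set X) (g : X → R3), IsCompact N →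
  N ⊆ V → ContinuousOn g N → GenInj V g → ∀ δ : ℝ, 0 < δ →
  IsClosed {z : R3 | ∃ a ∈ N, ∃ b ∈ N, g a = z ∧ g b = z ∧ δ ≤ dist a b} ∧
  interior {z : R3 | ∃ a ∈ N, ∃ b ∈ N, g a = z ∧ g b = z ∧ δ ≤ dist a b} = ∅

/-- RAD. Generic radius. For a nonempty open ball `C` of a countable base of `S2` with compact closure (or for a countable
family of closed sets with nonempty interior such that every nonempty open set contains one of them) the set
`{r ∈ (a, b) | ∀ v ∈ C, c + r • v ∈ E m}` is closed in `(a, b)` and has no interior: if it contained an interval `I`, then `E m` would contain the nonempty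
open set of the points `c + r • v`, `r ∈ I`, `v ∈ interior C` (`x ↦ (‖x - c‖, (x - c)/‖x - c‖)` is continuous off `c`; note `r > a ≥ 0`). By Baire's theorem in the interval some `r`
is in none of these countably many sets. -/
def S_RAD : Prop := ∀ E : ℕ → Set R3, (∀ m, IsClosed (E m)) → (∀ m, interior (E m) = ∅) →
  ∀ (c : R3) (a b : ℝ), 0 ≤ a → a < b →
  ∃ r : ℝ, a < r ∧ r < b ∧ ∀ m, interior {v : S2 | c + r • (v : R3) ∈ E m} = ∅

/-- GRID. The square grid. Let `s = ε / 4` (side of the squares). The set `E` is closed and nowhere dense, so by Baire's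
theorem there is `t` such that no vertex `t + s (i, j)`, `i, j ∈ ℤ`, is in `E` (the union of the countably many translates
`E - s (i, j)` is not everything). `E` is compact, so there is `0 < τ < s / 4` such that no point of `E` has both coordinates
at distance `≤ τ` from those of a vertex. The sets are the open squares
`{p | i s - τ < p 0 - t 0 < (i + 1) s + τ, j s - τ < p 1 - t 1 < (j + 1) s + τ}`, finitely many of them cover `E`. For `p ∈ E` one of
the coordinates, say the first one, is not `τ`-close to a grid line: then `i` is determined; for `j` there are at most two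
possibilities. -/
def S_GRID : Prop := ∀ E : Set (EuclideanSpace ℝ (Fin 2)), IsCompact E → interior E = ∅ →
  ∀ ε : ℝ, 0 < ε → ∃ (n : ℕ) (R : Fin n → Set (EuclideanSpace ℝ (Fin 2))),
    (∀ i, IsOpen (R i)) ∧ (∀ i, ∀ p ∈ R i, ∀ q ∈ R i, dist p q < ε) ∧ E ⊆ ⋃ i, R i ∧
    ∀ p ∈ E, {i | p ∈ R i}.ncard ≤ 2

/-- DIM1. A closed nowhere dense subset of the sphere has dimension at most 1. Let `N ∉ E` (`E ≠ univ`); `h = stereographic' 2 N`
(source `{N}ᶜ`, target `univ`; `Fact (finrank ℝ R3 = 2 + 1)`). `h '' E` is compact with empty interior. Lebesgue number `ε` of the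
compact set `h '' E` for the open cover by the sets `h '' (O i \ {N})`; apply S_GRID; drop the `R j` that do not meet `h '' E`; each
remaining `R j` is contained in `h '' (O i \ {N})` for some `i = i j`. Let `G i` be the union of the `h ⁻¹ (R j)` with
`i j = i` (open) and `O' i = O i \ (E \ G i) = (O i \ E) ∪ (O i ∩ G i)`: open, since `E \ G i` is closed. -/
def S_DIM1 : Prop := ∀ E : Set S2, IsClosed E → interior E = ∅ →
  ∀ (k : ℕ) (O : Fin k → Set S2), (∀ i, IsOpen (O i)) → (⋃ i, O i) = univ →
  ∃ O' : Fin k → Set S2, (∀ i, IsOpen (O' i)) ∧ (∀ i, O' i ⊆ O i) ∧ (⋃ i, O' i) = univ ∧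
    ∀ v ∈ E, {i | v ∈ O' i}.ncard ≤ 2

def M_DIM1 : Prop := S_GRID → S_DIM1

/-- HEP. Homotopy extension for a linear homotopy. Let `D : P → R3` be a continuous extension of `f0 - f1` on `Q` (Tietze,
`ContinuousMap.exists_restrict_eq` for finite dimensional spaces). The set `B = {x | ∃ s ∈ [0, 1], F1 x + s • D x = 0}` is compact
(projection of a compact set) and disjoint from `Q`. Urysohn: `λ : P → [0, 1]` continuous, `1` on `Q`, `0` on `B`;
`F0 = F1 + λ • D`. -/
def S_HEP : Prop := ∀ (P : Type) [MetricSpace P] [CompactSpace P] (Q : Set P)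
  (f0 f1 F1 : P → R3), IsClosed Q → ContinuousOn f0 Q → ContinuousOn f1 Q →
  (∀ x ∈ Q, ∀ t : ℝ, 0 ≤ t → t ≤ 1 → (1 - t) • f0 x + t • f1 x ≠ 0) →
  Continuous F1 → (∀ x, F1 x ≠ 0) → EqOn F1 f1 Q →
  ∃ F0 : P → R3, Continuous F0 ∧ (∀ x, F0 x ≠ 0) ∧ EqOn F0 f0 Q

/-- POL. Approximation by maps without zeros. Stone - Weierstrass: the real functions on `S2` that are restrictions of `C^1` functions
on `R3` form a subalgebra of `C(S2, ℝ)` which separates the points, so it is dense; hence there is a `C^1` map
`p : R3 → R3` with `‖p v - f v‖ < ε / 2` for `v ∈ S2`. `S2` is the image of the `C^1` map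
`c (s, t) = (cos s cos t, sin s cos t, sin t)` from `ℝ²`, and the complement of the range of the `C^1` map `p ∘ c : ℝ² → R3` is
dense (`ContDiff.dense_compl_range_of_finrank_lt_finrank`): take `w` in it with `‖w‖ < ε / 2`; the map is
`v ↦ p v - w`. -/
def S_POL : Prop := ∀ f : S2 → R3, Continuous f → ∀ ε : ℝ, 0 < ε →
  ∃ p : S2 → R3, Continuous p ∧ (∀ v, p v ≠ 0) ∧ ∀ v, dist (p v) (f v) < ε

/-- SPH. Maps from a closed subset of `S2` extend. Tietze: a continuous extension `f' : S2 → R3` of `f`. Let `η > 0` be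
smaller than `‖f v‖` for all `v ∈ C` (compact), `p` from S_POL for `f'` and `η`; on `C` the segment from `f v` to `p v` does
not contain 0; S_HEP with `P = S2`, `Q = C`. -/
def S_SPH : Prop := ∀ (C : Set S2) (f : S2 → R3), IsClosed C → ContinuousOn f C →
  (∀ v ∈ C, f v ≠ 0) → ∃ F : S2 → R3, Continuous F ∧ (∀ v, F v ≠ 0) ∧ EqOn F f C

def M_SPH : Prop := S_HEP → S_POL → S_SPH

/-- CLOP. Locally constant approximation over a neighbourhood of `v`. The fibre `Φ = Q ∩ b ⁻¹' {v}` is compact and totally
disconnected, so its clopen subsets are a base; so there are finitely many disjoint compact sets `Φ 1, …, Φ m` with union `Φ` and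
`‖f x - f y‖ < η / 2` for `x, y ∈ Φ j`. Choose `w j ∈ f '' Φ j`, and disjoint open sets `U j ⊇ Φ j` of `P` such that
`‖f x - w j‖ < η` for `x ∈ Q ∩ U j`. The set `Q \ ⋃ U j` is compact, its image under `b` is closed and does not contain `v`: `N` is the
complement of this image. `w = w j` on `U j`, `0` elsewhere. -/
def S_CLOP : Prop := ∀ (P : Type) [MetricSpace P] [CompactSpace P] (Q : Set P) (b : P → S2)
  (f : P → R3) (v : S2), IsClosed Q → Continuous b → IsTotallyDisconnected (Q ∩ b ⁻¹' {v}) →
  ContinuousOn f Q → ∀ η : ℝ, 0 < η → ∃ N : Set S2, IsOpen N ∧ v ∈ N ∧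
  ∃ w : P → R3, (range w).Finite ∧ ContinuousOn w (Q ∩ b ⁻¹' N) ∧
    ∀ x ∈ Q ∩ b ⁻¹' N, dist (w x) (f x) < η

/-- FACT. The map factors through `b` up to homotopy (step 3 of the note). Done by helper26. -/
def S_FACT : Prop := ∀ (P : Type) [MetricSpace P] [CompactSpace P] (Q : Set P) (b : P → S2)
  (f : P → R3), IsClosed Q → Continuous b →
  (∀ v : S2, IsTotallyDisconnected (Q ∩ b ⁻¹' {v})) →
  (∀ δ : ℝ, 0 < δ →
    interior {v : S2 | ∃ x ∈ Q, ∃ y ∈ Q, b x = v ∧ b y = v ∧ δ ≤ dist x y} = ∅) →
  ContinuousOn f Q → (∀ x ∈ Q, f x ≠ 0) →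
  ∃ (f1 : P → R3) (G : S2 → R3), ContinuousOn f1 Q ∧ ContinuousOn G (b '' Q) ∧
    (∀ v ∈ b '' Q, G v ≠ 0) ∧
    (∀ x ∈ Q, ∀ t : ℝ, 0 ≤ t → t ≤ 1 → (1 - t) • f x + t • f1 x ≠ 0) ∧
    (∀ x ∈ Q, ∀ t : ℝ, 0 ≤ t → t ≤ 1 → (1 - t) • f1 x + t • G (b x) ≠ 0)

def M_FACT : Prop := S_DIM1 → S_CLOP → S_FACT

/-- LEMX. The extension lemma. S_FACT; S_SPH for `G` on the closed set `b '' Q` gives `G'`; `G' ∘ b` extends
`G ∘ b` from `Q` to `P`; S_HEP twice: first `f1`, then `f`. -/
def S_LEMX : Prop := ∀ (P : Type) [MetricSpace P] [CompactSpace P] (Q : Set P) (b : P → S2)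
  (f : P → R3), IsClosed Q → Continuous b →
  (∀ v : S2, IsTotallyDisconnected (Q ∩ b ⁻¹' {v})) →
  (∀ δ : ℝ, 0 < δ →
    interior {v : S2 | ∃ x ∈ Q, ∃ y ∈ Q, b x = v ∧ b y = v ∧ δ ≤ dist x y} = ∅) →
  ContinuousOn f Q → (∀ x ∈ Q, f x ≠ 0) →
  ∃ F : P → R3, Continuous F ∧ (∀ x, F x ≠ 0) ∧ EqOn F f Q

def M_LEMX : Prop := S_HEP → S_SPH → S_FACT → S_LEMX

/-- SEP. Small neighbourhoods whose boundary misses the fibre. Let `B` be a closed ball around `x` contained in `G` and
`Φ = B ∩ g ⁻¹' {g x}`: compact and totally disconnected. There is a clopen subset `Φ1` of `Φ` with `x ∈ Φ1 ⊆` interior of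
`B`. `Φ1` and `Φ \ Φ1` are compact and disjoint: there is an open `G1 ⊇ Φ1` with `closure G1 ⊆` (open) ball, and `closure G1` disjoint from
`Φ \ Φ1`. The compact set `closure G1 \ G1` does not meet the fibre, so `dist (g y) (g x)` has a positive minimum
there. -/
def S_SEP : Prop := ∀ (X : Type) [MetricSpace X] [CompactSpace X] (G : Set X) (g : X → R3)
  (x : X), IsOpen G → x ∈ G → ContinuousOn g G → IsTotallyDisconnected (G ∩ g ⁻¹' {g x}) →
  ∃ G1 : Set X, IsOpen G1 ∧ x ∈ G1 ∧ closure G1 ⊆ G ∧
    ∃ r : ℝ, 0 < r ∧ ∀ y ∈ closure G1, y ∉ G1 → r ≤ dist (g y) (g x)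

/-- OPEN. The map is open (step 4 of the note). It is enough: for `x1 ∈ G ⊆ V`, `G` open, `z = g x1` is in the interior of `g '' G`.
Let `L, K, f` be from `ObsAt X x1`. Shrink `G` (intersect with the complement of `L`). Take `G1`, `r0` from S_SEP. If `z` is not
an interior point there is `z' ∉ g '' G` with `dist z' z < r0 / 3`. Let `E m = {w | ∃ a b ∈ closure G1, g a = w = g b, 1/(m+1) ≤ dist a b}`
(S_ED with `N = closure G1`); S_RAD for the centre `z'` and the interval `(r0/3, 2 r0/3)` gives `r`.
`W = {y ∈ G1 | dist (g y) z' < r}` is open and contains `x1`; `PK = {y ∈ K ∩ closure G1 | dist (g y) z' ≤ r}` is compact and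
contained in `G1` (on `closure G1 \ G1` the distance to `z'` is `≥ r0 - r0/3 > r`); `QK = {y ∈ PK | dist (g y) z' = r}`.
`F` extends `f` to `(K \ W) ∪ L = K \ W` without zeros. S_LEMX for `P = PK` (subtype), `Q = QK`, `b y = (g y - z') / ‖g y - z'‖`
(`g y ≠ z'`), `F` restricted to `QK`: the fibres of `b` on `QK` are in fibres of `g`, and if `b x = v = b y` with
`1/(m+1) ≤ δ ≤ dist x y` then `z' + r • v ∈ E m`. The extension to `PK` and `F` on `K \ W` agree on `(K \ W) ∩ PK = QK`, both sets
are closed and their union is `K`: so `Ext L K f`, a contradiction. -/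
def S_OPEN : Prop := ∀ (X : Type) [MetricSpace X] [CompactSpace X], (∀ x, ObsAt X x) →
  ∀ (V : Set X) (g : X → R3), IsOpen V → ContinuousOn g V →
  (∀ z, IsTotallyDisconnected (V ∩ g ⁻¹' {z})) → GenInj V g →
  ∀ G ⊆ V, IsOpen G → IsOpen (g '' G)

def M_OPEN : Prop := S_ED → S_RAD → S_LEMX → S_SEP → S_OPEN

/-- MAN. `g` is injective on `V`: if `x ≠ y` have the same image `z` take disjoint closed balls `B, B' ⊆ V` around them; the images of
the open balls are open and contain `z`, so `g '' B ∩ g '' B'` has nonempty interior, against `GenInj`. So `g` is a homeomorphism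
from `V` onto an open subset of `R3` (`IsOpenEmbedding` of the restriction). By homogeneity every point of `X` has an open
neighbourhood homeomorphic to an open ball of `R3`, and an open ball is homeomorphic to `R3` (`Homeomorph.unitBall`, or
`OpenPartialHomeomorph.univBall`). `X` is Hausdorff and second countable as a compact metric space. -/
def S_MAN : Prop := ∀ (X : Type) [MetricSpace X] [CompactSpace X], Homog X →
  ∀ (V : Set X) (g : X → R3), IsOpen V → V.Nonempty → ContinuousOn g V → GenInj V g →
  (∀ G ⊆ V, IsOpen G → IsOpen (g '' G)) → IsMfd3 X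

/-- EASY. Manifolds have such maps. `CountMaps`: by compactness `X` is covered by finitely many closed sets contained in charts (closed balls
`closedBall x ε ⊆ V x`; or by `SecondCountableTopology`), with the chart (extended by `0` outside) as `g`: the fibres have
at most one point. `LightMap`: `U` a chart (nonempty), `g` the chart, `Iso U g = univ` is not meager in `R3`. -/
def S_EASY : Prop := ∀ (X : Type) [MetricSpace X] [CompactSpace X], IsMfd3 X → Nonempty X →
  CountMaps X ∧ LightMap X

/-- MAIN. `X` is nonempty (otherwise `CovDimLE X 2`). (b) implies (a): by Baire's theorem some `F i` has nonempty interior `U`; S_BAI2 gives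
`V`; countable sets are totally disconnected; S_OPEN, S_MAN. (c) implies (a): S_BAI1 gives `V`. -/
def M_MAIN : Prop := S_SHR → S_OBS0 → S_OBS1 → S_OBSH → S_BAI1 → S_BAI2 → S_OPEN → S_MAN →
  S_EASY → MainStmt

end CTO
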