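import Pool.Agent.CTO.Stmts

set_option autoImplicit false

namespace CTO

open Set Topology

namespace BAI1

/-- points over which the fibre in the closure of `b` has two elements -/
def T {X : Type} [TopologicalSpace X] (g : X → R3) (b : Set X) : Set R3 :=
  {z | ∃ x ∈ closure b, ∃ y ∈ closure b, x ≠ y ∧ g x = z ∧ g y = z}

theorem open_dense (X : Type) [MetricSpace X] [CompactSpace X] (U : Set X) (g : X → R3)
    (hU : IsOpen U) (hg : ContinuousOn g U)
    (hV : ∀ V ⊆ U, IsOpen V → V.Nonempty → ¬ GenInj V g) (b : Set X) (hb : IsOpen b)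
    (hbU : closure b ⊆ U) :
    IsOpen ((g '' closure b)ᶜ ∪ interior (T g b)) ∧ Dense ((g '' closure b)ᶜ ∪ interior (T g b)) := by
  have hK : IsCompact (closure b) := isClosed_closure.isCompact
  have hgK : IsCompact (g '' closure b) := hK.image_of_continuousOn (hg.mono hbU)
  refine ⟨hgK.isClosed.isOpen_compl.union isOpen_interior, ?_⟩
  rw [dense_iff_inter_open]
  intro O hO hOne
  by_cases hsub : O ⊆ g '' closure b
  · have hbU' : b ⊆ U := subset_closure.trans hbU
    have hVo : IsOpen (b ∩ g ⁻¹' O) := (hg.mono hbU').isOpen_inter_preimage hb hO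
    have hVne : (b ∩ g ⁻¹' O).Nonempty := by
      obtain ⟨z, hz⟩ := hOne
      obtain ⟨x, hx, hxz⟩ := hsub hz
      have hcx : ContinuousAt g x := hg.continuousAt (hU.mem_nhds (hbU hx))
      have h1 : g ⁻¹' O ∈ 𝓝 x := hcx (hO.mem_nhds (by rw [hxz]; exact hz))
      obtain ⟨y, hy1, hy2⟩ := mem_closure_iff_nhds.1 hx _ h1
      exact ⟨y, hy2, hy1⟩
    have h2 := hV (b ∩ g ⁻¹' O) (inter_subset_left.trans hbU') hVo hVne
    unfold GenInj at h2
    push Not at h2
    obtain ⟨C0, C1, _, _, hC0, hC1, hd, hne⟩ := h2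
    obtain ⟨z, hz⟩ := hne
    have hT : interior (g '' C0 ∩ g '' C1) ⊆ interior (T g b) := by
      refine interior_mono ?_
      rintro w ⟨⟨x, hx, hxw⟩, y, hy, hyw⟩
      exact ⟨x, subset_closure (hC0 hx).1, y, subset_closure (hC1 hy).1,
        fun e => Set.disjoint_left.1 hd hx (e ▸ hy), hxw, hyw⟩
    refine ⟨z, ?_, Or.inr (hT hz)⟩
    obtain ⟨⟨x, hx, hxz⟩, _⟩ := interior_subset hz
    rw [← hxz]
    exact (hC0 hx).2
  · obtain ⟨z, hz, hz'⟩ := not_subset.1 hsub
    exact ⟨z, hz, Or.inl hz'⟩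

end BAI1

open BAI1 in
theorem t_BAI1 : S_BAI1 := by
  intro X _ _ U g hU hg hV
  set B : Set (Set X) := {b ∈ TopologicalSpace.countableBasis X | closure b ⊆ U} with hB
  have hBc : B.Countable := (TopologicalSpace.countable_countableBasis X).mono fun b hb => hb.1
  have h1 : (⋂ b ∈ B, ((g '' closure b)ᶜ ∪ interior (T g b))) ∈ residual R3 := by
    rw [countable_bInter_mem hBc]
    intro b hb
    obtain ⟨h2, h3⟩ := open_dense X U g hU hg hV b
      (TopologicalSpace.isOpen_of_mem_countableBasis hb.1) hb.2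
    exact residual_of_dense_open h2 h3
  show (Iso U g)ᶜ ∈ residual R3
  refine Filter.mem_of_superset h1 ?_
  intro z hz hiso
  obtain ⟨x, W, hW, hWx⟩ := hiso
  have hx : x ∈ W ∩ (U ∩ g ⁻¹' {z}) := by
    rw [hWx]
    rfl
  obtain ⟨b, hb, hxb, hbs⟩ := (TopologicalSpace.isBasis_countableBasis X).exists_closure_subset
    ((hW.inter hU).mem_nhds ⟨hx.1, hx.2.1⟩)
  have hbB : b ∈ B := ⟨hb, fun y hy => (hbs hy).2⟩
  have h4 := mem_iInter₂.1 hz b hbB
  rcases h4 with h4 | h4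
  · exact h4 ⟨x, subset_closure hxb, hx.2.2⟩
  · obtain ⟨x', hx', y', hy', hne, h5, h6⟩ := interior_subset h4
    have h7 : x' ∈ W ∩ (U ∩ g ⁻¹' {z}) := ⟨(hbs hx').1, (hbs hx').2, h5⟩
    have h8 : y' ∈ W ∩ (U ∩ g ⁻¹' {z}) := ⟨(hbs hy').1, (hbs hy').2, h6⟩
    rw [hWx] at h7 h8
    exact hne ((mem_singleton_iff.1 h7).trans (mem_singleton_iff.1 h8).symm)

end CTO
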