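import Pool.Agent.CTO.Stmts

/-!
# Module BAI2
-/

set_option autoImplicit false

namespace CTO

open Set Topology

namespace BAI2

theorem isolated {X : Type} [MetricSpace X] [CompactSpace X] (U : Set X) (g : X → R3)
    (hU : IsOpen U) (hg : ContinuousOn g U) (z : R3) (hc : (U ∩ g ⁻¹' {z}).Countable)
    (hne : (U ∩ g ⁻¹' {z}).Nonempty) : z ∈ Iso U g := by
  obtain ⟨u, hu1, hu2⟩ := continuousOn_iff_isClosed.mp hg {z} isClosed_singleton
  have hlc : IsLocallyClosed (U ∩ g ⁻¹' {z}) := by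
    rw [inter_comm, hu2]
    exact hu1.isLocallyClosed.inter hU.isLocallyClosed
  have : LocallyCompactSpace (U ∩ g ⁻¹' {z} : Set X) := hlc.locallyCompactSpace
  have : Countable (U ∩ g ⁻¹' {z} : Set X) := hc.to_subtype
  have : Nonempty (U ∩ g ⁻¹' {z} : Set X) := hne.to_subtype
  obtain ⟨x, hx⟩ := nonempty_interior_of_iUnion_of_closed
    (f := fun x : (U ∩ g ⁻¹' {z} : Set X) => ({x} : Set (U ∩ g ⁻¹' {z} : Set X)))
    (fun x => isClosed_singleton) (iUnion_of_singleton _)
  have hopen : IsOpen ({x} : Set (U ∩ g ⁻¹' {z} : Set X)) := by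
    have h1 : interior ({x} : Set (U ∩ g ⁻¹' {z} : Set X)) = {x} := by
      apply Subset.antisymm interior_subset
      obtain ⟨y, hy⟩ := hx
      have h2 := interior_subset hy
      rw [mem_singleton_iff] at h2
      subst h2
      exact singleton_subset_iff.mpr hy
    rw [← h1]
    exact isOpen_interior
  obtain ⟨W, hW1, hW2⟩ := isOpen_induced_iff.mp hopen
  refine ⟨x.1, W, hW1, ?_⟩
  ext y
  constructor
  · rintro ⟨hy1, hy2⟩
    have h3 : (⟨y, hy2⟩ : (U ∩ g ⁻¹' {z} : Set X)) ∈ Subtype.val ⁻¹' W := hy1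
    rw [hW2, mem_singleton_iff] at h3
    rw [mem_singleton_iff, ← h3]
  · intro hy
    rw [mem_singleton_iff] at hy
    subst hy
    refine ⟨?_, x.2⟩
    have h3 : x ∈ ({x} : Set (U ∩ g ⁻¹' {z} : Set X)) := rfl
    rw [← hW2] at h3
    exact h3

end BAI2

theorem t_BAI2 : M_BAI2 := by
  intro h1 X _ _ U g hU hUne hg hc
  by_contra hno
  push Not at hno
  have hm : IsMeagre (Iso U g) := h1 X U g hU hg fun V hV hVo hVne => hno V hV hVo hVne
  have hsub : g '' U ⊆ Iso U g := by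
    rintro z ⟨x, hx, rfl⟩
    exact BAI2.isolated U g hU hg (g x) (hc (g x)) ⟨x, hx, rfl⟩
  have hm2 : IsMeagre (g '' U) := hm.mono hsub
  refine hno U Subset.rfl hU hUne ?_
  intro C0 C1 _ _ h0 _ _
  have hm3 : IsMeagre (g '' C0 ∩ g '' C1) :=
    hm2.mono (inter_subset_left.trans (image_mono h0))
  rw [interior_eq_empty_iff_dense_compl]
  exact dense_of_mem_residual hm3

end CTO
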