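import Pool.Agent.CTO.Stmts2
import Pool.Agent.LIX.K_EXT

/-!
MP_6eac38_gt, module BRO: the collapsing map has no nullhomotopy (Brouwer).
-/

set_option autoImplicit false

namespace CTO

open Set Topology

theorem t_BRO : S_BRO := by
  rintro ρ hρ ⟨G, hG, h0, htop, hbot, hside⟩
  obtain ⟨x, hx, ⟨i, hi⟩, c, hc, hGx⟩ := Pool.Agent.LIX.K.t_EXT 4 G hG h0
  have hval : ∀ j, G x j = -(c * x j) := fun j => by rw [hGx]; rfl
  -- the sides
  have hS : ∀ j : Fin 4, j ≠ 3 → |x j| = 1 → G x = south → False := by
    intro j hj h1 h2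
    have h3 := hval j
    rw [h2] at h3
    have h4 : south j = 0 := by
      fin_cases j
      · rfl
      · rfl
      · rfl
      · exact absurd rfl hj
    rw [h4] at h3
    have h5 : x j = 0 := by
      have : c * x j = 0 := by linarith
      exact (mul_eq_zero.1 this).resolve_left hc.ne'
    rw [h5, abs_zero] at h1
    exact zero_ne_one h1
  have h3cases : x 3 = 1 ∨ x 3 = -1 ∨ (|x 0| = 1 ∨ |x 1| = 1 ∨ |x 2| = 1) := by
    fin_cases i
    · exact Or.inr (Or.inr (Or.inl hi))
    · exact Or.inr (Or.inr (Or.inr (Or.inl hi)))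
    · exact Or.inr (Or.inr (Or.inr (Or.inr hi)))
    · rcases eq_or_eq_neg_of_abs_eq hi with h | h
      · exact Or.inl h
      · exact Or.inr (Or.inl h)
  rcases h3cases with h | h | h
  · have hc1 := htop x hx h
    set v : Fin 3 → ℝ := ![x 0, x 1, x 2] with hv
    have hk : 0 ≤ max 0 (1 - ‖v‖ / ρ) := le_max_left _ _
    have hz : ∀ y : ℝ, max 0 (1 - ‖v‖ / ρ) * y / ρ = -(c * y) → y = 0 := by
      intro y hy
      have h1 : (max 0 (1 - ‖v‖ / ρ) / ρ + c) * y = 0 := by
        have e : max 0 (1 - ‖v‖ / ρ) * y / ρ = max 0 (1 - ‖v‖ / ρ) / ρ * y := by ring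
        rw [e] at hy
        linarith
      have h2 : 0 < max 0 (1 - ‖v‖ / ρ) / ρ + c := by positivity
      exact (mul_eq_zero.1 h1).resolve_left h2.ne'
    have e0 : x 0 = 0 := by
      apply hz
      have := hval 0
      rw [hc1] at this
      exact this
    have e1 : x 1 = 0 := by
      apply hz
      have := hval 1
      rw [hc1] at this
      exact this
    have e2 : x 2 = 0 := by
      apply hz
      have := hval 2
      rw [hc1] at this
      exact this
    have hv0 : v = 0 := by
      rw [hv, e0, e1, e2]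
      ext j
      fin_cases j <;> rfl
    have h4 := hval 3
    rw [hc1, h] at h4
    have h5 : col ρ v 3 = max (-1) (1 - 2 * (‖v‖ / ρ)) := rfl
    rw [h5, hv0, norm_zero, zero_div, mul_zero, sub_zero, max_eq_right (by norm_num)] at h4
    linarith
  · have h1 := hbot x hx h
    have h4 := hval 3
    have h5 : south 3 = -1 := rfl
    rw [h1, h, h5] at h4
    linarith
  · have h1 := hside x hx h
    rcases h with h | h | h
    · exact hS 0 (by decide) h h1
    · exact hS 1 (by decide) h h1
    · exact hS 2 (by decide) h h1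

end CTO
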