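import Pool.Agent.CTO.Stmts2

/-!
# MP_6eac38_gt, module CELL1: the centre of a 3-cell stays in the image of the cell
-/

set_option autoImplicit false

namespace CTO

open Set Topology

namespace CELL1

theorem norm_le_iff (v : Fin 3 → ℝ) : v ∈ Icc (-1 : Fin 3 → ℝ) 1 ↔ ‖v‖ ≤ 1 := by
  rw [pi_norm_le_iff_of_nonneg zero_le_one]
  constructor
  · intro h i
    rw [Real.norm_eq_abs, abs_le]
    exact ⟨h.1 i, h.2 i⟩
  · intro h
    exact ⟨fun i => (abs_le.1 (by simpa [Real.norm_eq_abs] using h i)).1,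
      fun i => (abs_le.1 (by simpa [Real.norm_eq_abs] using h i)).2⟩

theorem continuous_col (ρ : ℝ) : Continuous (col ρ) := by
  refine continuous_pi fun i => ?_
  fin_cases i
  · show Continuous fun v : Fin 3 → ℝ => max 0 (1 - ‖v‖ / ρ) * v 0 / ρ
    fun_prop
  · show Continuous fun v : Fin 3 → ℝ => max 0 (1 - ‖v‖ / ρ) * v 1 / ρ
    fun_prop
  · show Continuous fun v : Fin 3 → ℝ => max 0 (1 - ‖v‖ / ρ) * v 2 / ρ
    fun_prop
  · show Continuous fun v : Fin 3 → ℝ => max (-1) (1 - 2 * (‖v‖ / ρ))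
    fun_prop

theorem col_eq_south {ρ : ℝ} (hρ : 0 < ρ) {v : Fin 3 → ℝ} (hv : ρ ≤ ‖v‖) : col ρ v = south := by
  have h1 : 1 ≤ ‖v‖ / ρ := by rw [le_div_iff₀ hρ]; linarith
  have h2 : max 0 (1 - ‖v‖ / ρ) = 0 := max_eq_left (by linarith)
  have h3 : max (-1) (1 - 2 * (‖v‖ / ρ)) = -1 := max_eq_left (by linarith)
  rw [col, south, h2, h3]
  simp

theorem south_ne : south ≠ 0 := by
  intro h
  have h1 := congrFun h 3
  have h2 : south 3 = -1 := rfl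
  rw [h2] at h1
  norm_num at h1

theorem col_ne {ρ : ℝ} (hρ : 0 < ρ) (v : Fin 3 → ℝ) : col ρ v ≠ 0 := by
  intro h
  have h3 : max (-1) (1 - 2 * (‖v‖ / ρ)) = 0 := congrFun h 3
  have h4 : ‖v‖ / ρ = 1 / 2 := by
    rcases le_total (-1) (1 - 2 * (‖v‖ / ρ)) with h5 | h5
    · rw [max_eq_right h5] at h3
      linarith
    · rw [max_eq_left h5] at h3
      norm_num at h3
  have h0 : max 0 (1 - ‖v‖ / ρ) * v 0 / ρ = 0 := congrFun h 0
  have h1 : max 0 (1 - ‖v‖ / ρ) * v 1 / ρ = 0 := congrFun h 1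
  have h2 : max 0 (1 - ‖v‖ / ρ) * v 2 / ρ = 0 := congrFun h 2
  have h6 : max 0 (1 - ‖v‖ / ρ) = 1 / 2 := by
    rw [h4]
    rw [max_eq_right (by norm_num)]
    norm_num
  have key : ∀ c : ℝ, max 0 (1 - ‖v‖ / ρ) * c / ρ = 0 → c = 0 := by
    intro c hc
    rw [h6, div_eq_zero_iff] at hc
    rcases hc with hc | hc
    · linarith
    · exact absurd hc hρ.ne'
  have hv : v = 0 := by
    funext i
    fin_cases i
    · exact key _ h0
    · exact key _ h1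
    · exact key _ h2
  rw [hv, norm_zero, zero_div] at h4
  norm_num at h4

theorem cube_proj {x : Fin 4 → ℝ} (hx : x ∈ Icc (-1 : Fin 4 → ℝ) 1) :
    (![x 0, x 1, x 2] : Fin 3 → ℝ) ∈ Icc (-1 : Fin 3 → ℝ) 1 := by
  constructor
  · intro i
    fin_cases i
    · exact hx.1 0
    · exact hx.1 1
    · exact hx.1 2
  · intro i
    fin_cases i
    · exact hx.2 0
    · exact hx.2 1
    · exact hx.2 2

theorem continuous_proj : Continuous fun x : Fin 4 → ℝ => (![x 0, x 1, x 2] : Fin 3 → ℝ) := by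
  refine continuous_pi fun i => ?_
  fin_cases i
  · exact continuous_apply (0 : Fin 4)
  · exact continuous_apply (1 : Fin 4)
  · exact continuous_apply (2 : Fin 4)

end CELL1

open CELL1

theorem t_CELL1 : M_CELL1 := by
  intro hEXT hHOM hBRO X _ _ hANR hShr e he hinj
  have hBc : IsCompact (Icc (-1 : Fin 3 → ℝ) 1) := isCompact_Icc
  have h0B : (0 : Fin 3 → ℝ) ∈ Icc (-1 : Fin 3 → ℝ) 1 := by
    rw [norm_le_iff, norm_zero]
    exact zero_le_one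
  have hSc : IsCompact (Icc (-1 : Fin 3 → ℝ) 1 ∩ {v | ‖v‖ = 1}) :=
    hBc.inter_right (isClosed_eq continuous_norm continuous_const)
  have hSB : Icc (-1 : Fin 3 → ℝ) 1 ∩ {v | ‖v‖ = 1} ⊆ Icc (-1 : Fin 3 → ℝ) 1 := inter_subset_left
  have heSc : IsCompact (e '' (Icc (-1 : Fin 3 → ℝ) 1 ∩ {v | ‖v‖ = 1})) :=
    hSc.image_of_continuousOn (he.mono hSB)
  have hp : e 0 ∈ (e '' (Icc (-1 : Fin 3 → ℝ) 1 ∩ {v | ‖v‖ = 1}))ᶜ := by
    rintro ⟨v, ⟨hv, hv1⟩, hev⟩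
    have := hinj hv h0B hev
    rw [this] at hv1
    simp at hv1
  obtain ⟨η, hη, hball⟩ := Metric.isOpen_iff.1 heSc.isClosed.isOpen_compl _ hp
  have hdist : ∀ v ∈ Icc (-1 : Fin 3 → ℝ) 1, ‖v‖ = 1 → η ≤ dist (e v) (e 0) := by
    intro v hv hv1
    by_contra hlt
    exact hball (Metric.mem_ball.2 (not_le.1 hlt)) ⟨v, ⟨hv, hv1⟩, rfl⟩
  obtain ⟨ε, hε, hH⟩ := hHOM X hANR η hη
  refine ⟨ε, hε, fun h hh hhε => ?_⟩
  obtain ⟨H, hHc, hH0, hH1, hHd⟩ := hH h hh hhε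
  by_contra hnot
  -- the bad set
  have hY1 : IsCompact (H '' ((e '' (Icc (-1 : Fin 3 → ℝ) 1 ∩ {v | ‖v‖ = 1})) ×ˢ Icc (0 : ℝ) 1)) :=
    (heSc.prod isCompact_Icc).image_of_continuousOn
      (hHc.mono (prod_mono (subset_univ _) subset_rfl))
  have hY2 : IsCompact (h '' (e '' Icc (-1 : Fin 3 → ℝ) 1)) :=
    (hBc.image_of_continuousOn he).image hh
  obtain ⟨Y, hYdef⟩ : ∃ Y : Set X, Y =
      H '' ((e '' (Icc (-1 : Fin 3 → ℝ) 1 ∩ {v | ‖v‖ = 1})) ×ˢ Icc (0 : ℝ) 1) ∪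
        h '' (e '' Icc (-1 : Fin 3 → ℝ) 1) := ⟨_, rfl⟩
  have hYc : IsCompact Y := by rw [hYdef]; exact hY1.union hY2
  have hpY : e 0 ∉ Y := by
    rw [hYdef]
    rintro (⟨⟨y, t⟩, ⟨⟨v, ⟨hv, hv1⟩, rfl⟩, ht⟩, hyt⟩ | h2)
    · have h3 := hHd (e v) t ht
      rw [hyt, dist_comm] at h3
      exact absurd (hdist v hv hv1) (not_le.2 h3)
    · exact hnot h2
  -- the radius
  have hρ : ∃ ρ : ℝ, 0 < ρ ∧ ∀ v ∈ Icc (-1 : Fin 3 → ℝ) 1, ‖v‖ ≤ ρ → e v ∉ Y := by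
    have h1 : ∀ᶠ v in 𝓝[Icc (-1 : Fin 3 → ℝ) 1] 0, e v ∈ Yᶜ :=
      (he 0 h0B).eventually (hYc.isClosed.isOpen_compl.mem_nhds hpY)
    obtain ⟨δ, hδ, hδB⟩ := Metric.mem_nhdsWithin_iff.1 h1
    refine ⟨δ / 2, half_pos hδ, fun v hv hvρ => ?_⟩
    refine hδB ⟨?_, hv⟩
    rw [Metric.mem_ball, dist_zero_right]
    linarith
  obtain ⟨ρ, hρ0, hρ1⟩ := hρ
  have hBcl : IsClosed (e '' Icc (-1 : Fin 3 → ℝ) 1) := (hBc.image_of_continuousOn he).isClosed
  -- the function on the closed set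
  classical
  obtain ⟨f, hfdef⟩ : ∃ f : X → R4, f = fun x => if x ∈ e '' Icc (-1 : Fin 3 → ℝ) 1 then
      col ρ (Function.invFunOn e (Icc (-1 : Fin 3 → ℝ) 1) x) else south := ⟨_, rfl⟩
  have hfe : ∀ v ∈ Icc (-1 : Fin 3 → ℝ) 1, f (e v) = col ρ v := by
    intro v hv
    have h1 : e v ∈ e '' Icc (-1 : Fin 3 → ℝ) 1 := mem_image_of_mem e hv
    rw [hfdef]
    show (if e v ∈ e '' Icc (-1 : Fin 3 → ℝ) 1 then
      col ρ (Function.invFunOn e (Icc (-1 : Fin 3 → ℝ) 1) (e v)) else south) = _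
    rw [if_pos h1, hinj.leftInvOn_invFunOn hv]
  have hfY : ∀ y ∈ Y, f y = south := by
    intro y hy
    by_cases h1 : y ∈ e '' Icc (-1 : Fin 3 → ℝ) 1
    · obtain ⟨v, hv, rfl⟩ := h1
      rw [hfe v hv]
      apply col_eq_south hρ0
      by_contra h2
      exact hρ1 v hv (not_le.1 h2).le hy
    · rw [hfdef]
      exact if_neg h1
  have hfc1 : ContinuousOn f (e '' Icc (-1 : Fin 3 → ℝ) 1) := by
    rw [continuousOn_iff_isClosed]
    intro t ht
    refine ⟨e '' (Icc (-1 : Fin 3 → ℝ) 1 ∩ col ρ ⁻¹' t), ?_, ?_⟩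
    · exact ((hBc.inter_right (ht.preimage (continuous_col ρ))).image_of_continuousOn
        (he.mono inter_subset_left)).isClosed
    · ext x
      constructor
      · rintro ⟨h1, ⟨v, hv, rfl⟩⟩
        refine ⟨⟨v, ⟨hv, ?_⟩, rfl⟩, ⟨v, hv, rfl⟩⟩
        rw [mem_preimage, ← hfe v hv]
        exact h1
      · rintro ⟨⟨v, ⟨hv, hv2⟩, rfl⟩, h3⟩
        refine ⟨?_, h3⟩
        rw [mem_preimage, hfe v hv]
        exact hv2
  have hfc2 : ContinuousOn f Y := continuousOn_const.congr hfY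
  have hfc : ContinuousOn f (e '' Icc (-1 : Fin 3 → ℝ) 1 ∪ Y) :=
    hfc1.union_of_isClosed hfc2 hBcl hYc.isClosed
  have hf0 : ∀ x ∈ e '' Icc (-1 : Fin 3 → ℝ) 1 ∪ Y, f x ≠ 0 := by
    rintro x (⟨v, hv, rfl⟩ | hy)
    · rw [hfe v hv]
      exact col_ne hρ0 v
    · rw [hfY x hy]
      exact south_ne
  obtain ⟨F, hF, hF0, hFe⟩ := hEXT X hShr _ f (hBcl.union hYc.isClosed) hfc hf0
  refine hBRO ρ hρ0 ⟨fun x => F (H (e ![x 0, x 1, x 2], (1 - x 3) / 2)), ?_, ?_, ?_, ?_, ?_⟩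
  · refine hF.comp_continuousOn (hHc.comp ?_ ?_)
    · refine ContinuousOn.prodMk ?_ ?_
      · exact he.comp continuous_proj.continuousOn (fun x hx => cube_proj hx)
      · exact Continuous.continuousOn (by fun_prop)
    · intro x hx
      have h1 := hx.1 3
      have h2 := hx.2 3
      simp only [Pi.neg_apply, Pi.one_apply] at h1 h2
      exact ⟨mem_univ _, by constructor <;> simp only <;> linarith⟩
  · intro x _
    exact hF0 _
  · intro x hx h3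
    show F (H (e ![x 0, x 1, x 2], (1 - x 3) / 2)) = _
    rw [h3, sub_self, zero_div, hH0, hFe (Or.inl ⟨_, cube_proj hx, rfl⟩), hfe _ (cube_proj hx)]
  · intro x hx h3
    show F (H (e ![x 0, x 1, x 2], (1 - x 3) / 2)) = _
    have h4 : (1 - x 3) / 2 = 1 := by rw [h3]; norm_num
    have h5 : h (e ![x 0, x 1, x 2]) ∈ Y := by
      rw [hYdef]
      exact Or.inr ⟨_, ⟨_, cube_proj hx, rfl⟩, rfl⟩
    rw [h4, hH1, hFe (Or.inr h5), hfY _ h5]
  · intro x hx h3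
    show F (H (e ![x 0, x 1, x 2], (1 - x 3) / 2)) = _
    have hn : ‖(![x 0, x 1, x 2] : Fin 3 → ℝ)‖ = 1 := by
      apply le_antisymm ((norm_le_iff _).1 (cube_proj hx))
      rcases h3 with h3 | h3 | h3
      · have := norm_le_pi_norm (![x 0, x 1, x 2] : Fin 3 → ℝ) 0
        rw [← h3]
        simpa [Real.norm_eq_abs] using this
      · have := norm_le_pi_norm (![x 0, x 1, x 2] : Fin 3 → ℝ) 1
        rw [← h3]
        simpa [Real.norm_eq_abs] using this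
      · have := norm_le_pi_norm (![x 0, x 1, x 2] : Fin 3 → ℝ) 2
        rw [← h3]
        simpa [Real.norm_eq_abs] using this
    have h1 := hx.1 3
    have h2 := hx.2 3
    simp only [Pi.neg_apply, Pi.one_apply] at h1 h2
    have h5 : H (e ![x 0, x 1, x 2], (1 - x 3) / 2) ∈ Y := by
      rw [hYdef]
      refine Or.inl ⟨_, ⟨⟨_, ⟨cube_proj hx, hn⟩, rfl⟩, ?_⟩, rfl⟩
      constructor <;> simp only <;> linarith
    rw [hFe (Or.inr h5), hfY _ h5]

end CTO
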