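import Pool.Agent.CTO.Stmts2

/-!
# A 3-cell is a neighbourhood of its centre
-/

set_option autoImplicit false

namespace CTO

open Set Topology

theorem t_CELL2 : M_CELL2 := by
  intro hEFF hC1 X _ _ hA hH hS e he hi
  obtain ⟨ε, hε, h1⟩ := hC1 X hA hS e he hi
  have h2 := hEFF X hH (e 0) ε hε
  have hcomp : IsCompact (e '' Icc (-1) 1) := isCompact_Icc.image_of_continuousOn he
  refine interior_mono ?_ h2
  refine closure_minimal ?_ hcomp.isClosed
  rintro y ⟨h, hd, rfl⟩
  obtain ⟨x, hx, hx2⟩ := h1 h.symm h.symm.continuous (by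
    intro x
    have h3 := hd (h.symm x)
    rw [h.apply_symm_apply, dist_comm] at h3
    exact h3)
  rw [← hx2, h.apply_symm_apply]
  exact hx

end CTO
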