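import Pool.Agent.CTO.Stmts

/-!
# MAN: a generically injective open map gives a manifold
-/

namespace CTO

open Set Topology

namespace MAN

theorem inj {X : Type} [MetricSpace X] [CompactSpace X] (V : Set X) (g : X → R3) (hV : IsOpen V)
    (hgi : GenInj V g) (ho : ∀ G ⊆ V, IsOpen G → IsOpen (g '' G)) : InjOn g V := by
  intro x hx y hy hxy
  by_contra hne
  have hd : 0 < dist x y := dist_pos.2 hne
  obtain ⟨r1, hr1, hb1⟩ := Metric.isOpen_iff.1 hV x hx
  obtain ⟨r2, hr2, hb2⟩ := Metric.isOpen_iff.1 hV y hy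
  obtain ⟨e, he0, he1, he2, he3⟩ : ∃ e : ℝ, 0 < e ∧ e < r1 ∧ e < r2 ∧ 2 * e < dist x y := by
    refine ⟨min (min r1 r2) (dist x y / 2) / 2, by positivity, ?_, ?_, ?_⟩
    · have h1 : min (min r1 r2) (dist x y / 2) ≤ r1 := (min_le_left _ _).trans (min_le_left _ _)
      linarith
    · have h1 : min (min r1 r2) (dist x y / 2) ≤ r2 := (min_le_left _ _).trans (min_le_right _ _)
      linarith
    · have h1 : min (min r1 r2) (dist x y / 2) ≤ dist x y / 2 := min_le_right _ _
      linarith
  have hc1 : Metric.closedBall x e ⊆ V := (Metric.closedBall_subset_ball he1).trans hb1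
  have hc2 : Metric.closedBall y e ⊆ V := (Metric.closedBall_subset_ball he2).trans hb2
  have hdis : Disjoint (Metric.closedBall x e) (Metric.closedBall y e) :=
    Metric.closedBall_disjoint_closedBall (by linarith)
  have h1 := hgi _ _ Metric.isClosed_closedBall.isCompact Metric.isClosed_closedBall.isCompact
    hc1 hc2 hdis
  have o1 : IsOpen (g '' Metric.ball x e) :=
    ho _ (Metric.ball_subset_closedBall.trans hc1) Metric.isOpen_ball
  have o2 : IsOpen (g '' Metric.ball y e) :=
    ho _ (Metric.ball_subset_closedBall.trans hc2) Metric.isOpen_ball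
  have h2 : g '' Metric.ball x e ∩ g '' Metric.ball y e ⊆
      g '' Metric.closedBall x e ∩ g '' Metric.closedBall y e :=
    inter_subset_inter (image_mono Metric.ball_subset_closedBall)
      (image_mono Metric.ball_subset_closedBall)
  have h3 : g x ∈ interior (g '' Metric.closedBall x e ∩ g '' Metric.closedBall y e) := by
    rw [mem_interior]
    exact ⟨_, h2, o1.inter o2, ⟨x, Metric.mem_ball_self he0, rfl⟩,
      ⟨y, Metric.mem_ball_self he0, hxy.symm⟩⟩
  rw [h1] at h3
  exact h3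

/-- an open ball of `R3` is homeomorphic to `R3` -/
theorem ball_homeo (z : R3) (r : ℝ) (hr : 0 < r) : Nonempty (Metric.ball z r ≃ₜ R3) := by
  let e := OpenPartialHomeomorph.univBall z r
  have hs : e.source = univ := OpenPartialHomeomorph.univBall_source z r
  have ht : e.target = Metric.ball z r := OpenPartialHomeomorph.univBall_target z hr
  exact ⟨(Homeomorph.setCongr ht.symm).trans (e.toHomeomorphSourceTarget.symm.trans
    ((Homeomorph.setCongr hs).trans (Homeomorph.Set.univ R3)))⟩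

theorem local_homeo {X : Type} [MetricSpace X] [CompactSpace X] (V : Set X) (g : X → R3)
    (hV : IsOpen V) (hg : ContinuousOn g V) (hgi : GenInj V g)
    (ho : ∀ G ⊆ V, IsOpen G → IsOpen (g '' G)) (x0 : X) (hx0 : x0 ∈ V) :
    ∃ V0 : Set X, IsOpen V0 ∧ x0 ∈ V0 ∧ Nonempty (V0 ≃ₜ R3) := by
  have hinj := inj V g hV hgi ho
  obtain ⟨r, hr, hb⟩ := Metric.isOpen_iff.1 (ho V subset_rfl hV) (g x0) ⟨x0, hx0, rfl⟩
  have hV0 : IsOpen (V ∩ g ⁻¹' Metric.ball (g x0) r) :=
    hg.isOpen_inter_preimage hV Metric.isOpen_ball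
  refine ⟨V ∩ g ⁻¹' Metric.ball (g x0) r, hV0, ⟨hx0, Metric.mem_ball_self hr⟩, ?_⟩
  let φ : (V ∩ g ⁻¹' Metric.ball (g x0) r : Set X) → R3 := fun v => g v
  have hφc : Continuous φ :=
    (continuousOn_iff_continuous_restrict.1 (hg.mono inter_subset_left))
  have hφi : Function.Injective φ := by
    intro a b hab
    exact Subtype.ext (hinj a.2.1 b.2.1 hab)
  have hφo : IsOpenMap φ := by
    intro S hS
    have h1 : IsOpen ((Subtype.val : (V ∩ g ⁻¹' Metric.ball (g x0) r : Set X) → X) '' S) :=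
      hV0.isOpenMap_subtype_val S hS
    have h2 : φ '' S = g '' ((Subtype.val :
        (V ∩ g ⁻¹' Metric.ball (g x0) r : Set X) → X) '' S) := by
      rw [image_image]
    rw [h2]
    refine ho _ ?_ h1
    rintro _ ⟨a, -, rfl⟩
    exact a.2.1
  have hemb : IsOpenEmbedding φ := IsOpenEmbedding.of_continuous_injective_isOpenMap hφc hφi hφo
  have hrange : range φ = Metric.ball (g x0) r := by
    ext z
    constructor
    · rintro ⟨a, rfl⟩
      exact a.2.2
    · intro hz
      obtain ⟨v, hv, hvz⟩ := hb hz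
      exact ⟨⟨v, hv, by rw [mem_preimage, hvz]; exact hz⟩, hvz⟩
  obtain ⟨e⟩ := ball_homeo (g x0) r hr
  exact ⟨hemb.isEmbedding.toHomeomorph.trans ((Homeomorph.setCongr hrange).trans e)⟩

end MAN

theorem t_MAN : S_MAN := by
  intro X _ _ hX V g hV hVne hg hgi ho
  refine ⟨inferInstance, inferInstance, ?_⟩
  obtain ⟨x0, hx0⟩ := hVne
  obtain ⟨V0, hV0, hx00, ⟨e⟩⟩ := MAN.local_homeo V g hV hg hgi ho x0 hx0
  intro x
  obtain ⟨h, hh⟩ := hX x x0
  refine ⟨h ⁻¹' V0, hV0.preimage h.continuous, by rw [mem_preimage, hh]; exact hx00, ?_⟩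
  exact ⟨(h.subtype (p := fun y => y ∈ h ⁻¹' V0) (q := fun y => y ∈ V0)
    (fun y => Iff.rfl)).trans e⟩

end CTO
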