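import Pool.Agent.CTO.Stmts2
import Pool.Agent.CTO.MAN

/-!
# CELLG: a generically injective open map gives a 3-cell
-/

set_option autoImplicit false

namespace CTO

open Set Topology

theorem t_CELLG : S_CELLG := by
  intro X _ _ V g hV hVne hg hgi ho
  obtain ⟨x0, hx0⟩ := hVne
  obtain ⟨V0, _, _, ⟨φ⟩⟩ := MAN.local_homeo V g hV hg hgi ho x0 hx0
  refine ⟨fun v => (φ.symm (WithLp.toLp 2 v)).1, ?_, ?_⟩
  · refine Continuous.continuousOn ?_
    exact continuous_subtype_val.comp
      (φ.symm.continuous.comp (PiLp.continuous_toLp 2 (fun _ : Fin 3 => ℝ)))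
  · intro v _ w _ h
    have h1 := φ.symm.injective (Subtype.ext h)
    exact (WithLp.toLp_injective 2) h1

end CTO
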