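import Pool.Agent.CTO.Stmts

/-!
# MP_6eac38_gt: the map is open
-/

set_option autoImplicit false

namespace CTO

open Set Topology

namespace OPEN

theorem td_of_image {P X : Type} [TopologicalSpace P] [TopologicalSpace X] {j : P → X}
    (hj : Continuous j) (hi : Function.Injective j) {S : Set P} {T : Set X}
    (hT : IsTotallyDisconnected T) (h : ∀ x ∈ S, j x ∈ T) : IsTotallyDisconnected S := by
  intro t ht hp a ha b hb
  apply hi
  refine hT (j '' t) ?_ (hp.image j hj.continuousOn) ⟨a, ha, rfl⟩ ⟨b, hb, rfl⟩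
  rintro _ ⟨x, hx, rfl⟩
  exact h x (ht hx)

theorem td_mono {X : Type} [TopologicalSpace X] {S T : Set X} (h : S ⊆ T)
    (hT : IsTotallyDisconnected T) : IsTotallyDisconnected S :=
  fun t ht hp => hT t (ht.trans h) hp

/-- the main step -/
theorem step (hED : S_ED) (hRAD : S_RAD) (hLEMX : S_LEMX) (hSEP : S_SEP) {X : Type}
    [MetricSpace X] [CompactSpace X] {V G : Set X} {g : X → R3} (hg : ContinuousOn g V)
    (htd : ∀ z, IsTotallyDisconnected (V ∩ g ⁻¹' {z})) (hV : GenInj V g) (hGV : G ⊆ V)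
    (hG : IsOpen G) {x1 : X} (hx1 : x1 ∈ G) (hobs : ObsAt X x1) : g '' G ∈ 𝓝 (g x1) := by
  classical
  obtain ⟨L, K, f, hL, hK, hLK, hxK, hxL, hfc, hf0, hnot, hext⟩ := hobs
  set G' := G ∩ Lᶜ with hG'
  have hG'o : IsOpen G' := hG.inter hL.isOpen_compl
  have hxG' : x1 ∈ G' := ⟨hx1, hxL⟩
  have hG'V : G' ⊆ V := fun x hx => hGV hx.1
  obtain ⟨G1, hG1, hxG1, hcl, r0, hr0, hsep⟩ := hSEP X G' g x1 hG'o hxG'
    (hg.mono hG'V) (td_mono (inter_subset_inter_left _ hG'V) (htd (g x1)))
  have hG1G' : G1 ⊆ G' := subset_closure.trans hcl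
  have hclV : closure G1 ⊆ V := hcl.trans hG'V
  have hgc : ContinuousOn g (closure G1) := hg.mono hclV
  by_contra hcon
  have hcon' : g '' G' ∉ 𝓝 (g x1) := fun h =>
    hcon (Filter.mem_of_superset h (image_mono fun x hx => hx.1))
  -- the centre
  have hz' : ∃ z', z' ∉ g '' G' ∧ dist z' (g x1) < r0 / 3 := by
    by_contra h
    push Not at h
    apply hcon'
    rw [Metric.mem_nhds_iff]
    refine ⟨r0 / 3, by positivity, ?_⟩
    intro w hw
    by_contra hw2
    exact absurd (Metric.mem_ball.1 hw) (not_lt.2 (h w hw2))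
  obtain ⟨z', hz'G, hz'd⟩ := hz'
  -- the radius
  obtain ⟨r, hr1, hr2, hr3⟩ := hRAD
    (fun m : ℕ => {z : R3 | ∃ a ∈ closure G1, ∃ b ∈ closure G1, g a = z ∧ g b = z ∧
      1 / ((m : ℝ) + 1) ≤ dist a b})
    (fun m => (hED X V (closure G1) g isClosed_closure.isCompact hclV hgc hV _
      (by positivity)).1)
    (fun m => (hED X V (closure G1) g isClosed_closure.isCompact hclV hgc hV _
      (by positivity)).2) z' (r0 / 3) (2 * (r0 / 3)) (by positivity) (by linarith)
  have hr0' : 0 < r := lt_trans (by positivity) hr1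
  -- the neighbourhood `W`
  set W := {y | y ∈ G1 ∧ dist (g y) z' < r} with hW
  have hWo : IsOpen W := by
    have h1 : ContinuousOn (fun y => dist (g y) z') G1 :=
      Continuous.comp_continuousOn (g := fun w : R3 => dist w z')
        (continuous_id.dist continuous_const) (hgc.mono subset_closure)
    exact h1.isOpen_inter_preimage hG1 isOpen_Iio
  have hxW : x1 ∈ W := ⟨hxG1, by rw [dist_comm]; linarith⟩
  obtain ⟨F, hFc, hF0, hFf⟩ := hext W hWo hxW
  have hLW : ∀ y ∈ L, y ∉ closure G1 := fun y hy hy2 => (hcl hy2).2 hy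
  -- the compact set
  set PK := {y | y ∈ K ∩ closure G1 ∧ dist (g y) z' ≤ r} with hPK
  have hPKc : IsClosed PK := by
    have h1 : ContinuousOn (fun y => dist (g y) z') (K ∩ closure G1) :=
      Continuous.comp_continuousOn (g := fun w : R3 => dist w z')
        (continuous_id.dist continuous_const) (hgc.mono inter_subset_right)
    exact h1.preimage_isClosed_of_isClosed (hK.inter isClosed_closure) isClosed_Iic
  have hPKG1 : ∀ y ∈ PK, y ∈ G1 := by
    intro y hy
    by_contra hy2
    have h1 := hsep y hy.1.2 hy2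
    have h2 := dist_triangle (g y) z' (g x1)
    have h3 := hy.2
    linarith
  have hPKne : ∀ y ∈ PK, g y - z' ≠ 0 := by
    intro y hy h0
    apply hz'G
    exact ⟨y, hG1G' (hPKG1 y hy), sub_eq_zero.1 h0⟩
  have hunit : ∀ y : PK, ‖g y - z'‖⁻¹ • (g y - z') ∈ Metric.sphere (0 : R3) 1 := by
    intro y
    rw [mem_sphere_zero_iff_norm, norm_smul, norm_inv, norm_norm]
    exact inv_mul_cancel₀ (norm_ne_zero_iff.2 (hPKne y y.2))
  have hcomp : CompactSpace PK := isCompact_iff_compactSpace.1 hPKc.isCompact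
  have hgPK : Continuous fun y : PK => g y :=
    continuousOn_iff_continuous_domRestrict.1 (hgc.mono fun y hy => hy.1.2)
  let b : PK → S2 := fun y => ⟨‖g y - z'‖⁻¹ • (g y - z'), hunit y⟩
  have hb : Continuous b := by
    apply Continuous.subtype_mk
    have h1 : Continuous fun y : PK => g y - z' := hgPK.sub continuous_const
    exact (h1.norm.inv₀ fun y => norm_ne_zero_iff.2 (hPKne y y.2)).smul h1
  let Q : Set PK := {y | dist (g y) z' = r}
  have hQc : IsClosed Q := isClosed_eq (hgPK.dist continuous_const) continuous_const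
  have hgb : ∀ y ∈ Q, g y = z' + r • (b y : R3) := by
    intro y hy
    have h1 : ‖g y - z'‖ = r := by rw [← dist_eq_norm]; exact hy
    change g y = z' + r • (‖g y - z'‖⁻¹ • (g y - z'))
    rw [h1, smul_smul, mul_inv_cancel₀ hr0'.ne', one_smul]
    abel
  have hQK : ∀ y ∈ Q, (y : X) ∈ (K \ W) ∪ L := by
    intro y hy
    left
    exact ⟨y.2.1.1, fun h => absurd h.2 (not_lt.2 (le_of_eq (Eq.symm hy)))⟩
  obtain ⟨F', hF'c, hF'0, hF'e⟩ := hLEMX PK Q b (fun y => F y) hQc hb
    (by
      intro v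
      apply td_of_image continuous_subtype_val Subtype.val_injective (htd (z' + r • (v : R3)))
      rintro y ⟨hy, hyv⟩
      refine ⟨hclV y.2.1.2, ?_⟩
      have h1 := hgb y hy
      rw [show b y = v from hyv] at h1
      exact h1)
    (by
      intro δ hδ
      obtain ⟨m, hm⟩ := exists_nat_one_div_lt hδ
      rw [← subset_empty_iff, ← hr3 m]
      apply interior_mono
      rintro v ⟨x, hx, y, hy, hxv, hyv, hxy⟩
      refine ⟨x, x.2.1.2, y, y.2.1.2, ?_, ?_, hm.le.trans hxy⟩
      · rw [hgb x hx, hxv]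
      · rw [hgb y hy, hyv])
    (hFc.comp continuous_subtype_val.continuousOn hQK)
    (fun y hy => hF0 _ (hQK y hy))
  -- the extension
  apply hnot
  let F2 : X → R3 := fun x => if h : x ∈ PK then F' ⟨x, h⟩ else F x
  have hF2P : ∀ (x : X) (h : x ∈ PK), F2 x = F' ⟨x, h⟩ := fun x h => dif_pos h
  have hF2K : EqOn F2 F (K \ W) := by
    intro x hx
    by_cases h : x ∈ PK
    · rw [hF2P x h]
      apply hF'e
      have h1 : ¬ dist (g x) z' < r := fun h2 => hx.2 ⟨hPKG1 x h, h2⟩
      exact le_antisymm h.2 (not_lt.1 h1)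
    · exact dif_neg h
  have hcov : K = (K \ W) ∪ PK := by
    apply Subset.antisymm
    · intro x hx
      by_cases h : x ∈ W
      · right
        exact ⟨⟨hx, subset_closure h.1⟩, h.2.le⟩
      · left
        exact ⟨hx, h⟩
    · rintro x (hx | hx)
      · exact hx.1
      · exact hx.1.1
  refine ⟨F2, ?_, ?_, ?_⟩
  · rw [hcov]
    apply ContinuousOn.union_of_isClosed
    · exact (hFc.mono subset_union_left).congr hF2K
    · rw [continuousOn_iff_continuous_domRestrict]
      have : PK.domRestrict F2 = F' := by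
        funext y
        exact hF2P y.1 y.2
      rw [this]
      exact hF'c
    · exact hK.sdiff hWo
    · exact hPKc
  · intro x hx
    by_cases h : x ∈ PK
    · rw [hF2P x h]
      exact hF'0 _
    · have h2 : x ∈ K \ W := by
        rw [hcov] at hx
        exact hx.resolve_right h
      rw [hF2K h2]
      exact hF0 _ (Or.inl h2)
  · intro x hx
    have h2 : x ∈ K \ W := ⟨hLK hx, fun h => hLW x hx (subset_closure h.1)⟩
    rw [hF2K h2]
    exact hFf hx

end OPEN

theorem t_OPEN : M_OPEN := by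
  intro hED hRAD hLEMX hSEP X _ _ hobs V g _ hg htd hgen G hGV hG
  rw [isOpen_iff_mem_nhds]
  rintro _ ⟨x, hx, rfl⟩
  exact OPEN.step hED hRAD hLEMX hSEP hg htd hgen hGV hG hx (hobs x)

end CTO
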