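import Pool.Agent.CTO.Stmts2
import Pool.Agent.CTO.OPEN

/-!
# MP_6eac38_gt: a compactum of dimension 3 with a countable-to-one map contains a cell
-/

set_option autoImplicit false

namespace CTO

open Set Topology

theorem t_CELLS : M_CELLS := by
  intro hOBS0 hMIN hBAI2 hED hRAD hLEMX hSEP hCELLG K _ _ h3 h2 hex
  obtain ⟨g, hg, hgc⟩ := hex
  obtain ⟨K', V, hK', hV, hVn, hobs⟩ := hMIN K (hOBS0 K h3 h2)
  have : CompactSpace K' := isCompact_iff_compactSpace.mp hK'.isCompact
  let g' : K' → R3 := fun x => g x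
  have hg' : Continuous g' := hg.comp continuous_subtype_val
  have hg'c : ∀ z, (g' ⁻¹' {z}).Countable := fun z =>
    (hgc z).preimage Subtype.val_injective
  obtain ⟨V', hV'V, hV'o, hV'n, hG⟩ := hBAI2 K' V g' hV hVn hg'.continuousOn
    (fun z => (hg'c z).mono inter_subset_right)
  have hopen : ∀ G ⊆ V', IsOpen G → IsOpen (g' '' G) := by
    intro G hGV hGo
    rw [isOpen_iff_mem_nhds]
    rintro _ ⟨x, hx, rfl⟩
    exact OPEN.step hED hRAD hLEMX hSEP (V := V') hg'.continuousOn
      (fun z => ((hg'c z).mono inter_subset_right).isTotallyDisconnected) hG hGV hGo hx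
      (hobs x (hV'V (hGV hx)))
  obtain ⟨e, he, hi⟩ := hCELLG K' V' g' hV'o hV'n hg'.continuousOn hG hopen
  exact ⟨fun v => (e v : K), continuous_subtype_val.comp_continuousOn he,
    fun a ha b hb h => hi ha hb (Subtype.val_injective h)⟩

end CTO
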