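import Pool.Agent.CTO.Stmts

/-!
# MP_6eac38_gt: module CLOP (locally constant approximation over a neighbourhood of a point)
-/

set_option autoImplicit false

namespace CTO

open Set Topology

namespace CLOP

/-- a locally constant approximation on a compact totally disconnected set, with a Lebesgue number -/
theorem approx {P : Type} [MetricSpace P] (Φ : Set P) (hc : IsCompact Φ)
    (ht : IsTotallyDisconnected Φ) (f : P → R3) (hf : ContinuousOn f Φ) (η : ℝ) (hη : 0 < η) :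
    ∃ (g : P → R3) (δ : ℝ), 0 < δ ∧ (range g).Finite ∧ (∀ y ∈ Φ, dist (g y) (f y) < η) ∧
      ∀ y ∈ Φ, ∀ z ∈ Φ, dist y z < δ → g y = g z := by
  classical
  have : CompactSpace Φ := isCompact_iff_compactSpace.1 hc
  have : TotallyDisconnectedSpace Φ := totallyDisconnectedSpace_subtype_iff.2 ht
  have hfc : Continuous (fun y : Φ => f y) := continuousOn_iff_continuous_domRestrict.1 hf
  have h1 : ∀ x : Φ, ∃ V : Set Φ, IsClopen V ∧ x ∈ V ∧ V ⊆ {y : Φ | dist (f y) (f x) < η} := by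
    intro x
    exact compact_exists_isClopen_in_isOpen
      (isOpen_lt (hfc.dist continuous_const) continuous_const) (by simpa using hη)
  choose V hV hxV hVU using h1
  obtain ⟨t, ht⟩ := isCompact_univ.elim_finite_subcover V (fun x => (hV x).isOpen)
    (fun x _ => mem_iUnion.2 ⟨x, hxV x⟩)
  have h2 : ∀ x : Φ, ∃ δ : ℝ, 0 < δ ∧ ∀ y z : Φ, y ∈ V x → dist z y < δ → z ∈ V x := by
    intro x
    obtain ⟨δ, hδ, hs⟩ := (hV x).isClosed.isCompact.exists_thickening_subset_open (hV x).isOpen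
      subset_rfl
    exact ⟨δ, hδ, fun y z hy hz => hs (Metric.mem_thickening_iff.2 ⟨y, hy, hz⟩)⟩
  choose d hd hdV using h2
  obtain ⟨δ, hδ, hδt⟩ : ∃ δ : ℝ, 0 < δ ∧ ∀ x ∈ t, δ ≤ d x := by
    clear ht
    induction t using Finset.induction_on with
    | empty => exact ⟨1, one_pos, by simp⟩
    | insert a s ha ih =>
      obtain ⟨δ, hδ, hδs⟩ := ih
      refine ⟨min δ (d a), lt_min hδ (hd a), ?_⟩
      intro x hx
      rcases Finset.mem_insert.1 hx with rfl | hx
      · exact min_le_right _ _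
      · exact (min_le_left _ _).trans (hδs x hx)
  let sel : Finset Φ → R3 := fun s => if h : s.Nonempty then f (h.choose : Φ) else 0
  let c : P → Finset Φ := fun y => t.filter (fun x => ∃ hy : y ∈ Φ, (⟨y, hy⟩ : Φ) ∈ V x)
  refine ⟨fun y => sel (c y), δ, hδ, ?_, ?_, ?_⟩
  · have hk : ∀ y, sel (c y) ∈ sel '' (t.powerset : Set (Finset Φ)) := fun y =>
      mem_image_of_mem sel (Finset.mem_coe.2 (Finset.mem_powerset.2 (Finset.filter_subset _ _)))
    exact ((t.powerset.finite_toSet).image sel).subset (range_subset_iff.2 hk)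
  · intro y hy
    obtain ⟨x, hx⟩ := mem_iUnion.1 (ht (mem_univ (⟨y, hy⟩ : Φ)))
    obtain ⟨hxt, hyx⟩ := mem_iUnion.1 hx
    have hne : (c y).Nonempty := ⟨x, Finset.mem_filter.2 ⟨hxt, hy, hyx⟩⟩
    obtain ⟨x0, hx0, h6⟩ : ∃ x0 : Φ, x0 ∈ c y ∧ sel (c y) = f (x0 : P) :=
      ⟨hne.choose, hne.choose_spec, dif_pos hne⟩
    obtain ⟨-, hy', h4⟩ := Finset.mem_filter.1 hx0
    have h5 := hVU x0 h4
    simp only [mem_ofPred_eq] at h5
    rw [dist_comm] at h5
    simp only [h6]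
    exact h5
  · intro y hy z hz hyz
    have h3 : c y = c z := by
      apply Finset.filter_congr
      intro x hx
      constructor
      · rintro ⟨hy', h4⟩
        refine ⟨hz, hdV x ⟨y, hy'⟩ ⟨z, hz⟩ h4 ?_⟩
        have : dist (⟨z, hz⟩ : Φ) ⟨y, hy'⟩ = dist y z := by rw [Subtype.dist_eq, dist_comm]
        rw [this]
        exact hyz.trans_le (hδt x hx)
      · rintro ⟨hz', h4⟩
        refine ⟨hy, hdV x ⟨z, hz'⟩ ⟨y, hy⟩ h4 ?_⟩
        have : dist (⟨y, hy⟩ : Φ) ⟨z, hz'⟩ = dist y z := rfl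
        rw [this]
        exact hyz.trans_le (hδt x hx)
    show sel (c y) = sel (c z)
    rw [h3]

end CLOP

theorem t_CLOP : S_CLOP := by
  classical
  intro P _ _ Q b f v hQ hb htd hf η hη
  have hΦc : IsCompact (Q ∩ b ⁻¹' {v}) := (hQ.inter (isClosed_singleton.preimage hb)).isCompact
  obtain ⟨g, δ, hδ, hgf, hg1, hg2⟩ := CLOP.approx (Q ∩ b ⁻¹' {v}) hΦc htd f
    (hf.mono inter_subset_left) (η / 2) (half_pos hη)
  have huc : UniformContinuousOn f Q := hQ.isCompact.uniformContinuousOn_of_continuous hf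
  obtain ⟨δ', hδ', huc'⟩ := Metric.uniformContinuousOn_iff.1 huc (η / 2) (half_pos hη)
  obtain ⟨r, hr, hr1, hr2⟩ : ∃ r : ℝ, 0 < r ∧ r ≤ δ / 2 ∧ r ≤ δ' :=
    ⟨min (δ / 2) δ', lt_min (half_pos hδ) hδ', min_le_left _ _, min_le_right _ _⟩
  let T : Set P := Metric.thickening r (Q ∩ b ⁻¹' {v})
  let w : P → R3 := fun p => if h : ∃ y ∈ Q ∩ b ⁻¹' {v}, dist p y < r then g h.choose else 0
  have hw : ∀ p, ∀ y ∈ Q ∩ b ⁻¹' {v}, dist p y < r → w p = g y := by
    intro p y hy hpy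
    have h : ∃ y ∈ Q ∩ b ⁻¹' {v}, dist p y < r := ⟨y, hy, hpy⟩
    have h1 : w p = g h.choose := dif_pos h
    rw [h1]
    apply hg2 _ h.choose_spec.1 _ hy
    calc dist h.choose y ≤ dist h.choose p + dist p y := dist_triangle _ _ _
      _ = dist p h.choose + dist p y := by rw [dist_comm]
      _ < r + r := add_lt_add h.choose_spec.2 hpy
      _ ≤ δ := by linarith
  have hK : IsClosed (b '' (Q \ T)) :=
    ((hQ.sdiff Metric.isOpen_thickening).isCompact.image hb).isClosed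
  refine ⟨(b '' (Q \ T))ᶜ, hK.isOpen_compl, ?_, w, ?_, ?_, ?_⟩
  · rintro ⟨x, ⟨hxQ, hxT⟩, hxv⟩
    exact hxT (Metric.mem_thickening_iff.2 ⟨x, ⟨hxQ, hxv⟩, by simpa using hr⟩)
  · apply (hgf.insert 0).subset
    rintro _ ⟨p, rfl⟩
    by_cases h : ∃ y ∈ Q ∩ b ⁻¹' {v}, dist p y < r
    · obtain ⟨y, hy, hpy⟩ := h
      rw [hw p y hy hpy]
      exact Or.inr ⟨y, rfl⟩
    · exact Or.inl (dif_neg h)
  · rintro x ⟨hxQ, hxN⟩
    have hxT : x ∈ T := by
      by_contra hxT
      exact hxN ⟨x, ⟨hxQ, hxT⟩, rfl⟩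
    obtain ⟨y, hy, hxy⟩ := Metric.mem_thickening_iff.1 hxT
    have he : w =ᶠ[𝓝 x] fun _ => g y := by
      have ho : IsOpen {p : P | dist p y < r} :=
        isOpen_lt (continuous_id.dist continuous_const) continuous_const
      exact Filter.mem_of_superset (ho.mem_nhds hxy) fun p hp => hw p y hy hp
    exact (continuousAt_const.congr he.symm).continuousWithinAt
  · rintro x ⟨hxQ, hxN⟩
    have hxT : x ∈ T := by
      by_contra hxT
      exact hxN ⟨x, ⟨hxQ, hxT⟩, rfl⟩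
    obtain ⟨y, hy, hxy⟩ := Metric.mem_thickening_iff.1 hxT
    rw [hw x y hy hxy]
    have h1 := hg1 y hy
    have h2 := huc' y hy.1 x hxQ (by rw [dist_comm]; exact hxy.trans_le hr2)
    calc dist (g y) (f x) ≤ dist (g y) (f y) + dist (f y) (f x) := dist_triangle _ _ _
      _ < η / 2 + η / 2 := add_lt_add h1 h2
      _ = η := by ring

end CTO
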