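import Pool.Agent.CTO.Stmts

/-!
# Module DIM1: closed nowhere dense subsets of the sphere have dimension at most 1
-/

set_option autoImplicit false

namespace CTO

open Set Topology

theorem t_DIM1 : M_DIM1 := by
  intro hGRID E hE hint k O hO hcov
  have hfact : Fact (Module.finrank ℝ R3 = 2 + 1) := ⟨by simp⟩
  have hne : (Metric.sphere (0 : R3) 1).Nonempty := NormedSpace.sphere_nonempty.2 zero_le_one
  -- a point that is not in `E`
  obtain ⟨N, hN⟩ : ∃ N : S2, N ∉ E := by
    by_contra hcon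
    push Not at hcon
    have h1 : E = univ := eq_univ_of_forall hcon
    rw [h1, interior_univ] at hint
    obtain ⟨x, hx⟩ := hne
    have h2 : (⟨x, hx⟩ : S2) ∈ (univ : Set S2) := mem_univ _
    rw [hint] at h2
    exact h2
  have hk : Nonempty (Fin k) := by
    have h1 : N ∈ ⋃ i, O i := by rw [hcov]; trivial
    obtain ⟨i, -⟩ := mem_iUnion.1 h1
    exact ⟨i⟩
  set h := stereographic' 2 N with hh
  have hs : h.source = {N}ᶜ := stereographic'_source N
  have ht : h.target = univ := stereographic'_target N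
  have hEs : E ⊆ h.source := by
    intro x hx
    rw [hs, mem_compl_iff, mem_singleton_iff]
    rintro rfl
    exact hN hx
  have hEc : IsCompact E := hE.isCompact
  have hE' : IsCompact (h '' E) := hEc.image_of_continuousOn (h.continuousOn.mono hEs)
  have hint' : interior (h '' E) = ∅ := by
    rw [eq_empty_iff_forall_notMem]
    intro p hp
    rw [mem_interior] at hp
    obtain ⟨U, hUE, hU, hpU⟩ := hp
    have h1 : IsOpen (h.source ∩ h ⁻¹' U) := h.isOpen_inter_preimage hU
    have h2 : h.source ∩ h ⁻¹' U ⊆ E := by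
      rintro x ⟨hx, hxU⟩
      obtain ⟨y, hy, hxy⟩ := hUE hxU
      rwa [← h.injOn (hEs hy) hx hxy]
    have h3 : h.source ∩ h ⁻¹' U ⊆ interior E := interior_maximal h2 h1
    rw [hint] at h3
    have hpt : p ∈ h.target := by rw [ht]; trivial
    exact h3 ⟨h.map_target hpt, by rw [mem_preimage, h.right_inv hpt]; exact hpU⟩
  -- the cover in the plane
  obtain ⟨δ, hδ, hleb⟩ := lebesgue_number_lemma_of_metric (s := h '' E)
    (c := fun i => h.target ∩ h.symm ⁻¹' (O i)) hE'
    (fun i => h.isOpen_inter_preimage_symm (hO i)) (by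
      intro p _
      have h1 : h.symm p ∈ ⋃ i, O i := by rw [hcov]; trivial
      obtain ⟨i, hi⟩ := mem_iUnion.1 h1
      exact mem_iUnion.2 ⟨i, by rw [ht]; trivial, hi⟩)
  obtain ⟨n, R, hRo, hRd, hRc, hR2⟩ := hGRID (h '' E) hE' hint' δ hδ
  have hc : ∀ j : Fin n, (R j ∩ h '' E).Nonempty →
      ∃ i : Fin k, R j ⊆ h.target ∩ h.symm ⁻¹' (O i) := by
    rintro j ⟨x, hxR, hxE⟩
    obtain ⟨i, hi⟩ := hleb x hxE
    exact ⟨i, fun y hy => hi (Metric.mem_ball.2 (hRd j y hy x hxR))⟩
  choose! c hc using hc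
  refine ⟨fun i => (O i \ E) ∪ (O i ∩ (h.source ∩ h ⁻¹'
    (⋃ j ∈ {j | (R j ∩ h '' E).Nonempty ∧ c j = i}, R j))), ?_, ?_, ?_, ?_⟩
  · intro i
    refine ((hO i).sdiff hE).union ((hO i).inter (h.isOpen_inter_preimage ?_))
    exact isOpen_biUnion fun j _ => hRo j
  · rintro i x (hx | hx)
    · exact hx.1
    · exact hx.1
  · rw [eq_univ_iff_forall]
    intro x
    rw [mem_iUnion]
    by_cases hx : x ∈ E
    · have h1 : h x ∈ h '' E := mem_image_of_mem h hx
      obtain ⟨j, hj⟩ := mem_iUnion.1 (hRc h1)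
      have hJ : (R j ∩ h '' E).Nonempty := ⟨h x, hj, h1⟩
      have h2 := hc j hJ hj
      have h3 : x ∈ O (c j) := by
        have := h2.2
        rwa [mem_preimage, h.left_inv (hEs hx)] at this
      refine ⟨c j, Or.inr ⟨h3, hEs hx, ?_⟩⟩
      rw [mem_preimage]
      exact mem_biUnion (show j ∈ {j' | (R j' ∩ h '' E).Nonempty ∧ c j' = c j} from ⟨hJ, rfl⟩) hj
    · have h1 : x ∈ ⋃ i, O i := by rw [hcov]; trivial
      obtain ⟨i, hi⟩ := mem_iUnion.1 h1
      exact ⟨i, Or.inl ⟨hi, hx⟩⟩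
  · intro v hv
    have h1 : {i | v ∈ (O i \ E) ∪ (O i ∩ (h.source ∩ h ⁻¹'
        (⋃ j ∈ {j | (R j ∩ h '' E).Nonempty ∧ c j = i}, R j)))} ⊆ c '' {j | h v ∈ R j} := by
      rintro i (hi | hi)
      · exact absurd hv hi.2
      · obtain ⟨-, -, h2⟩ := hi
        rw [mem_preimage, mem_iUnion₂] at h2
        obtain ⟨j, hj, hjv⟩ := h2
        exact ⟨j, hjv, hj.2⟩
    have h2 := ncard_le_ncard h1 (toFinite _)
    have h3 := ncard_image_le (f := c) (s := {j | h v ∈ R j}) (toFinite _)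
    have h4 := hR2 (h v) (mem_image_of_mem h hv)
    exact h2.trans (h3.trans h4)

end CTO
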