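import Mathlib

/-!
# MP_6eac38_gt: homogeneous compacta with countable-to-one or light maps into `ℝ³`. Definitions
-/

set_option autoImplicit false

namespace CTO

open Set Topology

/-- Euclidean space of dimension 3 -/
abbrev R3 : Type := EuclideanSpace ℝ (Fin 3)

/-- homogeneous: any point can be moved to any other point by a homeomorphism -/
def Homog (X : Type) [TopologicalSpace X] : Prop := ∀ x y : X, ∃ h : X ≃ₜ X, h x = y

/-- covering dimension at most `n`: every finite open cover has a finite open refinement such that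
every point is in at most `n + 1` members of the refinement -/
def CovDimLE (X : Type) [TopologicalSpace X] (n : ℕ) : Prop :=
  ∀ U : Set (Set X), U.Finite → (∀ u ∈ U, IsOpen u) → ⋃₀ U = univ →
    ∃ V : Set (Set X), V.Finite ∧ (∀ v ∈ V, IsOpen v) ∧ ⋃₀ V = univ ∧
      (∀ v ∈ V, ∃ u ∈ U, v ⊆ u) ∧ ∀ x : X, {v | v ∈ V ∧ x ∈ v}.ncard ≤ n + 1

/-- topological 3-manifold: Hausdorff, second countable, every point has an open neighbourhood
homeomorphic to `ℝ³` -/
def IsMfd3 (X : Type) [TopologicalSpace X] : Prop :=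
  T2Space X ∧ SecondCountableTopology X ∧
    ∀ x : X, ∃ V : Set X, IsOpen V ∧ x ∈ V ∧ Nonempty (V ≃ₜ R3)

/-- `X` is a countable union of closed subsets each of which has a continuous map into `ℝ³` with
countable fibres -/
def CountMaps (X : Type) [TopologicalSpace X] : Prop :=
  ∃ F : ℕ → Set X, (∀ i, IsClosed (F i)) ∧ (⋃ i, F i) = univ ∧
    ∀ i, ∃ g : X → R3, ContinuousOn g (F i) ∧ ∀ z, (F i ∩ g ⁻¹' {z}).Countable

/-- the set of the points `z` over which the map `g` on `U` has a fibre with an isolated point -/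
def Iso {X : Type} [TopologicalSpace X] (U : Set X) (g : X → R3) : Set R3 :=
  {z | ∃ x, ∃ W : Set X, IsOpen W ∧ W ∩ (U ∩ g ⁻¹' {z}) = {x}}

/-- some nonempty open subset `U` of `X` has a continuous map into `ℝ³` with totally disconnected
fibres which, for a nonmeager set of points `z`, have an isolated point -/
def LightMap (X : Type) [TopologicalSpace X] : Prop :=
  ∃ (U : Set X) (g : X → R3), IsOpen U ∧ U.Nonempty ∧ ContinuousOn g U ∧
    (∀ z, IsTotallyDisconnected (U ∩ g ⁻¹' {z})) ∧ ¬ IsMeagre (Iso U g)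

/-- the main theorem -/
def MainStmt : Prop := ∀ (X : Type) [MetricSpace X] [CompactSpace X],
  Homog X → CovDimLE X 3 → ¬ CovDimLE X 2 →
    (IsMfd3 X ↔ CountMaps X) ∧ (IsMfd3 X ↔ LightMap X)

/-! ### Definitions for the proof -/

/-- `f` on `L` has an extension to `K` without zeros -/
def Ext {X : Type} [TopologicalSpace X] (L K : Set X) (f : X → R3) : Prop :=
  ∃ F : X → R3, ContinuousOn F K ∧ (∀ x ∈ K, F x ≠ 0) ∧ EqOn F f L

/-- obstruction point -/
def ObsAt (X : Type) [TopologicalSpace X] (x : X) : Prop :=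
  ∃ (L K : Set X) (f : X → R3), IsClosed L ∧ IsClosed K ∧ L ⊆ K ∧ x ∈ K ∧ x ∉ L ∧
    ContinuousOn f L ∧ (∀ y ∈ L, f y ≠ 0) ∧ ¬ Ext L K f ∧
    ∀ W : Set X, IsOpen W → x ∈ W → Ext L ((K \ W) ∪ L) f

/-- covering dimension, with shrinkings -/
def ShrLE (X : Type) [TopologicalSpace X] (n : ℕ) : Prop :=
  ∀ (k : ℕ) (U : Fin k → Set X), (∀ i, IsOpen (U i)) → (⋃ i, U i) = univ →
    ∃ V : Fin k → Set X, (∀ i, IsOpen (V i)) ∧ (∀ i, V i ⊆ U i) ∧ (⋃ i, V i) = univ ∧
      ∀ x, {i | x ∈ V i}.ncard ≤ n + 1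

/-- generically injective: disjoint compact subsets of `V` have images whose intersection has no
interior -/
def GenInj {X : Type} [TopologicalSpace X] (V : Set X) (g : X → R3) : Prop :=
  ∀ C0 C1 : Set X, IsCompact C0 → IsCompact C1 → C0 ⊆ V → C1 ⊆ V → Disjoint C0 C1 →
    interior (g '' C0 ∩ g '' C1) = ∅

/-- the unit sphere -/
abbrev S2 : Type := Metric.sphere (0 : R3) 1

end CTO
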