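import Pool.Agent.CTO.Stmts

/-!
# MP_6eac38_gt, module EASY: compact metric 3-manifolds have the maps of (b) and (c)
-/

set_option autoImplicit false

namespace CTO

open Set Topology

namespace EASY

open Classical in
/-- a chart extended by zero -/
noncomputable def ext {X : Type} [TopologicalSpace X] (V : Set X) (h : V ≃ₜ R3) : X → R3 :=
  fun x => if hx : x ∈ V then h ⟨x, hx⟩ else 0

theorem ext_apply {X : Type} [TopologicalSpace X] (V : Set X) (h : V ≃ₜ R3) (x : X) (hx : x ∈ V) :
    ext V h x = h ⟨x, hx⟩ := by
  unfold ext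
  rw [dif_pos hx]

theorem ext_cont {X : Type} [TopologicalSpace X] (V : Set X) (h : V ≃ₜ R3) :
    ContinuousOn (ext V h) V := by
  rw [continuousOn_iff_continuous_domRestrict]
  have : V.domRestrict (ext V h) = h := by
    funext x
    rw [Set.domRestrict_apply, ext_apply V h x.1 x.2]
  rw [this]
  exact h.continuous

theorem ext_inj {X : Type} [TopologicalSpace X] (V : Set X) (h : V ≃ₜ R3) :
    InjOn (ext V h) V := by
  intro x hx y hy hxy
  rw [ext_apply V h x hx, ext_apply V h y hy] at hxy
  have := h.injective hxy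
  exact congrArg Subtype.val this

theorem fib_sub {X : Type} [TopologicalSpace X] (V : Set X) (h : V ≃ₜ R3) (z : R3) :
    (V ∩ ext V h ⁻¹' {z}).Subsingleton := by
  intro x hx y hy
  exact ext_inj V h hx.1 hy.1 (by
    have h1 : ext V h x = z := hx.2
    have h2 : ext V h y = z := hy.2
    rw [h1, h2])

theorem countMaps (X : Type) [MetricSpace X] [CompactSpace X] (hX : IsMfd3 X) :
    CountMaps X := by
  have hc := hX.2.2
  choose V hVo hxV hV using hc
  have hball : ∀ x : X, ∃ ε : ℝ, 0 < ε ∧ Metric.closedBall x ε ⊆ V x := by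
    intro x
    exact Metric.nhds_basis_closedBall.mem_iff.1 ((hVo x).mem_nhds (hxV x))
  choose ε hε hεV using hball
  obtain ⟨t, ht⟩ := isCompact_univ.elim_nhds_subcover (fun x => Metric.ball x (ε x))
    (fun x _ => Metric.ball_mem_nhds x (hε x))
  have ht2 := ht.2
  refine ⟨fun n => match t.toList[n]? with
    | some x => Metric.closedBall x (ε x)
    | none => ∅, ?_, ?_, ?_⟩
  · intro i
    rcases h : t.toList[i]? with _ | x
    · simp only [h]
      exact isClosed_empty
    · simp only [h]
      exact Metric.isClosed_closedBall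
  · rw [eq_univ_iff_forall]
    intro y
    have hy := ht2 (mem_univ y)
    rw [mem_iUnion₂] at hy
    obtain ⟨x, hxt, hyx⟩ := hy
    rw [mem_iUnion]
    have hxl : x ∈ t.toList := Finset.mem_toList.2 hxt
    obtain ⟨n, hn⟩ := List.mem_iff_getElem?.1 hxl
    refine ⟨n, ?_⟩
    simp only [hn]
    exact Metric.ball_subset_closedBall hyx
  · intro i
    rcases h : t.toList[i]? with _ | x
    · refine ⟨fun _ => 0, continuousOn_const, ?_⟩
      intro z
      simp only [h]
      rw [empty_inter]
      exact countable_empty
    · obtain ⟨hx⟩ := hV x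
      refine ⟨ext (V x) hx, ?_, ?_⟩
      · simp only [h]
        exact (ext_cont (V x) hx).mono (hεV x)
      · intro z
        simp only [h]
        exact ((fib_sub (V x) hx z).anti (inter_subset_inter_left _ (hεV x))).countable

theorem lightMap (X : Type) [MetricSpace X] [CompactSpace X] (hX : IsMfd3 X) (hn : Nonempty X) :
    LightMap X := by
  obtain ⟨x0⟩ := hn
  obtain ⟨V, hVo, hxV, ⟨h⟩⟩ := hX.2.2 x0
  refine ⟨V, ext V h, hVo, ⟨x0, hxV⟩, ext_cont V h, ?_, ?_⟩
  · intro z s hs _
    exact (fib_sub V h z).anti hs
  · have : Iso V (ext V h) = univ := by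
      rw [eq_univ_iff_forall]
      intro z
      refine ⟨(h.symm z).1, V, hVo, ?_⟩
      apply Set.Subset.antisymm
      · intro y hy
        rw [mem_singleton_iff]
        refine fib_sub V h z hy.2 ⟨(h.symm z).2, ?_⟩
        rw [mem_preimage, mem_singleton_iff, ext_apply V h _ (h.symm z).2]
        exact h.apply_symm_apply z
      · intro y hy
        rw [mem_singleton_iff] at hy
        subst hy
        refine ⟨(h.symm z).2, (h.symm z).2, ?_⟩
        rw [mem_preimage, mem_singleton_iff, ext_apply V h _ (h.symm z).2]
        exact h.apply_symm_apply z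
    rw [this]
    exact not_isMeagre_of_isOpen isOpen_univ univ_nonempty

end EASY

theorem t_EASY : S_EASY := by
  intro X _ _ hX hn
  exact ⟨EASY.countMaps X hX, EASY.lightMap X hX hn⟩

end CTO
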