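import Pool.Agent.CTO.Stmts2
import Pool.Agent.CTO.EASY

/-!
# MP_6eac38_gt, module EASY2: a compact metric 3-manifold contains a closed set of dimension 3
with a countable-to-one map into `ℝ³`
-/

set_option autoImplicit false

namespace CTO

open Set Topology

namespace EASY2

/-- a compact metric 3-manifold is a finite union of closed sets contained in charts -/
theorem cover (X : Type) [MetricSpace X] [CompactSpace X] (hX : IsMfd3 X) :
    ∃ (m : ℕ) (F : Fin m → Set X), (∀ j, IsClosed (F j)) ∧ (⋃ j, F j) = univ ∧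
      ∀ j, ∃ g : X → R3, ContinuousOn g (F j) ∧ InjOn g (F j) := by
  have hc := hX.2.2
  choose V hVo hxV hV using hc
  have hball : ∀ x : X, ∃ ε : ℝ, 0 < ε ∧ Metric.closedBall x ε ⊆ V x := by
    intro x
    exact Metric.nhds_basis_closedBall.mem_iff.1 ((hVo x).mem_nhds (hxV x))
  choose ε hε hεV using hball
  obtain ⟨t, ht⟩ := isCompact_univ.elim_nhds_subcover (fun x => Metric.ball x (ε x))
    (fun x _ => Metric.ball_mem_nhds x (hε x))
  have ht2 := ht.2
  refine ⟨t.card, fun j => Metric.closedBall (t.equivFin.symm j).1 (ε (t.equivFin.symm j).1),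
    fun j => Metric.isClosed_closedBall, ?_, ?_⟩
  · rw [eq_univ_iff_forall]
    intro y
    have hy := ht2 (mem_univ y)
    rw [mem_iUnion₂] at hy
    obtain ⟨x, hxt, hyx⟩ := hy
    rw [mem_iUnion]
    refine ⟨t.equivFin ⟨x, hxt⟩, ?_⟩
    rw [Equiv.symm_apply_apply]
    exact Metric.ball_subset_closedBall hyx
  · intro j
    obtain ⟨hx⟩ := hV (t.equivFin.symm j).1
    exact ⟨EASY.ext _ hx, (EASY.ext_cont _ hx).mono (hεV _), (EASY.ext_inj _ hx).mono (hεV _)⟩

end EASY2

theorem t_EASY2 : M_EASY2 := by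
  intro hsum X _ _ hX hn
  obtain ⟨m, F, hF, hU, hg⟩ := EASY2.cover X hX
  have hex : ∃ j, ¬ ShrLE (F j) 2 := by
    by_contra hcon
    push Not at hcon
    exact hn (hsum X 2 m F hF hU hcon)
  obtain ⟨j, hj⟩ := hex
  obtain ⟨g, hgc, hgi⟩ := hg j
  refine ⟨F j, hF j, hj, fun x => g x.1, continuousOn_iff_continuous_domRestrict.1 hgc, ?_⟩
  intro z
  refine Set.Subsingleton.countable ?_
  intro x hx y hy
  apply Subtype.ext
  refine hgi x.2 y.2 ?_
  have h1 : g x.1 = z := hx
  have h2 : g y.1 = z := hy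
  rw [h1, h2]

end CTO
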