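import Pool.Agent.CTO.Stmts

/-!
# Module ED: large fibres
-/

set_option autoImplicit false

namespace CTO

open Set Topology

namespace ED

/-- a finite union of closed sets with empty interior has empty interior -/
theorem interior_biUnion {ι : Type} {t : Set ι} (ht : t.Finite) (s : ι → Set R3)
    (hc : ∀ i ∈ t, IsClosed (s i)) (hi : ∀ i ∈ t, interior (s i) = ∅) :
    interior (⋃ i ∈ t, s i) = ∅ := by
  have h : IsClosed (⋃ i ∈ t, s i) ∧ interior (⋃ i ∈ t, s i) = ∅ := by
    induction t, ht using Set.Finite.induction_on with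
    | empty => simp
    | @insert a t _ _ ih =>
      obtain ⟨h1, h2⟩ := ih (fun i hi' => hc i (mem_insert_of_mem _ hi'))
        (fun i hi' => hi i (mem_insert_of_mem _ hi'))
      rw [biUnion_insert]
      refine ⟨(hc a (mem_insert _ _)).union h1, ?_⟩
      rw [interior_union_isClosed_of_interior_empty (hc a (mem_insert _ _)) h2]
      exact hi a (mem_insert _ _)
  exact h.2

end ED

open ED in
theorem t_ED : S_ED := by
  intro X _ V N g hN hNV hg hV δ hδ
  have hcl : IsClosed {z : R3 | ∃ a ∈ N, ∃ b ∈ N, g a = z ∧ g b = z ∧ δ ≤ dist a b} := by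
    have hNN : IsCompact (N ×ˢ N) := hN.prod hN
    have hf : ContinuousOn (fun p : X × X => (g p.1, g p.2)) (N ×ˢ N) := by
      refine ContinuousOn.prodMk ?_ ?_
      · exact hg.comp continuousOn_fst fun p hp => hp.1
      · exact hg.comp continuousOn_snd fun p hp => hp.2
    have h1 : IsClosed ((N ×ˢ N) ∩ (fun p : X × X => (g p.1, g p.2)) ⁻¹' diagonal R3) :=
      hf.preimage_isClosed_of_isClosed hNN.isClosed isClosed_diagonal
    have h2 : IsClosed {p : X × X | δ ≤ dist p.1 p.2} :=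
      isClosed_le continuous_const continuous_dist
    have h3 : IsCompact (((N ×ˢ N) ∩ (fun p : X × X => (g p.1, g p.2)) ⁻¹' diagonal R3) ∩
        {p : X × X | δ ≤ dist p.1 p.2}) :=
      hNN.of_isClosed_subset (h1.inter h2) fun p hp => hp.1.1
    have h4 : IsCompact ((fun p : X × X => g p.1) ''
        (((N ×ˢ N) ∩ (fun p : X × X => (g p.1, g p.2)) ⁻¹' diagonal R3) ∩
        {p : X × X | δ ≤ dist p.1 p.2})) := by
      refine h3.image_of_continuousOn ?_
      exact hg.comp continuousOn_fst fun p hp => hp.1.1.1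
    have h5 : {z : R3 | ∃ a ∈ N, ∃ b ∈ N, g a = z ∧ g b = z ∧ δ ≤ dist a b} =
        (fun p : X × X => g p.1) ''
        (((N ×ˢ N) ∩ (fun p : X × X => (g p.1, g p.2)) ⁻¹' diagonal R3) ∩
        {p : X × X | δ ≤ dist p.1 p.2}) := by
      ext z
      constructor
      · rintro ⟨a, ha, b, hb, e1, e2, e3⟩
        exact ⟨(a, b), ⟨⟨⟨ha, hb⟩, e1.trans e2.symm⟩, e3⟩, e1⟩
      · rintro ⟨⟨a, b⟩, ⟨⟨⟨ha, hb⟩, e1⟩, e3⟩, e2⟩
        have e1' : g a = g b := e1
        have e2' : g a = z := e2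
        exact ⟨a, ha, b, hb, e2', e1'.symm.trans e2', e3⟩
    rw [h5]
    exact h4.isClosed
  refine ⟨hcl, ?_⟩
  have he : 0 < δ / 5 := by positivity
  obtain ⟨t, -, htf, htc⟩ := hN.finite_cover_balls he
  have hB : ∀ x : X, IsCompact (N ∩ Metric.closedBall x (δ / 5)) := fun x =>
    hN.inter_right Metric.isClosed_closedBall
  have hgB : ∀ x : X, IsClosed (g '' (N ∩ Metric.closedBall x (δ / 5))) := fun x =>
    ((hB x).image_of_continuousOn (hg.mono inter_subset_left)).isClosed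
  have hfin : {p : X × X | (p.1 ∈ t ∧ p.2 ∈ t) ∧
      Disjoint (N ∩ Metric.closedBall p.1 (δ / 5)) (N ∩ Metric.closedBall p.2 (δ / 5))}.Finite :=
    (htf.prod htf).subset fun p hp => ⟨hp.1.1, hp.1.2⟩
  have hsub : {z : R3 | ∃ a ∈ N, ∃ b ∈ N, g a = z ∧ g b = z ∧ δ ≤ dist a b} ⊆
      ⋃ p ∈ {p : X × X | (p.1 ∈ t ∧ p.2 ∈ t) ∧
        Disjoint (N ∩ Metric.closedBall p.1 (δ / 5)) (N ∩ Metric.closedBall p.2 (δ / 5))},
        (g '' (N ∩ Metric.closedBall p.1 (δ / 5)) ∩ g '' (N ∩ Metric.closedBall p.2 (δ / 5))) := by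
    rintro z ⟨a, ha, b, hb, e1, e2, e3⟩
    obtain ⟨x, hx, hax⟩ := mem_iUnion₂.1 (htc ha)
    obtain ⟨y, hy, hby⟩ := mem_iUnion₂.1 (htc hb)
    rw [Metric.mem_ball] at hax hby
    rw [mem_iUnion₂]
    refine ⟨(x, y), ⟨⟨hx, hy⟩, ?_⟩, ⟨a, ⟨ha, ?_⟩, e1⟩, ⟨b, ⟨hb, ?_⟩, e2⟩⟩
    · rw [Set.disjoint_left]
      rintro c ⟨-, hc1⟩ ⟨-, hc2⟩
      rw [Metric.mem_closedBall] at hc1 hc2
      have h1 : dist a b ≤ dist a x + dist x c + dist c y + dist y b :=
        calc dist a b ≤ dist a y + dist y b := dist_triangle _ _ _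
          _ ≤ (dist a c + dist c y) + dist y b := by gcongr; exact dist_triangle _ _ _
          _ ≤ ((dist a x + dist x c) + dist c y) + dist y b := by gcongr; exact dist_triangle _ _ _
      rw [dist_comm x c, dist_comm y b] at h1
      simp only at hc1 hc2
      linarith
    · rw [Metric.mem_closedBall]; exact hax.le
    · rw [Metric.mem_closedBall]; exact hby.le
  have hemp := interior_biUnion hfin
    (fun p => g '' (N ∩ Metric.closedBall p.1 (δ / 5)) ∩ g '' (N ∩ Metric.closedBall p.2 (δ / 5)))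
    (fun p _ => (hgB p.1).inter (hgB p.2))
    (fun p hp => hV _ _ (hB p.1) (hB p.2) (inter_subset_left.trans hNV)
      (inter_subset_left.trans hNV) hp.2)
  exact subset_empty_iff.1 ((interior_mono hsub).trans hemp.subset)

end CTO
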