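import Pool.Agent.CTO.Stmts2

/-!
# MP_6eac38_gt, module EFF: a weak form of Effros' theorem
-/

set_option autoImplicit false

namespace CTO

open Set Topology

namespace EFF

variable {X : Type} [MetricSpace X]

/-- the orbit of `p` under the homeomorphisms near the identity -/
def A (p : X) (ε : ℝ) : Set X := {y | ∃ h : X ≃ₜ X, (∀ x, dist (h x) x < ε) ∧ h p = y}

theorem symm_lt {ε : ℝ} {h : X ≃ₜ X} (hh : ∀ x, dist (h x) x < ε) (x : X) :
    dist (h.symm x) x < ε := by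
  have h1 := hh (h.symm x)
  rw [h.apply_symm_apply, dist_comm] at h1
  exact h1

/-- countably many homeomorphisms that are dense for the uniform distance of the inverses -/
theorem exists_dense [CompactSpace X] {ε : ℝ} (hε : 0 < ε) :
    ∃ D : Set (X ≃ₜ X), D.Countable ∧ ∀ g : X ≃ₜ X, ∃ g' ∈ D, ∀ x, dist (g'.symm x) (g.symm x) < ε := by
  let Ψ : (X ≃ₜ X) → C(X, X) := fun g => ⟨g.symm, g.symm.continuous⟩
  obtain ⟨D, hD1, hD2⟩ := TopologicalSpace.exists_countable_dense (Set.range Ψ)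
  choose! φ hφ using fun t : Set.range Ψ => t.2
  refine ⟨φ '' D, hD1.image φ, fun g => ?_⟩
  obtain ⟨t, ht, htd⟩ := Metric.dense_iff.1 hD2 ⟨Ψ g, g, rfl⟩ ε hε
  refine ⟨φ t, ⟨t, htd, rfl⟩, fun x => ?_⟩
  rw [Metric.mem_ball, Subtype.dist_eq, ← hφ t] at ht
  exact lt_of_le_of_lt (ContinuousMap.dist_apply_le_dist (f := Ψ (φ t)) (g := Ψ g) x) ht

end EFF

/-- Module EFF. -/
theorem t_EFF : S_EFF := by
  intro X _ _ hX p ε hε
  have hε2 : 0 < ε / 2 := half_pos hε
  obtain ⟨D, hD1, hD2⟩ := EFF.exists_dense (X := X) hε2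
  have : Nonempty X := ⟨p⟩
  have : Countable D := hD1.to_subtype
  have hcov : (⋃ g : D, closure ((g : X ≃ₜ X) '' EFF.A p (ε / 2))) = univ := by
    rw [eq_univ_iff_forall]
    intro y
    obtain ⟨g, hg⟩ := hX p y
    obtain ⟨g', hg', hlt⟩ := hD2 g
    rw [mem_iUnion]
    refine ⟨⟨g', hg'⟩, subset_closure ?_⟩
    refine ⟨g'.symm (g p), ⟨g.trans g'.symm, fun x => ?_, rfl⟩, ?_⟩
    · have h1 := hlt (g x)
      rw [g.symm_apply_apply] at h1
      exact h1
    · rw [hg]
      exact g'.apply_symm_apply y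
  obtain ⟨g, hg⟩ := nonempty_interior_of_iUnion_of_closed (fun _ => isClosed_closure) hcov
  rw [← Homeomorph.image_closure, ← Homeomorph.image_interior, image_nonempty] at hg
  obtain ⟨z, hz⟩ := hg
  obtain ⟨y0, hy0, hy0A⟩ := mem_closure_iff.1 (interior_subset hz) _ isOpen_interior hz
  obtain ⟨h0, hh0, rfl⟩ := hy0A
  have h1 : p ∈ h0.symm '' interior (closure (EFF.A p (ε / 2))) :=
    ⟨h0 p, hy0, h0.symm_apply_apply p⟩
  rw [Homeomorph.image_interior, Homeomorph.image_closure] at h1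
  refine interior_mono (closure_mono ?_) h1
  rintro _ ⟨_, ⟨h, hh, rfl⟩, rfl⟩
  refine ⟨h.trans h0.symm, fun x => ?_, rfl⟩
  have h2 := EFF.symm_lt hh0 (h x)
  have h3 := hh x
  have h4 := dist_triangle (h0.symm (h x)) (h x) x
  change dist (h0.symm (h x)) x < ε
  linarith

end CTO
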