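import Pool.Agent.CTO.Stmts

/-!
# MP_6eac38_gt: factorisation up to homotopy (module FACT)
-/

set_option autoImplicit false

namespace CTO

open Set Topology

namespace FACT

/-- a lower bound for the norms on a compact set -/
theorem exists_lower {P : Type} [MetricSpace P] [CompactSpace P] (Q : Set P) (f : P → R3)
    (hQ : IsClosed Q) (hf : ContinuousOn f Q) (h0 : ∀ x ∈ Q, f x ≠ 0) :
    ∃ η : ℝ, 0 < η ∧ ∀ x ∈ Q, η ≤ ‖f x‖ := by
  rcases Q.eq_empty_or_nonempty with h | h
  · exact ⟨1, one_pos, by simp [h]⟩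
  · obtain ⟨x, hx, hm⟩ := hQ.isCompact.exists_isMinOn h hf.norm
    exact ⟨‖f x‖, norm_pos_iff.mpr (h0 x hx), fun y hy => hm hy⟩

/-- distinct points of a finite set have distances bounded below -/
theorem finite_sep {S : Set R3} (hS : S.Finite) :
    ∃ ε : ℝ, 0 < ε ∧ ∀ a ∈ S, ∀ b ∈ S, dist a b < ε → a = b := by
  have hf : (S.offDiag).Finite := hS.offDiag
  rcases (S.offDiag).eq_empty_or_nonempty with h | h
  · refine ⟨1, one_pos, fun a ha b hb _ => ?_⟩
    by_contra hab
    have : (a, b) ∈ S.offDiag := ⟨ha, hb, hab⟩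
    rw [h] at this
    exact this
  · obtain ⟨p, hp, hm⟩ := Set.exists_min_image _ (fun p : R3 × R3 => dist p.1 p.2) hf h
    refine ⟨dist p.1 p.2, dist_pos.mpr hp.2.2, fun a ha b hb hd => ?_⟩
    by_contra hab
    have := hm (a, b) ⟨ha, hb, hab⟩
    simp only at this
    linarith

/-- a locally constant function with finite range is locally constant at a uniform scale -/
theorem unif_const {P : Type} [MetricSpace P] [CompactSpace P] (A : Set P) (w : P → R3)
    (hA : IsCompact A) (hw : ContinuousOn w A) (hr : (range w).Finite) :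
    ∃ δ : ℝ, 0 < δ ∧ ∀ x ∈ A, ∀ y ∈ A, dist x y < δ → w x = w y := by
  obtain ⟨ε, hε, h1⟩ := finite_sep hr
  have hu := hA.uniformContinuousOn_of_continuous hw
  rw [Metric.uniformContinuousOn_iff] at hu
  obtain ⟨δ, hδ, h2⟩ := hu ε hε
  exact ⟨δ, hδ, fun x hx y hy hd => h1 _ ⟨x, rfl⟩ _ ⟨y, rfl⟩ (h2 x hx y hy hd)⟩

/-- a direction off finitely many planes -/
theorem exists_off {W : Set R3} (hW : W.Finite) :
    ∃ q : R3, ∀ a ∈ W, ∀ b ∈ W, q ∉ Submodule.span ℝ {a, b} := by
  classical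
  have hf : (W ×ˢ W).Finite := hW.prod hW
  let s : Finset (Submodule ℝ R3) :=
    hf.toFinset.image fun p : R3 × R3 => Submodule.span ℝ {p.1, p.2}
  have hs : ⊤ ∉ s := by
    intro h
    obtain ⟨p, _, h1⟩ := Finset.mem_image.mp h
    have h2 : Module.finrank ℝ (Submodule.span ℝ ({p.1, p.2} : Set R3)) ≤ 2 := by
      have h3 := finrank_span_finset_le_card (R := ℝ) ({p.1, p.2} : Finset R3)
      have h4 := Finset.card_le_two (a := p.1) (b := p.2)
      have h5 : ((({p.1, p.2} : Finset R3)) : Set R3) = {p.1, p.2} := by simp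
      rw [h5] at h3
      exact h3.trans h4
    rw [h1, finrank_top] at h2
    simp at h2
  have h1 := Subspace.biUnion_ne_univ_of_top_notMem hs
  obtain ⟨q, hq⟩ := (Set.ne_univ_iff_exists_notMem _).mp h1
  refine ⟨q, fun a ha b hb hc => hq ?_⟩
  simp only [mem_iUnion]
  refine ⟨Submodule.span ℝ {a, b}, ?_, hc⟩
  exact Finset.mem_image.mpr ⟨(a, b), hf.mem_toFinset.mpr ⟨ha, hb⟩, rfl⟩

/-- the set of points in at least three of finitely many closed sets is closed -/
theorem closed_three {k : ℕ} (A : Fin k → Set S2) (hA : ∀ i, IsClosed (A i)) :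
    IsClosed {v | 3 ≤ {i | v ∈ A i}.ncard} := by
  have h : {v | 3 ≤ {i | v ∈ A i}.ncard} =
      ⋃ s ∈ {s : Set (Fin k) | 3 ≤ s.ncard}, ⋂ i ∈ s, A i := by
    ext v
    simp only [mem_ofPred_eq, mem_iUnion, mem_iInter, exists_prop]
    constructor
    · intro h
      exact ⟨_, h, fun i hi => hi⟩
    · rintro ⟨s, hs, h1⟩
      exact hs.trans (Set.ncard_le_ncard (fun i hi => h1 i hi) (Set.toFinite _))
  rw [h]
  exact (Set.toFinite _).isClosed_biUnion fun s _ =>
    isClosed_biInter fun i _ => hA i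

/-- a map on a compact set which is constant on the fibres of `b` factors -/
theorem factor {P : Type} [MetricSpace P] [CompactSpace P] (Q : Set P) (b : P → S2)
    (h : P → R3) (hQ : IsClosed Q) (hb : Continuous b) (hc : ContinuousOn h Q)
    (hf : ∀ x ∈ Q, ∀ y ∈ Q, b x = b y → h x = h y) :
    ∃ G : S2 → R3, ContinuousOn G (b '' Q) ∧ ∀ x ∈ Q, G (b x) = h x := by
  classical
  let G : S2 → R3 := fun v => if hv : ∃ x ∈ Q, b x = v then h hv.choose else 0
  have hG : ∀ x ∈ Q, G (b x) = h x := by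
    intro x hx
    have hv : ∃ y ∈ Q, b y = b x := ⟨x, hx, rfl⟩
    simp only [G, dif_pos hv]
    exact hf _ hv.choose_spec.1 _ hx hv.choose_spec.2
  refine ⟨G, ?_, hG⟩
  rw [continuousOn_iff_isClosed]
  intro t ht
  obtain ⟨u, hu, hu2⟩ := (continuousOn_iff_isClosed.mp hc) t ht
  refine ⟨b '' (u ∩ Q), ((hu.inter hQ).isCompact.image hb).isClosed, ?_⟩
  ext v
  constructor
  · rintro ⟨h1, x, hx, rfl⟩
    have h2 : x ∈ h ⁻¹' t ∩ Q := ⟨by
      have h3 : G (b x) ∈ t := h1
      rw [hG x hx] at h3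
      exact h3, hx⟩
    rw [hu2] at h2
    exact ⟨⟨x, h2, rfl⟩, x, hx, rfl⟩
  · rintro ⟨⟨x, hx, rfl⟩, _⟩
    have h2 : x ∈ u ∩ Q := hx
    rw [← hu2] at h2
    refine ⟨?_, x, hx.2, rfl⟩
    show G (b x) ∈ t
    rw [hG x hx.2]
    exact h2.1

/-- the set of the values over which there are two points at distance at least `δ` is closed -/
theorem closed_E {P : Type} [MetricSpace P] [CompactSpace P] (Q : Set P) (b : P → S2)
    (hQ : IsClosed Q) (hb : Continuous b) (δ : ℝ) :
    IsClosed {v : S2 | ∃ x ∈ Q, ∃ y ∈ Q, b x = v ∧ b y = v ∧ δ ≤ dist x y} := by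
  have h : {v : S2 | ∃ x ∈ Q, ∃ y ∈ Q, b x = v ∧ b y = v ∧ δ ≤ dist x y} =
      (fun p : P × P => b p.1) '' ((Q ×ˢ Q) ∩ {p | b p.1 = b p.2} ∩ {p | δ ≤ dist p.1 p.2}) := by
    ext v
    constructor
    · rintro ⟨x, hx, y, hy, h1, h2, h3⟩
      exact ⟨(x, y), ⟨⟨⟨hx, hy⟩, by simp [h1, h2]⟩, h3⟩, h1⟩
    · rintro ⟨⟨x, y⟩, ⟨⟨⟨hx, hy⟩, h1⟩, h2⟩, h3⟩
      exact ⟨x, hx, y, hy, h3, by rw [← h3]; exact h1.symm, h2⟩
  rw [h]
  have h1 : IsClosed ((Q ×ˢ Q) ∩ {p : P × P | b p.1 = b p.2} ∩ {p | δ ≤ dist p.1 p.2}) :=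
    ((hQ.prod hQ).inter (isClosed_eq (hb.comp continuous_fst) (hb.comp continuous_snd))).inter
      (isClosed_le continuous_const continuous_dist)
  exact (h1.isCompact.image (hb.comp continuous_fst)).isClosed

/-- the average of the locally constant approximations -/
theorem cont_f1 {P : Type} [MetricSpace P] {k : ℕ} (Q : Set P) (b : P → S2) (hb : Continuous b)
    (φ : Fin k → C(S2, ℝ)) (N : Fin k → Set S2) (hN : ∀ i, IsOpen (N i))
    (hφ : ∀ i, tsupport (φ i) ⊆ N i) (w : Fin k → P → R3)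
    (hw : ∀ i, ContinuousOn (w i) (Q ∩ b ⁻¹' N i)) :
    ContinuousOn (fun x => ∑ i, φ i (b x) • w i x) Q := by
  apply continuousOn_finsetSum
  intro i _ x hx
  by_cases h : b x ∈ tsupport (φ i)
  · have h1 : b x ∈ N i := hφ i h
    have h2 : ContinuousWithinAt (w i) Q x := by
      have h3 := hw i x ⟨hx, h1⟩
      rwa [continuousWithinAt_inter ((hN i).preimage hb |>.mem_nhds h1)] at h3
    exact (((φ i).continuous.comp hb).continuousWithinAt).smul h2
  · have h1 : (fun x => φ i (b x) • w i x) =ᶠ[𝓝[Q] x] fun _ => (0 : R3) := by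
      have h2 : (tsupport (φ i))ᶜ ∈ 𝓝 (b x) := (isClosed_tsupport _).isOpen_compl.mem_nhds h
      have h3 : ∀ᶠ y in 𝓝 x, b y ∈ (tsupport (φ i))ᶜ := hb.continuousAt.eventually h2
      filter_upwards [nhdsWithin_le_nhds h3] with y hy
      rw [image_eq_zero_of_notMem_tsupport hy, zero_smul]
    have h4 : φ i (b x) • w i x = 0 := by
      rw [image_eq_zero_of_notMem_tsupport h, zero_smul]
    exact (continuousWithinAt_const (b := (0 : R3))).congr_of_eventuallyEq h1 h4

/-- convex combinations of close points are close -/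
theorem close_f1 {k : ℕ} (c : Fin k → ℝ) (hc : ∀ i, 0 ≤ c i) (hs : ∑ i, c i = 1)
    (u : Fin k → R3) (y : R3) (η : ℝ) (h : ∀ i, c i ≠ 0 → dist (u i) y ≤ η) :
    ‖(∑ i, c i • u i) - y‖ ≤ η := by
  have h1 : (∑ i, c i • u i) - y = ∑ i, c i • (u i - y) := by
    simp_rw [smul_sub]
    rw [Finset.sum_sub_distrib, ← Finset.sum_smul, hs, one_smul]
  rw [h1]
  calc ‖∑ i, c i • (u i - y)‖ ≤ ∑ i, ‖c i • (u i - y)‖ := norm_sum_le _ _
    _ ≤ ∑ i, c i * η := by
        apply Finset.sum_le_sum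
        intro i _
        rw [norm_smul, Real.norm_eq_abs, abs_of_nonneg (hc i)]
        by_cases h2 : c i = 0
        · rw [h2, zero_mul, zero_mul]
        · rw [← dist_eq_norm]
          exact mul_le_mul_of_nonneg_left (h i h2) (hc i)
    _ = η := by rw [← Finset.sum_mul, hs, one_mul]

end FACT

open FACT in
theorem t_FACT : M_FACT := by
  classical
  intro hD hCL P _ _ Q b f hQ hb htd hE hf h0
  obtain ⟨η, hη, hη1⟩ := exists_lower Q f hQ hf h0
  have hη2 : 0 < η / 2 := by linarith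
  choose N hN hvN w hwr hwc hwd using fun v => hCL P Q b f v hQ hb (htd v) hf (η / 2) hη2
  -- finitely many of the sets `N v`
  obtain ⟨t, ht⟩ := isCompact_univ.elim_finite_subcover N hN
    (fun v _ => mem_iUnion.mpr ⟨v, hvN v⟩)
  let k := t.card
  let e : Fin k ≃ t := t.equivFin.symm
  let N1 : Fin k → Set S2 := fun i => N (e i)
  let w1 : Fin k → P → R3 := fun i => w (e i)
  have hN1 : ∀ i, IsOpen (N1 i) := fun i => hN _
  have hcov : (⋃ i, N1 i) = univ := by
    apply eq_univ_of_univ_subset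
    intro v hv
    have := ht hv
    simp only [mem_iUnion] at this
    obtain ⟨u, hu, hv2⟩ := this
    refine mem_iUnion.mpr ⟨e.symm ⟨u, hu⟩, ?_⟩
    simpa [N1] using hv2
  obtain ⟨O, hOu, hO, hOc⟩ := exists_iUnion_eq_closure_subset hN1
    (fun x => Set.toFinite _) hcov
  -- the scale
  have hδ : ∀ i, ∃ δ : ℝ, 0 < δ ∧ ∀ x ∈ Q ∩ b ⁻¹' closure (O i), ∀ y ∈ Q ∩ b ⁻¹' closure (O i),
      dist x y < δ → w1 i x = w1 i y := by
    intro i
    apply unif_const
    · exact (hQ.inter (isClosed_closure.preimage hb)).isCompact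
    · exact (hwc (e i)).mono (inter_subset_inter_right _ (preimage_mono (hOc i)))
    · exact hwr _
  choose δ0 hδ0 hδ1 using hδ
  obtain ⟨δ, hδ, hδ2⟩ : ∃ δ : ℝ, 0 < δ ∧ ∀ i, δ ≤ δ0 i := by
    rcases isEmpty_or_nonempty (Fin k) with h | h
    · exact ⟨1, one_pos, fun i => (h.false i).elim⟩
    · obtain ⟨i, hi⟩ := Finite.exists_min δ0
      exact ⟨δ0 i, hδ0 i, hi⟩
  let E : Set S2 := {v : S2 | ∃ x ∈ Q, ∃ y ∈ Q, b x = v ∧ b y = v ∧ δ ≤ dist x y}
  have hEc : IsClosed E := closed_E Q b hQ hb δ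
  obtain ⟨O', hO', hO'O, hO'u, hO'2⟩ := hD E hEc (hE δ hδ) k O hO hOu
  obtain ⟨φ, hφ⟩ := PartitionOfUnity.exists_isSubordinate (isClosed_univ (X := S2)) O' hO'
    (by rw [hO'u])
  have hsum : ∀ v, ∑ i, φ i v = 1 := by
    intro v
    have := φ.sum_eq_one (mem_univ v)
    rwa [finsum_eq_sum_of_fintype] at this
  have hnn : ∀ i v, 0 ≤ φ i v := fun i v => φ.nonneg i v
  have hts : ∀ i, tsupport (φ i) ⊆ O' i := hφ
  have hO'N : ∀ i, O' i ⊆ N1 i := fun i => (hO'O i).trans (subset_closure.trans (hOc i))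
  have hmem : ∀ i v, φ i v ≠ 0 → v ∈ tsupport (φ i) := fun i v h =>
    subset_tsupport _ h
  -- the first approximation
  let f1 : P → R3 := fun x => ∑ i, φ i (b x) • w1 i x
  have hf1c : ContinuousOn f1 Q :=
    cont_f1 Q b hb (fun i => φ i) N1 hN1 (fun i => (hts i).trans (hO'N i)) w1 (fun i => hwc _)
  have hf1d : ∀ x ∈ Q, ‖f1 x - f x‖ ≤ η / 2 := by
    intro x hx
    apply close_f1 _ (fun i => hnn i (b x)) (hsum (b x))
    intro i hi
    exact (hwd (e i) x ⟨hx, hO'N i (hts i (hmem i _ hi))⟩).le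
  have hf10 : ∀ x ∈ Q, f1 x ≠ 0 := by
    intro x hx h
    have h1 := hf1d x hx
    rw [h, zero_sub, norm_neg] at h1
    have h2 := hη1 x hx
    linarith
  -- the exceptional direction
  obtain ⟨q, hq⟩ := exists_off (W := ⋃ i, range (w1 i)) (Set.finite_iUnion fun i => hwr _)
  let T : Set S2 := {v | 3 ≤ {i | v ∈ tsupport (φ i)}.ncard}
  have hT : IsClosed T := closed_three _ fun i => isClosed_tsupport _
  have hTE : Disjoint T E := by
    rw [Set.disjoint_left]
    intro v hv hvE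
    have h1 : {i | v ∈ tsupport (φ i)}.ncard ≤ {i | v ∈ O' i}.ncard :=
      Set.ncard_le_ncard (fun i hi => hts i hi) (Set.toFinite _)
    have h2 := hO'2 v hvE
    have h3 : 3 ≤ {i | v ∈ tsupport (φ i)}.ncard := hv
    omega
  obtain ⟨μ, hμT, hμE, hμ⟩ := exists_continuous_zero_one_of_isClosed hT hEc hTE
  have hspan : ∀ x ∈ Q, b x ∉ T → ∃ a ∈ ⋃ i, range (w1 i), ∃ c ∈ ⋃ i, range (w1 i),
      f1 x ∈ Submodule.span ℝ {a, c} := by
    intro x hx hT1
    have h1 : {i | b x ∈ tsupport (φ i)}.ncard ≤ 2 := by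
      have : ¬ 3 ≤ {i | b x ∈ tsupport (φ i)}.ncard := hT1
      omega
    let S : Finset (Fin k) := Finset.univ.filter fun i => φ i (b x) ≠ 0
    have hS : S.card ≤ 2 := by
      have h2 : (S : Set (Fin k)) ⊆ {i | b x ∈ tsupport (φ i)} := by
        intro i hi
        have : φ i (b x) ≠ 0 := by simpa [S] using hi
        exact hmem i _ this
      have h3 := Set.ncard_le_ncard h2 (Set.toFinite _)
      rw [Set.ncard_coe_finset] at h3
      omega
    have hne : Nonempty (Fin k) := by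
      by_contra h
      rw [not_nonempty_iff] at h
      have := hsum (b x)
      simp at this
    obtain ⟨i, j, hij⟩ : ∃ i j, S ⊆ {i, j} := by
      rcases Nat.lt_or_ge S.card 2 with h | h
      · rcases Nat.lt_or_ge S.card 1 with h' | h'
        · have : S = ∅ := Finset.card_eq_zero.mp (by omega)
          obtain ⟨i⟩ := hne
          exact ⟨i, i, by simp [this]⟩
        · obtain ⟨i, hi⟩ := Finset.card_eq_one.mp (show S.card = 1 by omega)
          exact ⟨i, i, by simp [hi]⟩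
      · obtain ⟨i, j, _, hij⟩ := Finset.card_eq_two.mp (show S.card = 2 by omega)
        exact ⟨i, j, by rw [hij]⟩
    refine ⟨w1 i x, mem_iUnion.mpr ⟨i, x, rfl⟩, w1 j x, mem_iUnion.mpr ⟨j, x, rfl⟩, ?_⟩
    apply Submodule.sum_mem
    intro l _
    by_cases hl : φ l (b x) = 0
    · rw [hl, zero_smul]
      exact Submodule.zero_mem _
    · have h2 : l ∈ S := by simp [S, hl]
      have h3 := hij h2
      rw [Finset.mem_insert, Finset.mem_singleton] at h3
      apply Submodule.smul_mem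
      rcases h3 with rfl | rfl
      · exact Submodule.subset_span (by simp)
      · exact Submodule.subset_span (by simp)
  -- the second map
  let f2 : P → R3 := fun x => (1 - μ (b x)) • f1 x - μ (b x) • q
  have hf2c : ContinuousOn f2 Q := by
    have h1 : ContinuousOn (fun x => μ (b x)) Q := (μ.continuous.comp hb).continuousOn
    exact ((continuousOn_const.sub h1).smul hf1c).sub (h1.smul continuousOn_const)
  have hkey : ∀ x ∈ Q, ∀ s : ℝ, 0 ≤ s → (s ≠ 0 → b x ∉ T) → (1 - s) • f1 x - s • q ≠ 0 := by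
    intro x hx s hs hsT h
    by_cases hs0 : s = 0
    · rw [hs0] at h
      simp only [sub_zero, one_smul, zero_smul] at h
      exact hf10 x hx h
    · obtain ⟨a, ha, c, hc, hac⟩ := hspan x hx (hsT hs0)
      apply hq a ha c hc
      have h1 : s • q = (1 - s) • f1 x := (sub_eq_zero.mp h).symm
      have h2 : q = s⁻¹ • ((1 - s) • f1 x) := by
        rw [← h1, smul_smul, inv_mul_cancel₀ hs0, one_smul]
      rw [h2]
      exact Submodule.smul_mem _ _ (Submodule.smul_mem _ _ hac)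
  have hμT1 : ∀ x, μ (b x) ≠ 0 → b x ∉ T := by
    intro x h1 h2
    exact h1 (hμT h2)
  have hf2f : ∀ x ∈ Q, ∀ y ∈ Q, b x = b y → f2 x = f2 y := by
    intro x hx y hy hxy
    by_cases hv : b x ∈ E
    · have h1 : μ (b x) = 1 := hμE hv
      have h2 : μ (b y) = 1 := by rw [← hxy]; exact h1
      show (1 - μ (b x)) • f1 x - μ (b x) • q = (1 - μ (b y)) • f1 y - μ (b y) • q
      rw [h1, h2]
      simp
    · have h1 : dist x y < δ := by
        by_contra h
        exact hv ⟨x, hx, y, hy, rfl, hxy.symm, not_lt.mp h⟩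
      have h2 : f1 x = f1 y := by
        show ∑ i, φ i (b x) • w1 i x = ∑ i, φ i (b y) • w1 i y
        apply Finset.sum_congr rfl
        intro i _
        rw [← hxy]
        by_cases h3 : φ i (b x) = 0
        · rw [h3, zero_smul, zero_smul]
        · have h4 : b x ∈ closure (O i) := subset_closure (hO'O i (hts i (hmem i _ h3)))
          congr 1
          apply hδ1 i x ⟨hx, h4⟩ y ⟨hy, by rw [mem_preimage, ← hxy]; exact h4⟩
          exact h1.trans_le (hδ2 i)
      show (1 - μ (b x)) • f1 x - μ (b x) • q = (1 - μ (b y)) • f1 y - μ (b y) • q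
      rw [← hxy, h2]
  obtain ⟨G, hGc, hG⟩ := factor Q b f2 hQ hb hf2c hf2f
  refine ⟨f1, G, hf1c, hGc, ?_, ?_, ?_⟩
  · rintro v ⟨x, hx, rfl⟩
    rw [hG x hx]
    exact hkey x hx (μ (b x)) (hμ (b x)).1 (hμT1 x)
  · intro x hx t ht0 ht1 h
    have h1 : f x = -(t • (f1 x - f x)) := by
      have : (1 - t) • f x + t • f1 x = f x + t • (f1 x - f x) := by
        rw [sub_smul, one_smul, smul_sub]
        abel
      rw [this] at h
      exact eq_neg_of_add_eq_zero_left h
    have h2 := hη1 x hx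
    rw [h1, norm_neg, norm_smul, Real.norm_eq_abs, abs_of_nonneg ht0] at h2
    have h3 := hf1d x hx
    have h4 := norm_nonneg (f1 x - f x)
    nlinarith
  · intro x hx t ht0 ht1
    rw [hG x hx]
    have h1 : (1 - t) • f1 x + t • f2 x =
        (1 - t * μ (b x)) • f1 x - (t * μ (b x)) • q := by
      show (1 - t) • f1 x + t • ((1 - μ (b x)) • f1 x - μ (b x) • q) = _
      module
    rw [h1]
    apply hkey x hx _ (mul_nonneg ht0 (hμ (b x)).1)
    intro h2
    exact hμT1 x (fun h3 => h2 (by rw [h3, mul_zero]))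

end CTO
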