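import Pool.Agent.CTO.Stmts

/-!
# Module GRID (MP_6eac38_gt): the square grid
-/

set_option autoImplicit false

namespace CTO

open Set Topology

namespace GRID

/-- the plane -/
abbrev E2 : Type := EuclideanSpace ℝ (Fin 2)

theorem exists_shift (E : Set E2) (hE : IsCompact E) (hint : interior E = ∅) (s : ℝ) :
    ∃ t : E2, ∀ i j : ℤ, t + !₂[s * i, s * j] ∉ E := by
  have h1 : Dense (⋂ z : ℤ × ℤ, (fun t : E2 => t + !₂[s * z.1, s * z.2]) ⁻¹' Eᶜ) := by
    apply dense_iInter_of_isOpen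
    · intro z
      exact hE.isClosed.isOpen_compl.preimage (continuous_id.add continuous_const)
    · intro z
      apply (interior_eq_empty_iff_dense_compl.1 hint).preimage
      exact isOpenMap_add_right _
  obtain ⟨t, ht⟩ := h1.nonempty
  refine ⟨t, fun i j => ?_⟩
  exact mem_iInter.1 ht (i, j)

/-- the function which vanishes exactly at the vertices -/
noncomputable def ff (s : ℝ) (t p : E2) : ℝ :=
  max |Real.sin (Real.pi * ((p 0 - t 0) / s))| |Real.sin (Real.pi * ((p 1 - t 1) / s))|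

theorem ff_cont (s : ℝ) (t : E2) : Continuous (ff s t) := by
  unfold ff
  fun_prop

theorem sin_zero (s x : ℝ) (hs : 0 < s) (h : Real.sin (Real.pi * (x / s)) = 0) :
    ∃ i : ℤ, x = s * i := by
  obtain ⟨n, hn⟩ := Real.sin_eq_zero_iff.1 h
  refine ⟨n, ?_⟩
  have h1 : (n : ℝ) = x / s := by
    have := Real.pi_pos
    have h2 : Real.pi * n = Real.pi * (x / s) := by linarith
    exact mul_left_cancel₀ this.ne' h2
  rw [h1]
  field_simp

theorem ff_pos (s : ℝ) (hs : 0 < s) (t p : E2) (h : ∀ i j : ℤ, p ≠ t + !₂[s * i, s * j]) :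
    0 < ff s t p := by
  unfold ff
  by_contra hle
  have h1 : |Real.sin (Real.pi * ((p 0 - t 0) / s))| = 0 :=
    le_antisymm (le_trans (le_max_left _ _) (not_lt.1 hle)) (abs_nonneg _)
  have h2 : |Real.sin (Real.pi * ((p 1 - t 1) / s))| = 0 :=
    le_antisymm (le_trans (le_max_right _ _) (not_lt.1 hle)) (abs_nonneg _)
  obtain ⟨i, hi⟩ := sin_zero s _ hs (abs_eq_zero.1 h1)
  obtain ⟨j, hj⟩ := sin_zero s _ hs (abs_eq_zero.1 h2)
  apply h i j
  ext k
  fin_cases k
  · simp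
    linarith
  · simp
    linarith

theorem sin_le (s x τ : ℝ) (hs : 0 < s) (i : ℤ) (h : |x - s * i| ≤ τ) :
    |Real.sin (Real.pi * (x / s))| ≤ Real.pi * τ / s := by
  have h1 : Real.pi * (x / s) = Real.pi * ((x - s * i) / s) + i * Real.pi := by
    field_simp
    ring
  rw [h1, Real.sin_add_int_mul_pi, abs_mul]
  have h2 : |((-1 : ℝ)) ^ i| = 1 := by
    rw [abs_zpow]
    simp
  rw [h2, one_mul]
  refine le_trans Real.abs_sin_le_abs ?_
  rw [abs_mul, abs_div, abs_of_pos Real.pi_pos, abs_of_pos hs, mul_div_assoc]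
  have := Real.pi_pos
  gcongr

/-- the intervals containing `a` -/
theorem two (s τ a : ℝ) (hs : 0 < s) (hτs : τ < s / 4) :
    ∃ i1 : ℤ, ∀ i : ℤ, s * i - τ < a → a < s * (i + 1) + τ → i = ⌊a / s⌋ ∨ i = i1 := by
  have h1 : s * ⌊a / s⌋ ≤ a := by
    have := Int.floor_le (a / s)
    rw [le_div_iff₀ hs] at this
    linarith
  have h2 : a < s * (⌊a / s⌋ + 1) := by
    have := Int.lt_floor_add_one (a / s)
    rw [div_lt_iff₀ hs] at this
    linarith
  generalize ⌊a / s⌋ = i0 at h1 h2 ⊢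
  refine ⟨if a < s * i0 + τ then i0 - 1 else i0 + 1, fun i h3 h4 => ?_⟩
  have h5 : i ≤ i0 + 1 := by
    by_contra h
    have h6 : (i0 : ℝ) + 2 ≤ i := by exact_mod_cast (by omega : i0 + 2 ≤ i)
    nlinarith
  have h7 : i0 - 1 ≤ i := by
    by_contra h
    have h6 : (i : ℝ) + 2 ≤ i0 := by exact_mod_cast (by omega : i + 2 ≤ i0)
    nlinarith
  rcases (by omega : i = i0 ∨ i = i0 + 1 ∨ i = i0 - 1) with h | h | h
  · exact Or.inl h
  · right
    rw [if_neg, h]
    intro h8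
    rw [h] at h3
    push_cast at h3
    nlinarith
  · right
    rw [if_pos, h]
    rw [h] at h4
    push_cast at h4
    linarith

theorem one (s τ a : ℝ) (hs : 0 < s) (hτs : τ < s / 4)
    (hfar : ∀ i : ℤ, τ < |a - s * i|) :
    ∀ i : ℤ, s * i - τ < a → a < s * (i + 1) + τ → i = ⌊a / s⌋ := by
  have h1 : s * ⌊a / s⌋ ≤ a := by
    have := Int.floor_le (a / s)
    rw [le_div_iff₀ hs] at this
    linarith
  have h2 : a < s * (⌊a / s⌋ + 1) := by
    have := Int.lt_floor_add_one (a / s)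
    rw [div_lt_iff₀ hs] at this
    linarith
  generalize ⌊a / s⌋ = i0 at h1 h2 ⊢
  intro i h3 h4
  have h5 : i ≤ i0 + 1 := by
    by_contra h
    have h6 : (i0 : ℝ) + 2 ≤ i := by exact_mod_cast (by omega : i0 + 2 ≤ i)
    nlinarith
  have h7 : i0 - 1 ≤ i := by
    by_contra h
    have h6 : (i : ℝ) + 2 ≤ i0 := by exact_mod_cast (by omega : i + 2 ≤ i0)
    nlinarith
  rcases (by omega : i = i0 ∨ i = i0 + 1 ∨ i = i0 - 1) with h | h | h
  · exact h
  · exfalso
    have h8 := hfar (i0 + 1)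
    rw [h] at h3
    push_cast at h3 h8
    rw [abs_of_nonpos (by linarith)] at h8
    linarith
  · exfalso
    have h8 := hfar i0
    rw [h] at h4
    push_cast at h4
    rw [abs_of_nonneg (by linarith)] at h8
    linarith

/-- the squares -/
def Q (s τ : ℝ) (t : E2) (z : ℤ × ℤ) : Set E2 :=
  {p | s * z.1 - τ < p 0 - t 0 ∧ p 0 - t 0 < s * (z.1 + 1) + τ ∧
    s * z.2 - τ < p 1 - t 1 ∧ p 1 - t 1 < s * (z.2 + 1) + τ}

theorem Q_open (s τ : ℝ) (t : E2) (z : ℤ × ℤ) : IsOpen (Q s τ t z) := by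
  have h0 : Continuous fun p : E2 => p 0 - t 0 := by fun_prop
  have h1 : Continuous fun p : E2 => p 1 - t 1 := by fun_prop
  exact (isOpen_lt continuous_const h0).inter ((isOpen_lt h0 continuous_const).inter
    ((isOpen_lt continuous_const h1).inter (isOpen_lt h1 continuous_const)))

theorem Q_diam (s τ : ℝ) (hs : 0 < s) (hτs : τ < s / 4) (t : E2) (z : ℤ × ℤ) (p q : E2)
    (hp : p ∈ Q s τ t z) (hq : q ∈ Q s τ t z) : dist p q < 4 * s := by
  obtain ⟨p1, p2, p3, p4⟩ := hp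
  obtain ⟨q1, q2, q3, q4⟩ := hq
  rw [EuclideanSpace.dist_eq, Fin.sum_univ_two, Real.dist_eq, Real.dist_eq,
    Real.sqrt_lt' (by linarith), sq_abs, sq_abs]
  have h1 : |p 0 - q 0| < 2 * s := by
    rw [abs_lt]
    constructor <;> nlinarith
  have h2 : |p 1 - q 1| < 2 * s := by
    rw [abs_lt]
    constructor <;> nlinarith
  have h3 := abs_lt.1 h1
  have h4 := abs_lt.1 h2
  nlinarith

end GRID

open GRID in
theorem t_GRID : S_GRID := by
  intro E hE hint ε hε
  set s : ℝ := ε / 4 with hs'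
  have hs : 0 < s := by positivity
  obtain ⟨t, ht⟩ := exists_shift E hE hint s
  rcases E.eq_empty_or_nonempty with rfl | hne
  · exact ⟨0, fun i => i.elim0, fun i => i.elim0, fun i => i.elim0, by simp, by simp⟩
  obtain ⟨p0, hp0, hmin⟩ := hE.exists_isMinOn hne (ff_cont s t).continuousOn
  have hμ : 0 < ff s t p0 := ff_pos s hs t p0 fun i j h => ht i j (h ▸ hp0)
  set μ := ff s t p0 with hμ'
  have hpi := Real.pi_pos
  set τ : ℝ := min (s / 8) (μ * s / (2 * Real.pi)) with hτ'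
  have hτ : 0 < τ := by
    rw [hτ', lt_min_iff]
    constructor <;> positivity
  have hτs : τ < s / 4 := lt_of_le_of_lt (min_le_left _ _) (by linarith)
  have hτμ : Real.pi * τ / s < μ := by
    have h1 : τ ≤ μ * s / (2 * Real.pi) := min_le_right _ _
    rw [div_lt_iff₀ hs]
    calc Real.pi * τ ≤ Real.pi * (μ * s / (2 * Real.pi)) := by gcongr
      _ = μ * s / 2 := by field_simp
      _ < μ * s := by
        have : 0 < μ * s := by positivity
        linarith
  -- bounds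
  obtain ⟨B, hB⟩ := hE.isBounded.exists_norm_le
  have hc : ∀ p : E2, ∀ k : Fin 2, |p k| ≤ ‖p‖ := by
    intro p k
    have := PiLp.norm_apply_le p k
    simpa using this
  obtain ⟨M, hM⟩ : ∃ M : ℤ, (B + ‖t‖) / s + 1 < M := by
    obtain ⟨n, hn⟩ := exists_nat_gt ((B + ‖t‖) / s + 1)
    exact ⟨n, by exact_mod_cast hn⟩
  have hfl : ∀ p ∈ E, ∀ k : Fin 2, ⌊(p k - t k) / s⌋ ∈ Finset.Icc (-M) M := by
    intro p hp k
    have h1 : |(p k - t k) / s| ≤ (B + ‖t‖) / s := by
      rw [abs_div, abs_of_pos hs]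
      gcongr
      calc |p k - t k| ≤ |p k| + |t k| := abs_sub _ _
        _ ≤ B + ‖t‖ := add_le_add ((hc p k).trans (hB p hp)) (hc t k)
    have h2 := abs_le.1 h1
    rw [Finset.mem_Icc, Int.le_floor]
    constructor
    · push_cast
      linarith
    · have h3 : (⌊(p k - t k) / s⌋ : ℝ) ≤ M := by
        have := Int.floor_le ((p k - t k) / s)
        linarith
      exact_mod_cast h3
  set F : Finset (ℤ × ℤ) := Finset.Icc (-M) M ×ˢ Finset.Icc (-M) M with hF
  let e := F.equivFin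
  refine ⟨F.card, fun k => Q s τ t (e.symm k).1, fun k => Q_open _ _ _ _, ?_, ?_, ?_⟩
  · intro k p hp q hq
    have := Q_diam s τ hs hτs t _ p q hp hq
    have h4 : 4 * s = ε := by rw [hs']; ring
    linarith
  · intro p hp
    have hz : (⌊(p 0 - t 0) / s⌋, ⌊(p 1 - t 1) / s⌋) ∈ F :=
      Finset.mem_product.2 ⟨hfl p hp 0, hfl p hp 1⟩
    refine mem_iUnion.2 ⟨e ⟨_, hz⟩, ?_⟩
    show p ∈ Q s τ t (e.symm (e ⟨_, hz⟩)).1
    rw [Equiv.symm_apply_apply]
    have h1 : ∀ a : ℝ, s * ⌊a / s⌋ ≤ a := by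
      intro a
      have := Int.floor_le (a / s)
      rw [le_div_iff₀ hs] at this
      linarith
    have h2 : ∀ a : ℝ, a < s * (⌊a / s⌋ + 1) := by
      intro a
      have := Int.lt_floor_add_one (a / s)
      rw [div_lt_iff₀ hs] at this
      linarith
    have a1 := h1 (p 0 - t 0)
    have a2 := h2 (p 0 - t 0)
    have a3 := h1 (p 1 - t 1)
    have a4 := h2 (p 1 - t 1)
    refine ⟨?_, ?_, ?_, ?_⟩
    · show s * (⌊(p 0 - t 0) / s⌋ : ℝ) - τ < _
      linarith
    · show _ < s * ((⌊(p 0 - t 0) / s⌋ : ℝ) + 1) + τ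
      linarith
    · show s * (⌊(p 1 - t 1) / s⌋ : ℝ) - τ < _
      linarith
    · show _ < s * ((⌊(p 1 - t 1) / s⌋ : ℝ) + 1) + τ
      linarith
  · intro p hp
    obtain ⟨i1, hi1⟩ := two s τ (p 0 - t 0) hs hτs
    obtain ⟨j1, hj1⟩ := two s τ (p 1 - t 1) hs hτs
    have hfar : (∀ i : ℤ, τ < |(p 0 - t 0) - s * i|) ∨ (∀ j : ℤ, τ < |(p 1 - t 1) - s * j|) := by
      by_contra h
      push Not at h
      obtain ⟨⟨i, hi⟩, j, hj⟩ := h
      have h1 := sin_le s _ τ hs i hi
      have h2 := sin_le s _ τ hs j hj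
      have h3 : ff s t p ≤ Real.pi * τ / s := max_le h1 h2
      have h4 : μ ≤ ff s t p := hmin hp
      linarith
    have key : ∃ z0 z1 : ℤ × ℤ, ∀ z : ℤ × ℤ, p ∈ Q s τ t z → z = z0 ∨ z = z1 := by
      rcases hfar with hf | hf
      · refine ⟨(⌊(p 0 - t 0) / s⌋, ⌊(p 1 - t 1) / s⌋), (⌊(p 0 - t 0) / s⌋, j1), ?_⟩
        rintro ⟨i, j⟩ ⟨q1, q2, q3, q4⟩
        have h1 := one s τ _ hs hτs hf i q1 q2
        rcases hj1 j q3 q4 with h2 | h2
        · left; rw [h1, h2]
        · right; rw [h1, h2]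
      · refine ⟨(⌊(p 0 - t 0) / s⌋, ⌊(p 1 - t 1) / s⌋), (i1, ⌊(p 1 - t 1) / s⌋), ?_⟩
        rintro ⟨i, j⟩ ⟨q1, q2, q3, q4⟩
        have h1 := one s τ _ hs hτs hf j q3 q4
        rcases hi1 i q1 q2 with h2 | h2
        · left; rw [h1, h2]
        · right; rw [h1, h2]
    obtain ⟨z0, z1, hz⟩ := key
    refine le_trans (Set.ncard_le_ncard_of_injOn (t := {z0, z1}) (fun k => (e.symm k).1) ?_ ?_
      (by simp)) ?_
    · intro k hk
      rcases hz _ hk with h | h
      · exact Or.inl h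
      · exact Or.inr h
    · intro k _ k' _ hkk
      exact e.symm.injective (Subtype.ext hkk)
    · refine le_trans (Set.ncard_insert_le _ _) ?_
      simp

end CTO
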