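import Pool.Agent.CTO.Stmts

/-!
# MP_6eac38_gt, module LEMX: the extension lemma
-/

set_option autoImplicit false

namespace CTO

open Set Topology

theorem t_LEMX : M_LEMX := by
  intro hHEP hSPH hFACT P _ _ Q b f hQ hb hfib hint hf hf0
  obtain ⟨f1, G, hf1, hG, hG0, h01, h12⟩ := hFACT P Q b f hQ hb hfib hint hf hf0
  have hC : IsClosed (b '' Q) := (hQ.isCompact.image hb).isClosed
  obtain ⟨G', hG'c, hG'0, hG'e⟩ := hSPH (b '' Q) G hC hG hG0
  have hGb : ContinuousOn (fun x => G (b x)) Q :=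
    hG.comp hb.continuousOn (fun x hx => mem_image_of_mem b hx)
  obtain ⟨F', hF'c, hF'0, hF'e⟩ := hHEP P Q f1 (fun x => G (b x)) (fun x => G' (b x)) hQ hf1 hGb
    h12 (hG'c.comp hb) (fun x => hG'0 (b x)) (fun x hx => hG'e (mem_image_of_mem b hx))
  exact hHEP P Q f f1 F' hQ hf hf1 h01 hF'c hF'0 hF'e

end CTO
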