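import Pool.Agent.CTO.Stmts

/-!
# MP_6eac38_gt: the main theorem from the modules (module MAIN)
-/

set_option autoImplicit false

namespace CTO

open Set Topology

theorem t_MAIN : M_MAIN := by
  intro hSHR hOBS0 hOBS1 hOBSH hBAI1 hBAI2 hOPEN hMAN hEASY X _ _ hX h3 h2
  have h3' : ShrLE X 3 := (hSHR X 3).mp h3
  have h2' : ¬ ShrLE X 2 := fun h => h2 ((hSHR X 2).mpr h)
  obtain ⟨x0, hx0⟩ := hOBS1 X (hOBS0 X h3' h2')
  have hobs : ∀ x, ObsAt X x := hOBSH X hX x0 hx0
  have hne : Nonempty X := ⟨x0⟩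
  -- from a generically injective light map to a manifold
  have hmain : ∀ (V : Set X) (g : X → R3), IsOpen V → V.Nonempty → ContinuousOn g V →
      (∀ z, IsTotallyDisconnected (V ∩ g ⁻¹' {z})) → GenInj V g → IsMfd3 X :=
    fun V g hV hVn hg htd hG =>
      hMAN X hX V g hV hVn hg hG (hOPEN X hobs V g hV hg htd hG)
  refine ⟨⟨fun h => (hEASY X h hne).1, ?_⟩, ⟨fun h => (hEASY X h hne).2, ?_⟩⟩
  · rintro ⟨F, hF, hU, hg⟩
    obtain ⟨i, hi⟩ := nonempty_interior_of_iUnion_of_closed hF hU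
    obtain ⟨g, hgc, hgf⟩ := hg i
    have hc : ∀ z, (interior (F i) ∩ g ⁻¹' {z}).Countable := fun z =>
      (hgf z).mono (inter_subset_inter_left _ interior_subset)
    obtain ⟨V, hVF, hV, hVn, hG⟩ := hBAI2 X (interior (F i)) g isOpen_interior hi
      (hgc.mono interior_subset) hc
    refine hmain V g hV hVn (hgc.mono (hVF.trans interior_subset)) (fun z => ?_) hG
    exact ((hc z).mono (inter_subset_inter_left _ hVF)).isTotallyDisconnected
  · rintro ⟨U, g, hU, hUn, hgc, htd, hiso⟩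
    by_contra hM
    apply hiso
    apply hBAI1 X U g hU hgc
    intro V hVU hV hVn hG
    apply hM
    refine hmain V g hV hVn (hgc.mono hVU) (fun z => ?_) hG
    intro s hs hs2
    exact htd z s (hs.trans (inter_subset_inter_left _ hVU)) hs2

end CTO
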