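import Pool.Agent.CTO.Stmts2

/-!
# MP_6eac38_gt: the second main theorem from the modules
-/

set_option autoImplicit false

namespace CTO

open Set Topology

theorem t_MAIN2 : M_MAIN2 := by
  intro hSHR hSUBD hCELLS hCELL2 hMAN2 hEASY2
  refine ⟨?_, ?_⟩
  · intro K _ _ h3 h2 hg
    exact hCELLS K ((hSHR K 3).mp h3) (fun h => h2 ((hSHR K 2).mpr h)) hg
  · intro X _ _ hA hX h3 h2
    constructor
    · intro h
      obtain ⟨K, hK, hK2, hg⟩ := hEASY2 X h (fun h' => h2 ((hSHR X 2).mpr h'))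
      exact ⟨K, hK, fun h' => hK2 ((hSHR K 2).mp h'), hg⟩
    · rintro ⟨K, hK, hK2, hg⟩
      have : CompactSpace K := isCompact_iff_compactSpace.mp hK.isCompact
      obtain ⟨e, he, hi⟩ := hCELLS K (hSUBD X 3 K hK ((hSHR X 3).mp h3))
        (fun h => hK2 ((hSHR K 2).mpr h)) hg
      have he' : ContinuousOn (fun v => (e v : X)) (Icc (-1) 1) :=
        continuous_subtype_val.comp_continuousOn he
      have hi' : InjOn (fun v => (e v : X)) (Icc (-1) 1) :=
        fun a ha b hb h => hi ha hb (Subtype.val_injective h)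
      exact hMAN2 X hX _ he' hi' (hCELL2 X hA hX ((hSHR X 3).mp h3) _ he' hi')

end CTO
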