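import Pool.Agent.CTO.Stmts2

/-!
# MAN2: a homogeneous compact space in which the centre of a 3-cell is an interior point of the cell
is a 3-manifold
-/

set_option autoImplicit false

namespace CTO

open Set Topology

namespace MAN2

/-- an open ball of `Fin 3 → ℝ` is homeomorphic to `R3` -/
theorem ball_homeo (z : Fin 3 → ℝ) (r : ℝ) (hr : 0 < r) : Nonempty (Metric.ball z r ≃ₜ R3) := by
  let e := OpenPartialHomeomorph.univBall z r
  have hs : e.source = univ := OpenPartialHomeomorph.univBall_source z r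
  have ht : e.target = Metric.ball z r := OpenPartialHomeomorph.univBall_target z hr
  exact ⟨(Homeomorph.setCongr ht.symm).trans (e.toHomeomorphSourceTarget.symm.trans
    ((Homeomorph.setCongr hs).trans ((Homeomorph.Set.univ (Fin 3 → ℝ)).trans
      (EuclideanSpace.equiv (Fin 3) ℝ).symm.toHomeomorph)))⟩

theorem local_homeo {X : Type} [MetricSpace X] [CompactSpace X] (e : (Fin 3 → ℝ) → X)
    (he : ContinuousOn e (Icc (-1) 1)) (hi : InjOn e (Icc (-1) 1))
    (h0 : e 0 ∈ interior (e '' Icc (-1) 1)) :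
    ∃ V0 : Set X, IsOpen V0 ∧ e 0 ∈ V0 ∧ Nonempty (V0 ≃ₜ R3) := by
  have hBc : IsCompact (Icc (-1 : Fin 3 → ℝ) 1) := isCompact_Icc
  have hb1 : Metric.ball (0 : Fin 3 → ℝ) 1 ⊆ Icc (-1) 1 := by
    intro v hv
    rw [mem_ball_zero_iff, pi_norm_lt_iff one_pos] at hv
    constructor
    · intro i
      have := hv i
      rw [Real.norm_eq_abs, abs_lt] at this
      exact this.1.le
    · intro i
      have := hv i
      rw [Real.norm_eq_abs, abs_lt] at this
      exact this.2.le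
  have hO : IsOpen (Metric.ball (0 : Fin 3 → ℝ) 1 ∩ e ⁻¹' interior (e '' Icc (-1) 1)) :=
    (he.mono hb1).isOpen_inter_preimage Metric.isOpen_ball isOpen_interior
  obtain ⟨r, hr, hb⟩ := Metric.isOpen_iff.1 hO 0 ⟨Metric.mem_ball_self one_pos, h0⟩
  have hbB : Metric.ball (0 : Fin 3 → ℝ) r ⊆ Icc (-1) 1 := fun v hv => hb1 (hb hv).1
  have hV : e '' Metric.ball 0 r =
      interior (e '' Icc (-1) 1) \ e '' (Icc (-1) 1 \ Metric.ball 0 r) := by
    ext x
    constructor
    · rintro ⟨v, hv, rfl⟩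
      refine ⟨(hb hv).2, ?_⟩
      rintro ⟨u, hu, huv⟩
      exact hu.2 ((hi hu.1 (hbB hv) huv) ▸ hv)
    · rintro ⟨hx, hx2⟩
      obtain ⟨v, hv, rfl⟩ := interior_subset hx
      by_contra hc
      exact hx2 ⟨v, ⟨hv, fun hvb => hc ⟨v, hvb, rfl⟩⟩, rfl⟩
  have hopen : IsOpen (e '' Metric.ball 0 r) := by
    rw [hV]
    have hcomp : IsCompact (Icc (-1 : Fin 3 → ℝ) 1 \ Metric.ball 0 r) :=
      hBc.diff Metric.isOpen_ball
    exact isOpen_interior.sdiff (hcomp.image_of_continuousOn (he.mono sdiff_subset)).isClosed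
  refine ⟨e '' Metric.ball 0 r, hopen, ⟨0, Metric.mem_ball_self hr, rfl⟩, ?_⟩
  have : CompactSpace (Icc (-1 : Fin 3 → ℝ) 1) := isCompact_iff_compactSpace.1 hBc
  have hφ : IsClosedEmbedding ((Icc (-1 : Fin 3 → ℝ) 1).restrict e) :=
    Continuous.isClosedEmbedding (continuousOn_iff_continuous_restrict.1 he)
      (injOn_iff_injective.1 hi)
  have hemb : IsEmbedding (fun v : Metric.ball (0 : Fin 3 → ℝ) r => e v) :=
    hφ.isEmbedding.comp (IsEmbedding.inclusion hbB)
  have hrange : range (fun v : Metric.ball (0 : Fin 3 → ℝ) r => e v) = e '' Metric.ball 0 r := by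
    ext x
    constructor
    · rintro ⟨v, rfl⟩
      exact ⟨v, v.2, rfl⟩
    · rintro ⟨v, hv, rfl⟩
      exact ⟨⟨v, hv⟩, rfl⟩
  obtain ⟨E⟩ := ball_homeo (0 : Fin 3 → ℝ) r hr
  exact ⟨((hemb.toHomeomorph.trans (Homeomorph.setCongr hrange)).symm).trans E⟩

end MAN2

theorem t_MAN2 : S_MAN2 := by
  intro X _ _ hX e he hi h0
  refine ⟨inferInstance, inferInstance, ?_⟩
  obtain ⟨V0, hV0, hx00, ⟨E⟩⟩ := MAN2.local_homeo e he hi h0
  intro x
  obtain ⟨h, hh⟩ := hX x (e 0)
  refine ⟨h ⁻¹' V0, hV0.preimage h.continuous, by rw [mem_preimage, hh]; exact hx00, ?_⟩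
  exact ⟨(h.subtype (p := fun y => y ∈ h ⁻¹' V0) (q := fun y => y ∈ V0)
    (fun y => Iff.rfl)).trans E⟩

end CTO
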