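import Pool.Agent.CTO.Stmts

/-!
# MP_6eac38_gt, module OBS1: a minimal closed set with an obstruction
-/

set_option autoImplicit false

namespace CTO

open Set Topology

namespace OBS1

/-- Tietze's theorem for `ContinuousOn` -/
theorem tietze {X : Type} [MetricSpace X] {K : Set X} (hK : IsClosed K) {F : X → R3}
    (hF : ContinuousOn F K) : ∃ G : X → R3, Continuous G ∧ EqOn G F K := by
  haveI : TietzeExtension.{0, 0} R3 := TietzeExtension.of_tvs ℝ
  obtain ⟨g, hg⟩ := ContinuousMap.exists_restrict_eq hK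
    (⟨K.restrict F, continuousOn_iff_continuous_restrict.1 hF⟩ : C(K, R3))
  refine ⟨g, g.continuous, fun x hx => ?_⟩
  have h := congrArg (fun φ : C(K, R3) => φ ⟨x, hx⟩) hg
  exact h

theorem chain_inf {X : Type} [MetricSpace X] [CompactSpace X] {L : Set X} {f : X → R3}
    (c : Set (Set X)) (hc : ∀ K ∈ c, IsClosed K ∧ L ⊆ K ∧ ¬ Ext L K f)
    (hch : IsChain (· ⊆ ·) c) (hne : c.Nonempty) : ¬ Ext L (⋂₀ c) f := by
  rintro ⟨F, hF1, hF2, hF3⟩
  have hcl : IsClosed (⋂₀ c) := isClosed_sInter fun K hK => (hc K hK).1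
  obtain ⟨G, hG1, hG2⟩ := tietze hcl hF1
  have hU : IsClosed {x | G x = 0} := isClosed_eq hG1 continuous_const
  haveI : Nonempty c := hne.to_subtype
  obtain ⟨K, hK⟩ := hU.isCompact.elim_directed_family_closed (fun K : c => (K : Set X))
    (fun K => (hc K K.2).1) (by
      rw [← sInter_eq_iInter]
      ext x
      simp only [mem_inter_iff, mem_setOf_eq, mem_empty_iff_false, iff_false, not_and]
      intro h1 h2
      exact hF2 x h2 (by rw [← hG2 h2]; exact h1)) (by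
      intro A B
      rcases hch.total A.2 B.2 with h | h
      · exact ⟨A, subset_rfl, h⟩
      · exact ⟨B, h, subset_rfl⟩)
  refine (hc K K.2).2.2 ⟨G, hG1.continuousOn, ?_, ?_⟩
  · intro x hx h0
    have : x ∈ ({x | G x = 0} ∩ (K : Set X) : Set X) := ⟨h0, hx⟩
    rw [hK] at this
    exact this
  · intro x hx
    rw [hG2 (mem_sInter.2 fun K' hK' => (hc K' hK').2.1 hx)]
    exact hF3 hx

end OBS1

open OBS1 in
theorem t_OBS1 : S_OBS1 := by
  rintro X _ _ ⟨L, K, f, hL, hK, hLK, hf, hf0, hE⟩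
  obtain ⟨K', hK'K, hmin⟩ := zorn_superset_nonempty
    {K' : Set X | IsClosed K' ∧ L ⊆ K' ∧ ¬ Ext L K' f} (fun c hc hch hne =>
      ⟨⋂₀ c, ⟨isClosed_sInter fun A hA => (hc hA).1,
        subset_sInter fun A hA => (hc hA).2.1, chain_inf c (fun A hA => hc hA) hch hne⟩,
        fun A hA => sInter_subset_of_mem hA⟩) K ⟨hK, hLK, hE⟩
  obtain ⟨h1, h2, h3⟩ := hmin.prop
  have hne : ∃ x, x ∈ K' ∧ x ∉ L := by
    by_contra hcon
    push Not at hcon
    have e : K' = L := subset_antisymm hcon h2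
    apply h3
    rw [e]
    exact ⟨f, hf, hf0, fun _ _ => rfl⟩
  obtain ⟨x, hx1, hx2⟩ := hne
  refine ⟨x, L, K', f, hL, h1, h2, hx1, hx2, hf, hf0, h3, ?_⟩
  intro W hW hxW
  by_contra hcon
  have hmem : (K' \ W) ∪ L ∈ {K' : Set X | IsClosed K' ∧ L ⊆ K' ∧ ¬ Ext L K' f} :=
    ⟨(h1.sdiff hW).union hL, subset_union_right, hcon⟩
  have hsub : (K' \ W) ∪ L ⊆ K' := union_subset diff_subset h2
  have h4 := hmin.le_of_le hmem hsub
  rcases h4 hx1 with h5 | h5
  · exact h5.2 hxW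
  · exact hx2 h5

end CTO
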