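import Pool.Agent.CTO.Stmts2
import Pool.Agent.CTO.OBS1

/-!
# MP_6eac38_gt, module MIN: a minimal closed set, all of whose new points are obstruction points
-/

set_option autoImplicit false

namespace CTO

open Set Topology

open Classical in
theorem t_MIN : S_MIN := by
  rintro X _ _ ⟨L, K, f, hL, hK, hLK, hf, hf0, hE⟩
  obtain ⟨K', hK'K, hmin⟩ := zorn_superset_nonempty
    {K' : Set X | IsClosed K' ∧ L ⊆ K' ∧ ¬ Ext L K' f} (fun c hc hch hne =>
      ⟨⋂₀ c, ⟨isClosed_sInter fun A hA => (hc hA).1,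
        subset_sInter fun A hA => (hc hA).2.1, OBS1.chain_inf c (fun A hA => hc hA) hch hne⟩,
        fun A hA => sInter_subset_of_mem hA⟩) K ⟨hK, hLK, hE⟩
  obtain ⟨h1, h2, h3⟩ := hmin.prop
  have hne : ∃ x, x ∈ K' ∧ x ∉ L := by
    by_contra hcon
    push Not at hcon
    have e : K' = L := subset_antisymm hcon h2
    apply h3
    rw [e]
    exact ⟨f, hf, hf0, fun _ _ => rfl⟩
  obtain ⟨x0, hx1, hx2⟩ := hne
  refine ⟨K', Subtype.val ⁻¹' Lᶜ, h1, hL.isOpen_compl.preimage continuous_subtype_val,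
    ⟨⟨x0, hx1⟩, hx2⟩, ?_⟩
  intro x hx
  refine ⟨Subtype.val ⁻¹' L, univ, fun y => f y, hL.preimage continuous_subtype_val,
    isClosed_univ, subset_univ _, mem_univ _, hx, ?_, fun y hy => hf0 _ hy, ?_, ?_⟩
  · exact hf.comp continuous_subtype_val.continuousOn fun y hy => hy
  · rintro ⟨F, hF1, hF2, hF3⟩
    refine h3 ⟨fun y => if h : y ∈ K' then F ⟨y, h⟩ else 0, ?_, ?_, ?_⟩
    · rw [continuousOn_iff_continuous_domRestrict]
      refine (continuousOn_univ.1 hF1).congr fun y => ?_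
      have hy : (y : X) ∈ K' := y.2
      change F y = if h : (y : X) ∈ K' then F ⟨y, h⟩ else 0
      rw [dif_pos hy]
    · intro y hy
      simp only [dif_pos hy]
      exact hF2 _ (mem_univ _)
    · intro y hy
      simp only [dif_pos (h2 hy)]
      exact hF3 (show (⟨y, h2 hy⟩ : K') ∈ Subtype.val ⁻¹' L from hy)
  · intro W hW hxW
    obtain ⟨O, hO, rfl⟩ := isOpen_induced_iff.1 hW
    have hext : Ext L ((K' \ O) ∪ L) f := by
      by_contra hcon
      have hmem : (K' \ O) ∪ L ∈ {K' : Set X | IsClosed K' ∧ L ⊆ K' ∧ ¬ Ext L K' f} :=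
        ⟨(h1.sdiff hO).union hL, subset_union_right, hcon⟩
      have hsub : (K' \ O) ∪ L ⊆ K' := union_subset sdiff_subset h2
      have h4 := hmin.le_of_le hmem hsub
      rcases h4 x.2 with h5 | h5
      · exact h5.2 hxW
      · exact hx h5
    obtain ⟨F, hF1, hF2, hF3⟩ := hext
    have hmaps : ∀ y ∈ (univ \ Subtype.val ⁻¹' O) ∪ (Subtype.val ⁻¹' L : Set K'),
        (y : X) ∈ (K' \ O) ∪ L := by
      rintro y (hy | hy)
      · exact Or.inl ⟨y.2, hy.2⟩
      · exact Or.inr hy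
    refine ⟨fun y => F y, hF1.comp continuous_subtype_val.continuousOn hmaps,
      fun y hy => hF2 _ (hmaps y hy), fun y hy => hF3 hy⟩

end CTO
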