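import Pool.Agent.CTO.Stmts

/-!
# Module OBSH (MP_6eac38_gt): obstruction points are moved by homeomorphisms
-/

set_option autoImplicit false

namespace CTO

open Set Topology

namespace OBSH

theorem ext_image {X : Type} [TopologicalSpace X] (h : X ≃ₜ X) {L K : Set X} {f : X → R3}
    (H : Ext L K f) : Ext (h '' L) (h '' K) (f ∘ h.symm) := by
  obtain ⟨F, h1, h2, h3⟩ := H
  refine ⟨F ∘ h.symm, ?_, ?_, ?_⟩
  · apply h1.comp h.symm.continuous.continuousOn
    rintro _ ⟨x, hx, rfl⟩
    simpa using hx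
  · rintro _ ⟨x, hx, rfl⟩
    simpa using h2 x hx
  · rintro _ ⟨x, hx, rfl⟩
    simpa using h3 hx

theorem ext_of_image {X : Type} [TopologicalSpace X] (h : X ≃ₜ X) {L K : Set X} {f : X → R3}
    (H : Ext (h '' L) (h '' K) (f ∘ h.symm)) : Ext L K f := by
  have h1 := ext_image h.symm H
  have h2 : ∀ S : Set X, h.symm '' (h '' S) = S := by
    intro S
    rw [← Set.image_comp]
    simp
  have h3 : (f ∘ h.symm) ∘ h.symm.symm = f := by
    funext x
    simp
  rw [h2, h2, h3] at h1
  exact h1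

end OBSH

open OBSH in
theorem t_OBSH : S_OBSH := by
  intro X _ hX x hx y
  obtain ⟨h, rfl⟩ := hX x y
  obtain ⟨L, K, f, hL, hK, hLK, hxK, hxL, hf, hf0, hne, hW⟩ := hx
  refine ⟨h '' L, h '' K, f ∘ h.symm, h.isClosedMap _ hL, h.isClosedMap _ hK, image_mono hLK,
    mem_image_of_mem _ hxK, ?_, ?_, ?_, ?_, ?_⟩
  · rintro ⟨z, hz, hzx⟩
    rw [h.injective hzx] at hz
    exact hxL hz
  · apply hf.comp h.symm.continuous.continuousOn
    rintro _ ⟨z, hz, rfl⟩
    simpa using hz
  · rintro _ ⟨z, hz, rfl⟩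
    simpa using hf0 z hz
  · intro H
    exact hne (ext_of_image h H)
  · intro W hWo hxW
    have h1 := ext_image h (hW (h ⁻¹' W) (hWo.preimage h.continuous) hxW)
    have h2 : h '' ((K \ (h ⁻¹' W)) ∪ L) = ((h '' K) \ W) ∪ h '' L := by
      rw [image_union, image_diff h.injective, image_preimage_eq _ h.surjective]
    rw [h2] at h1
    exact h1

end CTO
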