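import Pool.Agent.CTO.Stmts

/-!
# POL: maps of the sphere into `ℝ³` are approximated by maps without zeros
-/

set_option autoImplicit false

namespace CTO

open Set Topology

namespace POL

/-- the algebra of the `C¹` functions -/
def Alg : Subalgebra ℝ C(R3, ℝ) where
  carrier := {g | ContDiff ℝ 1 (fun x => g x)}
  mul_mem' := by
    intro a b ha hb
    have ha' : ContDiff ℝ 1 (fun x => a x) := ha
    have hb' : ContDiff ℝ 1 (fun x => b x) := hb
    exact ha'.mul hb'
  add_mem' := by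
    intro a b ha hb
    have ha' : ContDiff ℝ 1 (fun x => a x) := ha
    have hb' : ContDiff ℝ 1 (fun x => b x) := hb
    exact ha'.add hb'
  algebraMap_mem' := by
    intro r
    change ContDiff ℝ 1 (fun _ : R3 => r)
    exact contDiff_const

theorem contDiff_coord (i : Fin 3) : ContDiff ℝ 1 (fun x : R3 => x i) :=
  (contDiff_euclidean (𝕜 := ℝ) (f := fun x : R3 => x)).1 contDiff_id i

theorem alg_sep : Alg.SeparatesPoints := by
  intro x y hxy
  have h1 : ∃ i, x i ≠ y i := by
    by_contra hcon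
    push Not at hcon
    exact hxy (by ext i; exact hcon i)
  obtain ⟨i, hi⟩ := h1
  exact ⟨fun z => z i, ⟨⟨fun z => z i, (contDiff_coord i).continuous⟩, contDiff_coord i, rfl⟩, hi⟩

/-- the parametrization of the sphere -/
noncomputable def par (x : EuclideanSpace ℝ (Fin 2)) : R3 :=
  WithLp.toLp 2 ![Real.cos (x 0) * Real.cos (x 1), Real.sin (x 0) * Real.cos (x 1), Real.sin (x 1)]

theorem par_contDiff : ContDiff ℝ 1 par := by
  have hc : ∀ i : Fin 2, ContDiff ℝ 1 (fun x : EuclideanSpace ℝ (Fin 2) => x i) :=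
    fun i => (contDiff_euclidean (𝕜 := ℝ) (f := fun x : EuclideanSpace ℝ (Fin 2) => x)).1
      contDiff_id i
  refine (contDiff_euclidean (𝕜 := ℝ)).2 ?_
  intro i
  fin_cases i
  · exact ((hc 0).cos).mul ((hc 1).cos)
  · exact ((hc 0).sin).mul ((hc 1).cos)
  · exact (hc 1).sin

theorem par_surj (v : S2) : ∃ x, par x = (v : R3) := by
  have h1 : ‖(v : R3)‖ = 1 := by
    have := v.2
    rw [mem_sphere_zero_iff_norm] at this
    exact this
  have h2 : (v : R3) 0 ^ 2 + (v : R3) 1 ^ 2 + (v : R3) 2 ^ 2 = 1 := by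
    have h3 := EuclideanSpace.norm_sq_eq (v : R3)
    rw [h1, Fin.sum_univ_three] at h3
    simp only [Real.norm_eq_abs, sq_abs] at h3
    linarith
  set a := (v : R3) 0 with ha
  set b := (v : R3) 1 with hb
  set c := (v : R3) 2 with hc
  have hc1 : -1 ≤ c ∧ c ≤ 1 := by
    constructor <;> nlinarith [sq_nonneg a, sq_nonneg b]
  let z : ℂ := ⟨a, b⟩
  have hz : ‖z‖ = Real.cos (Real.arcsin c) := by
    rw [Real.cos_arcsin]
    have h4 : ‖z‖ ^ 2 = 1 - c ^ 2 := by
      rw [← Complex.normSq_eq_norm_sq, Complex.normSq_apply]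
      change a * a + b * b = 1 - c ^ 2
      nlinarith
    rw [← h4, Real.sqrt_sq (norm_nonneg z)]
  refine ⟨WithLp.toLp 2 ![Complex.arg z, Real.arcsin c], ?_⟩
  ext i
  fin_cases i
  · change Real.cos (Complex.arg z) * Real.cos (Real.arcsin c) = a
    rw [← hz, mul_comm, Complex.norm_mul_cos_arg]
  · change Real.sin (Complex.arg z) * Real.cos (Real.arcsin c) = b
    rw [← hz, mul_comm, Complex.norm_mul_sin_arg]
  · change Real.sin (Real.arcsin c) = c
    exact Real.sin_arcsin hc1.1 hc1.2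

/-- approximation by a `C¹` map of the whole space -/
theorem approx (f : S2 → R3) (hf : Continuous f) (ε : ℝ) (hε : 0 < ε) :
    ∃ p : R3 → R3, ContDiff ℝ 1 p ∧ ∀ v : S2, dist (p v) (f v) < ε := by
  obtain ⟨f', hf'⟩ : ∃ f' : C(R3, R3), ∀ v : S2, f' v = f v := by
    obtain ⟨f', h⟩ := ContinuousMap.exists_restrict_eq (Metric.isClosed_sphere (x := (0 : R3))
      (ε := 1)) (⟨f, hf⟩ : C(S2, R3))
    refine ⟨f', fun v => ?_⟩
    have h1 := congrArg (fun k : C(S2, R3) => k v) h
    exact h1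
  have key : ∀ i : Fin 3, ∃ g : R3 → ℝ, ContDiff ℝ 1 g ∧
      ∀ v : S2, |g v - f v i| < ε / 2 := by
    intro i
    obtain ⟨g, hg, hgf⟩ :=
      ContinuousMap.exists_mem_subalgebra_near_continuous_of_isCompact_of_separatesPoints
        alg_sep (⟨fun x => f' x i, by fun_prop⟩ : C(R3, ℝ))
        (isCompact_sphere (0 : R3) 1) (half_pos hε)
    refine ⟨fun x => g x, hg, fun v => ?_⟩
    have h1 := hgf v v.2
    rw [Real.norm_eq_abs] at h1
    have h2 : ((⟨fun x => f' x i, by fun_prop⟩ : C(R3, ℝ)) : R3 → ℝ) v = f v i := by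
      change f' v i = f v i
      rw [hf' v]
    rw [h2] at h1
    exact h1
  choose g hg hgf using key
  refine ⟨fun x => WithLp.toLp 2 (fun i => g i x), (contDiff_euclidean (𝕜 := ℝ)).2 (fun i => hg i),
    fun v => ?_⟩
  rw [EuclideanSpace.dist_eq, Fin.sum_univ_three]
  have h3 : ∀ i, dist (g i v) (f v i) ^ 2 < (ε / 2) ^ 2 := by
    intro i
    rw [Real.dist_eq]
    have h4 := hgf i v
    have h5 := abs_nonneg (g i v - f v i)
    nlinarith
  have h0 := h3 0
  have h1 := h3 1
  have h2 := h3 2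
  change √(dist (g 0 v) (f v 0) ^ 2 + dist (g 1 v) (f v 1) ^ 2 + dist (g 2 v) (f v 2) ^ 2) < ε
  rw [Real.sqrt_lt' hε]
  nlinarith

end POL

theorem t_POL : S_POL := by
  intro f hf ε hε
  obtain ⟨p, hp, hpf⟩ := POL.approx f hf (ε / 2) (half_pos hε)
  have hdense : Dense (range (fun x => p (POL.par x)))ᶜ := by
    refine ContDiff.dense_compl_range_of_finrank_lt_finrank (hp.comp POL.par_contDiff) ?_
    simp
  obtain ⟨w, hw, hwd⟩ := hdense.exists_dist_lt 0 (half_pos hε)
  refine ⟨fun v => p v - w, ?_, ?_, ?_⟩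
  · exact (hp.continuous.comp continuous_subtype_val).sub continuous_const
  · intro v hv
    obtain ⟨x, hx⟩ := POL.par_surj v
    apply hw
    refine ⟨x, ?_⟩
    change p (POL.par x) = w
    rw [hx]
    exact sub_eq_zero.1 hv
  · intro v
    have h1 : dist (p v - w) (p v) < ε / 2 := by
      rw [dist_eq_norm, sub_sub_cancel_left, norm_neg]
      rwa [dist_zero_left] at hwd
    calc dist (p v - w) (f v) ≤ dist (p v - w) (p v) + dist (p v) (f v) := dist_triangle _ _ _
      _ < ε / 2 + ε / 2 := add_lt_add h1 (hpf v)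
      _ = ε := by ring

end CTO
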