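import Pool.Agent.CTO.Stmts

/-!
# Generic radius
-/

set_option autoImplicit false

namespace CTO

open Set Topology

namespace RAD

/-- the radii for which the piece `B` of the sphere is contained in `E` -/
def R (E : Set R3) (c : R3) (B : Set S2) : Set ℝ := {r | ∀ v ∈ B, c + r • (v : R3) ∈ E}

theorem closed_R {E : Set R3} (hE : IsClosed E) (c : R3) (B : Set S2) : IsClosed (R E c B) := by
  have e : R E c B = ⋂ v ∈ B, (fun r : ℝ => c + r • (v : R3)) ⁻¹' E := by
    ext r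
    simp only [R, mem_iInter, mem_preimage]
    rfl
  rw [e]
  exact isClosed_biInter fun v _ => hE.preimage (by fun_prop)

theorem interior_R {E : Set R3} (hE : interior E = ∅) (c : R3) {B : Set S2} (hB : IsOpen B)
    (hne : B.Nonempty) {a b : ℝ} (ha : 0 ≤ a) : interior (R E c B ∩ Icc a b) = ∅ := by
  rw [eq_empty_iff_forall_notMem]
  intro r hr
  have h1 : r ∈ interior (R E c B) ∩ Ioo a b := by
    rw [interior_inter, interior_Icc] at hr
    exact hr
  obtain ⟨O, hO, hOB⟩ := isOpen_induced_iff.1 hB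
  obtain ⟨v, hv⟩ := hne
  have hc : ContinuousOn (fun x : R3 => ‖x - c‖⁻¹ • (x - c)) {c}ᶜ := by
    have hc1 : ContinuousOn (fun x : R3 => ‖x - c‖) {c}ᶜ := by fun_prop
    have hc2 : ContinuousOn (fun x : R3 => x - c) {c}ᶜ := by fun_prop
    refine ContinuousOn.smul (ContinuousOn.inv₀ hc1 ?_) hc2
    intro x hx
    rw [norm_ne_zero_iff, sub_ne_zero]
    exact hx
  have h2 : IsOpen ({c}ᶜ ∩ (fun x : R3 => ‖x - c‖⁻¹ • (x - c)) ⁻¹' O) :=
    hc.isOpen_inter_preimage isOpen_compl_singleton hO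
  have h3 : IsOpen ((fun x : R3 => ‖x - c‖) ⁻¹' (interior (R E c B) ∩ Ioo a b)) :=
    (isOpen_interior.inter isOpen_Ioo).preimage (by fun_prop)
  have hsub : ({c}ᶜ ∩ (fun x : R3 => ‖x - c‖⁻¹ • (x - c)) ⁻¹' O) ∩
      ((fun x : R3 => ‖x - c‖) ⁻¹' (interior (R E c B) ∩ Ioo a b)) ⊆ E := by
    rintro x ⟨⟨hx1, hx2⟩, hx3⟩
    have hx4 : x - c ≠ 0 := by
      rw [sub_ne_zero]
      exact hx1
    have hx5 : ‖x - c‖ ≠ 0 := norm_ne_zero_iff.2 hx4
    have hS : ‖x - c‖⁻¹ • (x - c) ∈ Metric.sphere (0 : R3) 1 := by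
      rw [mem_sphere_zero_iff_norm, norm_smul, norm_inv, norm_norm, inv_mul_cancel₀ hx5]
    have hxB : (⟨‖x - c‖⁻¹ • (x - c), hS⟩ : S2) ∈ B := by
      rw [← hOB]
      exact hx2
    have h4 := (interior_subset hx3.1 : ‖x - c‖ ∈ R E c B) _ hxB
    have h5 : c + ‖x - c‖ • (((⟨‖x - c‖⁻¹ • (x - c), hS⟩ : S2)) : R3) = x := by
      simp only
      rw [smul_smul, mul_inv_cancel₀ hx5, one_smul]
      abel
    rwa [h5] at h4
  have hrpos : 0 < r := lt_of_le_of_lt ha h1.2.1
  have hvn : ‖(v : R3)‖ = 1 := mem_sphere_zero_iff_norm.1 v.2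
  have hnorm : ‖c + r • (v : R3) - c‖ = r := by
    rw [add_sub_cancel_left, norm_smul, hvn, mul_one, Real.norm_of_nonneg hrpos.le]
  have hmem : c + r • (v : R3) ∈ interior E := by
    refine (interior_maximal hsub (h2.inter h3)) ⟨⟨?_, ?_⟩, ?_⟩
    · intro h6
      rw [mem_singleton_iff] at h6
      rw [h6, sub_self, norm_zero] at hnorm
      exact hrpos.ne hnorm
    · change ‖c + r • (v : R3) - c‖⁻¹ • (c + r • (v : R3) - c) ∈ O
      rw [hnorm, add_sub_cancel_left, smul_smul, inv_mul_cancel₀ hrpos.ne', one_smul]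
      rw [← hOB] at hv
      exact hv
    · rw [mem_preimage, hnorm]
      exact h1
  rw [hE] at hmem
  exact hmem

end RAD

theorem t_RAD : S_RAD := by
  intro E hE hint c a b ha hab
  have hcount : (TopologicalSpace.countableBasis S2).Countable :=
    TopologicalSpace.countable_countableBasis S2
  have hcount2 : (TopologicalSpace.countableBasis S2 ×ˢ (univ : Set ℕ)).Countable :=
    hcount.prod countable_univ
  have hbasis := TopologicalSpace.isBasis_countableBasis S2
  have hdense : Dense (⋂ p ∈ (TopologicalSpace.countableBasis S2 ×ˢ (univ : Set ℕ)),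
      (RAD.R (E p.2) c p.1 ∩ Icc a b)ᶜ) := by
    refine dense_biInter_of_isOpen ?_ hcount2 ?_
    · intro p _
      exact ((RAD.closed_R (hE p.2) c p.1).inter isClosed_Icc).isOpen_compl
    · intro p hp
      rw [← interior_eq_empty_iff_dense_compl]
      refine RAD.interior_R (hint p.2) c (hbasis.isOpen hp.1) ?_ ha
      exact TopologicalSpace.nonempty_of_mem_countableBasis hp.1
  obtain ⟨r, hr1, hr2⟩ := hdense.exists_mem_open isOpen_Ioo (nonempty_Ioo.2 hab)
  refine ⟨r, hr2.1, hr2.2, ?_⟩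
  intro m
  rw [eq_empty_iff_forall_notMem]
  intro v hv
  obtain ⟨B, hB, hvB, hBsub⟩ := hbasis.exists_subset_of_mem_open hv isOpen_interior
  have h1 := mem_iInter₂.1 hr1 (B, m) ⟨hB, mem_univ _⟩
  apply h1
  refine ⟨?_, hr2.1.le, hr2.2.le⟩
  intro w hw
  exact (interior_subset (hBsub hw) : w ∈ {v : S2 | c + r • (v : R3) ∈ E m})

end CTO
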