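import Pool.Agent.CTO.Stmts

set_option autoImplicit false

namespace CTO

open Set Topology

theorem t_SEP : S_SEP := by
  intro X _ _ G g x hG hx hg htd
  obtain ⟨ε, hε, hball⟩ := Metric.nhds_basis_closedBall.mem_iff.1 (hG.mem_nhds hx)
  set Φ : Set X := Metric.closedBall x ε ∩ g ⁻¹' {g x} with hΦ
  have hΦc : IsClosed Φ :=
    (hg.mono hball).preimage_isClosed_of_isClosed Metric.isClosed_closedBall isClosed_singleton
  have hΦt : IsTotallyDisconnected Φ :=
    fun t ht hpre => htd t (ht.trans fun y hy => ⟨hball hy.1, hy.2⟩) hpre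
  have hxΦ : x ∈ Φ := ⟨Metric.mem_closedBall_self hε.le, rfl⟩
  have hK : CompactSpace Φ := isCompact_iff_compactSpace.1 hΦc.isCompact
  have hT : TotallyDisconnectedSpace Φ := (totallyDisconnectedSpace_subtype_iff).2 hΦt
  obtain ⟨V, hV, hxV, hVb⟩ := compact_exists_isClopen_in_isOpen
    (x := (⟨x, hxΦ⟩ : Φ)) (U := Subtype.val ⁻¹' Metric.ball x ε)
    (Metric.isOpen_ball.preimage continuous_subtype_val) (Metric.mem_ball_self hε)
  have hemb : IsClosedEmbedding (Subtype.val : Φ → X) := hΦc.isClosedEmbedding_subtypeVal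
  have h1 : IsClosed (Subtype.val '' V : Set X) := hemb.isClosedMap _ hV.1
  have h2 : IsClosed (Subtype.val '' Vᶜ : Set X) := hemb.isClosedMap _ hV.2.isClosed_compl
  obtain ⟨G1, hG1, hVG1, hG1c⟩ := normal_exists_closure_subset h1
    (Metric.isOpen_ball.inter h2.isOpen_compl : IsOpen (Metric.ball x ε ∩ (Subtype.val '' Vᶜ)ᶜ))
    (by
      rintro _ ⟨y, hy, rfl⟩
      refine ⟨hVb hy, ?_⟩
      rintro ⟨z, hz, hzy⟩
      exact hz (Subtype.ext hzy ▸ hy))
  have hG1G : closure G1 ⊆ G := fun y hy => hball (Metric.ball_subset_closedBall (hG1c hy).1)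
  refine ⟨G1, hG1, hVG1 ⟨_, hxV, rfl⟩, hG1G, ?_⟩
  have hne : ∀ y ∈ closure G1 \ G1, g y ≠ g x := by
    intro y hy he
    have hyΦ : y ∈ Φ := ⟨Metric.ball_subset_closedBall (hG1c hy.1).1, he⟩
    by_cases hyV : (⟨y, hyΦ⟩ : Φ) ∈ V
    · exact hy.2 (hVG1 ⟨_, hyV, rfl⟩)
    · exact (hG1c hy.1).2 ⟨_, hyV, rfl⟩
  have hcomp : IsCompact (closure G1 \ G1) := (isClosed_closure.sdiff hG1).isCompact
  rcases (closure G1 \ G1).eq_empty_or_nonempty with he | hne'
  · refine ⟨1, one_pos, fun y hy hy' => ?_⟩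
    have : y ∈ closure G1 \ G1 := ⟨hy, hy'⟩
    rw [he] at this
    exact this.elim
  · have hg' : ContinuousOn g (closure G1 \ G1) := hg.mono (sdiff_subset.trans hG1G)
    have hc : ContinuousOn (fun y => dist (g y) (g x)) (closure G1 \ G1) :=
      continuous_dist.comp_continuousOn (hg'.prodMk continuousOn_const)
    obtain ⟨y0, hy0, hmin⟩ := hcomp.exists_isMinOn hne' hc
    refine ⟨dist (g y0) (g x), dist_pos.2 (hne y0 hy0), fun y hy hy' => ?_⟩
    exact hmin ⟨hy, hy'⟩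

end CTO
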