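import Pool.Agent.CTO.Stmts

set_option autoImplicit false

namespace CTO

open Set Topology

theorem t_SPH : M_SPH := by
  intro hHEP hPOL C f hC hf h0
  -- Tietze
  obtain ⟨f', hf'⟩ : ∃ f' : C(S2, R3), ∀ v ∈ C, f' v = f v := by
    let g : C(C, R3) := ⟨C.domRestrict f, continuousOn_iff_continuous_domRestrict.1 hf⟩
    obtain ⟨f', h⟩ := ContinuousMap.exists_restrict_eq hC g
    refine ⟨f', fun v hv => ?_⟩
    have h1 := congrArg (fun k : C(C, R3) => k ⟨v, hv⟩) h
    exact h1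
  -- a lower bound
  obtain ⟨η, hη, hηf⟩ : ∃ η : ℝ, 0 < η ∧ ∀ v ∈ C, η ≤ ‖f v‖ := by
    rcases C.eq_empty_or_nonempty with rfl | hne
    · exact ⟨1, one_pos, fun v hv => absurd hv (notMem_empty v)⟩
    · obtain ⟨v, hv, hmin⟩ := hC.isCompact.exists_isMinOn hne hf.norm
      exact ⟨‖f v‖, norm_pos_iff.2 (h0 v hv), fun w hw => hmin hw⟩
  obtain ⟨p, hp, hp0, hpf⟩ := hPOL f' f'.continuous η hη
  refine hHEP S2 C f p p hC hf hp.continuousOn ?_ hp hp0 (fun v _ => rfl)
  intro v hv t ht0 ht1 hz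
  have h1 : f v = t • (f v - p v) := by
    have h2 : (1 - t) • f v + t • p v = f v - t • (f v - p v) := by
      rw [sub_smul, one_smul, smul_sub]
      abel
    rw [h2] at hz
    exact sub_eq_zero.1 hz
  have h3 : ‖f v‖ = t * ‖f v - p v‖ := by
    conv_lhs => rw [h1]
    rw [norm_smul, Real.norm_eq_abs, abs_of_nonneg ht0]
  have h4 : ‖f v - p v‖ < η := by
    have h5 := hpf v
    rw [dist_eq_norm, hf' v hv] at h5
    rwa [norm_sub_rev] at h5
  have h6 := hηf v hv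
  have h7 : t * ‖f v - p v‖ ≤ 1 * ‖f v - p v‖ := by gcongr
  linarith

end CTO
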