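import Pool.Agent.CTO.Stmts2

/-!
# MP_6eac38_gt: closed subspaces
-/

set_option autoImplicit false

namespace CTO

open Set Topology

theorem t_SUBD : S_SUBD := by
  intro X _ n K hK hX k U hU hc
  rcases Nat.eq_zero_or_pos k with rfl | hk
  · refine ⟨U, hU, fun i => subset_rfl, hc, fun x => ?_⟩
    have : {i : Fin 0 | x ∈ U i} = ∅ := Set.eq_empty_of_forall_notMem fun i => i.elim0
    rw [this, ncard_empty]
    exact Nat.zero_le _
  choose O hO hOU using fun i => isOpen_induced_iff.1 (hU i)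
  obtain ⟨V, hV, hVO, hVc, hVn⟩ := hX k (fun i => O i ∪ Kᶜ)
    (fun i => (hO i).union hK.isOpen_compl) (by
      rw [eq_univ_iff_forall]
      intro x
      by_cases hx : x ∈ K
      · have h1 : (⟨x, hx⟩ : K) ∈ ⋃ i, U i := by
          rw [hc]
          trivial
        obtain ⟨i, hi⟩ := mem_iUnion.1 h1
        rw [← hOU i] at hi
        exact mem_iUnion.2 ⟨i, Or.inl hi⟩
      · exact mem_iUnion.2 ⟨⟨0, hk⟩, Or.inr hx⟩)
  refine ⟨fun i => Subtype.val ⁻¹' V i, fun i => (hV i).preimage continuous_subtype_val,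
    fun i x hx => ?_, ?_, fun x => hVn x⟩
  · rw [← hOU i]
    rcases hVO i hx with h | h
    · exact h
    · exact absurd x.2 h
  · rw [eq_univ_iff_forall]
    intro x
    have h1 : (x : X) ∈ ⋃ i, V i := by
      rw [hVc]
      trivial
    obtain ⟨i, hi⟩ := mem_iUnion.1 h1
    exact mem_iUnion.2 ⟨i, hi⟩

end CTO
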