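import Pool.Agent.CTO.Stmts2

/-!
# Module SUM: the finite sum theorem for the covering dimension (with shrinkings)
-/

set_option autoImplicit false

namespace CTO

open Set Topology

namespace SUM

/-- one step: a shrinking with small order at the points of a closed set of small dimension -/
theorem step {X : Type} [TopologicalSpace X] {n : ℕ} {A : Set X} (hA : IsClosed A)
    (hS : ShrLE A n) {k : ℕ} (U : Fin k → Set X) (hU : ∀ i, IsOpen (U i))
    (hc : (⋃ i, U i) = univ) :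
    ∃ V : Fin k → Set X, (∀ i, IsOpen (V i)) ∧ (∀ i, V i ⊆ U i) ∧ (⋃ i, V i) = univ ∧
      ∀ x ∈ A, {i | x ∈ V i}.ncard ≤ n + 1 := by
  obtain ⟨G, hG1, hG2, hG3, hG4⟩ := hS k (fun i => (Subtype.val : A → X) ⁻¹' (U i))
    (fun i => (hU i).preimage continuous_subtype_val) (by
      rw [eq_univ_iff_forall]
      intro x
      have hx : (x : X) ∈ ⋃ i, U i := by rw [hc]; exact mem_univ _
      obtain ⟨i, hi⟩ := mem_iUnion.1 hx
      exact mem_iUnion.2 ⟨i, hi⟩)
  refine ⟨fun i => U i \ ((Subtype.val : A → X) '' (G i)ᶜ), ?_, ?_, ?_, ?_⟩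
  · intro i
    exact (hU i).sdiff (hA.isClosedEmbedding_subtypeVal.isClosedMap _ (hG1 i).isClosed_compl)
  · intro i
    exact sdiff_subset
  · rw [eq_univ_iff_forall]
    intro x
    by_cases hx : x ∈ A
    · have hx2 : (⟨x, hx⟩ : A) ∈ ⋃ i, G i := by rw [hG3]; exact mem_univ _
      obtain ⟨i, hi⟩ := mem_iUnion.1 hx2
      refine mem_iUnion.2 ⟨i, hG2 i hi, ?_⟩
      rintro ⟨y, hy, hyx⟩
      apply hy
      have e : y = ⟨x, hx⟩ := Subtype.ext hyx
      rw [e]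
      exact hi
    · have hx2 : x ∈ ⋃ i, U i := by rw [hc]; exact mem_univ _
      obtain ⟨i, hi⟩ := mem_iUnion.1 hx2
      refine mem_iUnion.2 ⟨i, hi, ?_⟩
      rintro ⟨y, hy, hyx⟩
      apply hx
      rw [← hyx]
      exact y.2
  · intro x hx
    refine le_trans (ncard_le_ncard ?_ (toFinite _)) (hG4 ⟨x, hx⟩)
    intro i hi
    by_contra hn
    exact hi.2 ⟨⟨x, hx⟩, hn, rfl⟩

/-- the first `j` closed sets -/
theorem steps {X : Type} [TopologicalSpace X] {n m : ℕ} {F : Fin m → Set X}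
    (hF : ∀ j, IsClosed (F j)) (hS : ∀ j, ShrLE (F j) n) (j : ℕ) {k : ℕ} (U : Fin k → Set X)
    (hU : ∀ i, IsOpen (U i)) (hc : (⋃ i, U i) = univ) :
    ∃ V : Fin k → Set X, (∀ i, IsOpen (V i)) ∧ (∀ i, V i ⊆ U i) ∧ (⋃ i, V i) = univ ∧
      ∀ a : Fin m, (a : ℕ) < j → ∀ x ∈ F a, {i | x ∈ V i}.ncard ≤ n + 1 := by
  induction j with
  | zero => exact ⟨U, hU, fun i => subset_rfl, hc, fun a ha => absurd ha (Nat.not_lt_zero _)⟩
  | succ j ih =>
    obtain ⟨V, hV1, hV2, hV3, hV4⟩ := ih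
    by_cases hj : j < m
    · obtain ⟨W, hW1, hW2, hW3, hW4⟩ := step (hF ⟨j, hj⟩) (hS ⟨j, hj⟩) V hV1 hV3
      refine ⟨W, hW1, fun i => (hW2 i).trans (hV2 i), hW3, ?_⟩
      intro a ha x hx
      by_cases haj : (a : ℕ) < j
      · refine le_trans (ncard_le_ncard ?_ (toFinite _)) (hV4 a haj x hx)
        intro i hi
        exact hW2 i hi
      · have e : a = ⟨j, hj⟩ := Fin.ext (by change (a : ℕ) = j; omega)
        rw [e] at hx
        exact hW4 x hx
    · refine ⟨V, hV1, hV2, hV3, ?_⟩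
      intro a ha x hx
      exact hV4 a (by have := a.2; omega) x hx

end SUM

theorem t_SUM : S_SUM := by
  intro X _ n m F hF hFc hS k U hU hc
  obtain ⟨V, hV1, hV2, hV3, hV4⟩ := SUM.steps hF hS m U hU hc
  refine ⟨V, hV1, hV2, hV3, ?_⟩
  intro x
  have hx : x ∈ ⋃ j, F j := by rw [hFc]; exact mem_univ _
  obtain ⟨j, hj⟩ := mem_iUnion.1 hx
  exact hV4 j j.2 x hj

end CTO
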